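import Pool.Graph.R_seed8.H812R2.PI.Defs

/-! Cubic companion matrices are Pisot. -/

set_option autoImplicit false

open Pool.Agent.H812R2.PI (PisotMat)
open Polynomial

namespace Pool.Agent.H872.PC

def CM (a b : ℕ) : Matrix (Fin 3) (Fin 3) ℤ := !![(a:ℤ), (b:ℤ), 1; 1, 0, 0; 0, 1, 0]

namespace PisL

theorem cp (R : Type) [CommRing R] (a b : ℕ) :
    ((CM a b).map (Int.cast : ℤ → R)).charpoly =
      X ^ 3 - C (a : R) * X ^ 2 - C (b : R) * X - 1 := by
  rw [Matrix.charpoly, Matrix.det_fin_three]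
  simp [CM]
  ring

theorem cp_root (R : Type) [CommRing R] (a b : ℕ) (x : R) :
    ((CM a b).map (Int.cast : ℤ → R)).charpoly.IsRoot x ↔
      x ^ 3 - (a : R) * x ^ 2 - (b : R) * x - 1 = 0 := by
  rw [cp, IsRoot.def]
  simp

theorem det_one (a b : ℕ) : (CM a b).det = 1 := by
  rw [Matrix.det_fin_three]
  simp [CM]

theorem no_int_root (a b : ℕ) (ha : 1 ≤ a + b) (hb : b ≤ a + 1) (n : ℤ)
    (h : n ^ 3 - (a : ℤ) * n ^ 2 - (b : ℤ) * n - 1 = 0) : False := by
  have h1 : n * (n ^ 2 - a * n - b) = 1 := by linarith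
  have h2 : IsUnit n := IsUnit.of_mul_eq_one _ h1
  rcases Int.isUnit_iff.1 h2 with rfl | rfl
  · have : (1 : ℤ) ≤ a + b := by exact_mod_cast ha
    linarith
  · have : (b : ℤ) ≤ a + 1 := by exact_mod_cast hb
    linarith

theorem irr (a b : ℕ) (ha : 1 ≤ a + b) (hb : b ≤ a + 1) :
    Irreducible ((CM a b).map (Int.cast : ℤ → ℚ)).charpoly := by
  have hmon : ((CM a b).map (Int.cast : ℤ → ℚ)).charpoly.Monic := Matrix.charpoly_monic _
  have hdeg : ((CM a b).map (Int.cast : ℤ → ℚ)).charpoly.natDegree = 3 := by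
    rw [Matrix.charpoly_natDegree_eq_dim]
    simp
  rw [hmon.irreducible_iff_roots_eq_zero_of_degree_le_three (by rw [hdeg]; norm_num)
    (by rw [hdeg])]
  rw [Multiset.eq_zero_iff_forall_notMem]
  intro r hr
  rw [mem_roots hmon.ne_zero] at hr
  rw [cp_root] at hr
  have hint : IsIntegral ℤ r := by
    refine ⟨X ^ 3 - C (a : ℤ) * X ^ 2 - C (b : ℤ) * X - 1, ?_, ?_⟩
    · have := cp ℤ a b
      rw [← this]
      exact Matrix.charpoly_monic _
    · simp only [eval₂_sub, eval₂_pow, eval₂_X, eval₂_mul, eval₂_C, eval₂_one]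
      simpa using hr
  obtain ⟨n, hn⟩ := IsIntegrallyClosed.isIntegral_iff.1 hint
  have hn' : r = (n : ℚ) := by rw [← hn]; simp
  rw [hn'] at hr
  exact no_int_root a b ha hb n (by exact_mod_cast hr)

theorem exists_lam (a b : ℕ) (ha : 1 ≤ a + b) :
    ∃ lam : ℝ, 1 < lam ∧ (a : ℝ) < lam ∧
      lam ^ 3 - (a : ℝ) * lam ^ 2 - (b : ℝ) * lam - 1 = 0 := by
  have ha' : (1 : ℝ) ≤ a + b := by exact_mod_cast ha
  have ha0 : (0 : ℝ) ≤ a := by positivity
  have hb' : (0 : ℝ) ≤ b := by positivity
  have hcont : Continuous (fun x : ℝ => x ^ 3 - (a : ℝ) * x ^ 2 - (b : ℝ) * x - 1) := by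
    fun_prop
  have hle : (1 : ℝ) ≤ a + b + 1 := by linarith
  have h1 : (1 : ℝ) ^ 3 - (a : ℝ) * 1 ^ 2 - (b : ℝ) * 1 - 1 < 0 := by linarith
  have h2 : 0 < ((a : ℝ) + b + 1) ^ 3 - (a : ℝ) * ((a : ℝ) + b + 1) ^ 2 -
      (b : ℝ) * ((a : ℝ) + b + 1) - 1 := by
    have e : ((a : ℝ) + b + 1) ^ 3 - (a : ℝ) * ((a : ℝ) + b + 1) ^ 2 -
      (b : ℝ) * ((a : ℝ) + b + 1) - 1 =
      ((a : ℝ) + b + 1) * (((a : ℝ) + b + 1) * (b + 1) - b) - 1 := by ring
    rw [e]
    have h3 : (2 : ℝ) ≤ ((a : ℝ) + b + 1) * (b + 1) - b := by nlinarith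
    have h4 : (2 : ℝ) ≤ (a : ℝ) + b + 1 := by linarith
    nlinarith
  have h5 := intermediate_value_Ioo hle hcont.continuousOn
  obtain ⟨lam, ⟨h6, h7⟩, h8⟩ := h5 ⟨h1, h2⟩
  refine ⟨lam, h6, ?_, h8⟩
  by_contra hcon
  rw [not_lt] at hcon
  have h9 : lam ^ 3 - (a : ℝ) * lam ^ 2 - (b : ℝ) * lam - 1 = 0 := h8
  nlinarith [mul_nonneg (sub_nonneg.2 hcon) (sq_nonneg lam), mul_nonneg hb' (by linarith : 0 ≤ lam)]

end PisL

open PisL in
theorem cm_pisot (a b : ℕ) (ha : 1 ≤ a + b) (hb : b ≤ a + 1) : PisotMat (CM a b) := by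
  refine ⟨irr a b ha hb, Or.inl (det_one a b), ?_⟩
  obtain ⟨lam, h1, h2, h3⟩ := exists_lam a b ha
  have ha' : (0 : ℝ) ≤ a := by positivity
  have hb' : (b : ℝ) ≤ a + 1 := by exact_mod_cast hb
  have hlam0 : lam ≠ 0 := by linarith
  refine ⟨lam, h1, ?_, ?_⟩
  · rw [cp_root]
    exact_mod_cast h3
  · intro μ hμ hne
    rw [cp_root] at hμ
    set c : ℝ := 1 / lam with hc
    have hc0 : 0 < c := by positivity
    have hc1 : c < 1 := by
      rw [hc, div_lt_one (by linarith)]
      exact h1
    have hcl : c * lam = 1 := by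
      rw [hc]
      field_simp
    have hbc : (b : ℝ) = lam ^ 2 - a * lam - c := by
      have h4 : lam * (lam ^ 2 - a * lam - b) = 1 := by linarith
      have h5 : lam * (lam ^ 2 - a * lam - b - c) = 0 := by
        linarith [mul_comm c lam]
      rcases mul_eq_zero.1 h5 with h6 | h6
      · exact absurd h6 hlam0
      · linarith
    have hq : μ ^ 2 + ((lam : ℂ) - a) * μ + (c : ℂ) = 0 := by
      have hbC : (b : ℂ) = (lam : ℂ) ^ 2 - a * lam - c := by exact_mod_cast hbc
      have hclC : (c : ℂ) * lam = 1 := by exact_mod_cast hcl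
      have h7 : (μ - lam) * (μ ^ 2 + ((lam : ℂ) - a) * μ + (c : ℂ)) = 0 := by
        rw [← hμ, hbC]
        linear_combination (-1 : ℂ) * hclC
      rcases mul_eq_zero.1 h7 with h8 | h8
      · exact absurd (sub_eq_zero.1 h8) hne
      · exact h8
    -- real and imaginary parts
    have hre : μ.re ^ 2 - μ.im ^ 2 + (lam - a) * μ.re + c = 0 := by
      have := congrArg Complex.re hq
      simp [pow_two] at this
      nlinarith [this]
    have him : 2 * μ.re * μ.im + (lam - a) * μ.im = 0 := by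
      have := congrArg Complex.im hq
      simp [pow_two] at this
      nlinarith [this]
    have hnorm : ‖μ‖ ^ 2 = μ.re ^ 2 + μ.im ^ 2 := by
      rw [← Complex.normSq_eq_norm_sq, Complex.normSq_apply]
      ring
    have hpos : 0 < ‖μ‖ := by
      rw [norm_pos_iff]
      rintro rfl
      simp at hre
      linarith
    refine ⟨hpos, ?_⟩
    have hlt : ‖μ‖ ^ 2 < 1 := by
      rw [hnorm]
      by_cases hy : μ.im = 0
      · rw [hy] at hre ⊢
        have hre' : μ.re ^ 2 + (lam - a) * μ.re + c = 0 := by linarith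
        have hqm : 0 < 1 - (lam - a) + c := by
          -- (lam + 1) * q(-1) = a + 2 - b
          have h9 : (lam + 1) * (1 - (lam - a) + c) = a + 2 - b := by
            rw [hbc]
            linear_combination hcl
          have h10 : 0 < (lam + 1) * (1 - (lam - a) + c) := by
            rw [h9]
            linarith
          exact (mul_pos_iff_of_pos_left (by linarith)).1 h10
        have hneg : μ.re < 0 := by
          by_contra hcon
          rw [not_lt] at hcon
          have : 0 ≤ (lam - a) * μ.re := mul_nonneg (by linarith) hcon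
          nlinarith [sq_nonneg μ.re]
        have hgt : -1 < μ.re := by
          by_contra hcon
          rw [not_lt] at hcon
          -- x ≤ -1
          set x := μ.re
          set s := lam - (a : ℝ)
          -- the other root is `-s - x`, with x * (-s - x) = c
          have h11 : x * (-s - x) = c := by linarith [hre']
          have h12 : (1 + x) * (1 + (-s - x)) = 1 - s + c := by linarith [h11]
          have h13 : 0 < (1 + x) * (1 + (-s - x)) := by rw [h12]; exact hqm
          have h14 : 1 + (-s - x) < 0 := by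
            by_contra hcon2
            rw [not_lt] at hcon2
            have : (1 + x) * (1 + (-s - x)) ≤ 0 :=
              mul_nonpos_of_nonpos_of_nonneg (by linarith) hcon2
            linarith
          nlinarith [mul_nonneg (by linarith : 0 ≤ -1 - x) (by linarith : 0 ≤ -1 - (-s - x))]
        nlinarith
      · have hx : 2 * μ.re + (lam - a) = 0 := by
          have h15 : (2 * μ.re + (lam - a)) * μ.im = 0 := by linarith
          rcases mul_eq_zero.1 h15 with h16 | h16
          · exact h16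
          · exact absurd h16 hy
        have h17 : μ.re ^ 2 + μ.im ^ 2 = c := by
          have h18 : lam - a = - 2 * μ.re := by linarith
          rw [h18] at hre
          linarith [hre]
        rw [h17]
        exact hc1
    nlinarith [norm_nonneg μ]

end Pool.Agent.H872.PC
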