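import Pool.Graph.R_seed8.H812R2.PI.Defs
import Pool.Agent.H872.PC.Pis

/-! Powers of cubic companion matrices: a power is Pisot only if b ≤ a + 1 and 1 ≤ a + b. -/

set_option autoImplicit false

open Pool.Agent.H812R2.PI (PisotMat)
open Polynomial

namespace Pool.Agent.H872.PC

namespace IffL

/-- a real root of the cubic gives a root of the characteristic polynomial of the power -/
theorem pow_root (a b n : ℕ) (x : ℝ)
    (hx : x ^ 3 - (a : ℝ) * x ^ 2 - (b : ℝ) * x - 1 = 0) :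
    (((CM a b) ^ n).map (Int.cast : ℤ → ℂ)).charpoly.IsRoot (((x ^ n : ℝ)) : ℂ) := by
  have hmap : ((CM a b) ^ n).map (Int.cast : ℤ → ℂ) =
      ((CM a b).map (Int.cast : ℤ → ℂ)) ^ n := by
    have h1 := Matrix.map_pow (M := CM a b) (f := Int.castRingHom ℂ) n
    simpa using h1
  rw [hmap, IsRoot.def, Matrix.eval_charpoly]
  set M : Matrix (Fin 3) (Fin 3) ℂ := (CM a b).map (Int.cast : ℤ → ℂ) with hM
  set v : Fin 3 → ℂ := ![(x : ℂ) ^ 2, (x : ℂ), 1] with hv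
  have hxc : (x : ℂ) ^ 3 - (a : ℂ) * (x : ℂ) ^ 2 - (b : ℂ) * (x : ℂ) - 1 = 0 := by
    exact_mod_cast hx
  have hev : M.mulVec v = (x : ℂ) • v := by
    funext i
    fin_cases i
    · simp [hM, hv, CM, Matrix.mulVec, dotProduct, Fin.sum_univ_three]
      linear_combination -hxc
    · simp [hM, hv, CM, Matrix.mulVec, dotProduct, Fin.sum_univ_three]
      ring
    · simp [hM, hv, CM, Matrix.mulVec, dotProduct, Fin.sum_univ_three]
  have hpow : ∀ k : ℕ, (M ^ k).mulVec v = ((x : ℂ) ^ k) • v := by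
    intro k
    induction k with
    | zero => simp
    | succ k ih =>
      rw [pow_succ, ← Matrix.mulVec_mulVec, hev, Matrix.mulVec_smul, ih, smul_smul, pow_succ,
        mul_comm]
  rw [← Matrix.exists_mulVec_eq_zero_iff]
  refine ⟨v, ?_, ?_⟩
  · intro h0
    have h2 := congrFun h0 2
    simp [hv] at h2
  · rw [Matrix.sub_mulVec, hpow n]
    funext i
    simp [Matrix.scalar_apply]

theorem exists_neg (a b : ℕ) (hb : a + 2 ≤ b) :
    ∃ x : ℝ, x ≤ -1 ∧ x ^ 3 - (a : ℝ) * x ^ 2 - (b : ℝ) * x - 1 = 0 := by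
  have hb' : (a : ℝ) + 2 ≤ b := by exact_mod_cast hb
  have ha0 : (0 : ℝ) ≤ a := by positivity
  have hcont : Continuous (fun x : ℝ => x ^ 3 - (a : ℝ) * x ^ 2 - (b : ℝ) * x - 1) := by
    fun_prop
  have hle : -((b : ℝ) + 2) ≤ -1 := by linarith
  have h1 : (-((b : ℝ) + 2)) ^ 3 - (a : ℝ) * (-((b : ℝ) + 2)) ^ 2 -
      (b : ℝ) * (-((b : ℝ) + 2)) - 1 ≤ 0 := by
    have e : (-((b : ℝ) + 2)) ^ 3 - (a : ℝ) * (-((b : ℝ) + 2)) ^ 2 -
      (b : ℝ) * (-((b : ℝ) + 2)) - 1 =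
      -(((b : ℝ) + 2) * (((b : ℝ) + 2) * ((b : ℝ) + 2) - b)
        + (a : ℝ) * ((b : ℝ) + 2) ^ 2 + 1) := by ring
    rw [e]
    have h3 : (0 : ℝ) ≤ ((b : ℝ) + 2) * ((b : ℝ) + 2) - b := by nlinarith
    have h4 : (0 : ℝ) ≤ (b : ℝ) + 2 := by linarith
    have h5 : 0 ≤ ((b : ℝ) + 2) * (((b : ℝ) + 2) * ((b : ℝ) + 2) - b) := mul_nonneg h4 h3
    have h6 : 0 ≤ (a : ℝ) * ((b : ℝ) + 2) ^ 2 := by positivity
    linarith
  have h2 : 0 ≤ (-1 : ℝ) ^ 3 - (a : ℝ) * (-1) ^ 2 - (b : ℝ) * (-1) - 1 := by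
    norm_num
    linarith
  have h5 := intermediate_value_Icc hle hcont.continuousOn
  obtain ⟨x, ⟨_, h7⟩, h8⟩ := h5 ⟨h1, h2⟩
  exact ⟨x, h7, h8⟩

theorem exists_pos (a b : ℕ) (hb : 1 ≤ a + b) :
    ∃ x : ℝ, 1 < x ∧ x ^ 3 - (a : ℝ) * x ^ 2 - (b : ℝ) * x - 1 = 0 := by
  have hb' : (1 : ℝ) ≤ a + b := by exact_mod_cast hb
  have ha0 : (0 : ℝ) ≤ a := by positivity
  have hb0 : (0 : ℝ) ≤ b := by positivity
  have hcont : Continuous (fun x : ℝ => x ^ 3 - (a : ℝ) * x ^ 2 - (b : ℝ) * x - 1) := by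
    fun_prop
  have hle : (1 : ℝ) ≤ a + b + 1 := by linarith
  have h1 : (1 : ℝ) ^ 3 - (a : ℝ) * 1 ^ 2 - (b : ℝ) * 1 - 1 < 0 := by linarith
  have h2 : 0 < ((a : ℝ) + b + 1) ^ 3 - (a : ℝ) * ((a : ℝ) + b + 1) ^ 2 -
      (b : ℝ) * ((a : ℝ) + b + 1) - 1 := by
    have e : ((a : ℝ) + b + 1) ^ 3 - (a : ℝ) * ((a : ℝ) + b + 1) ^ 2 -
      (b : ℝ) * ((a : ℝ) + b + 1) - 1 =
      ((a : ℝ) + b + 1) * ((a : ℝ) * b + b * b + a + b + 1) - 1 := by ring
    rw [e]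
    have h3 : (1 : ℝ) ≤ (a : ℝ) * b + b * b + a + b + 1 := by
      have := mul_nonneg ha0 hb0
      nlinarith [mul_nonneg hb0 hb0]
    have h4 : (2 : ℝ) ≤ (a : ℝ) + b + 1 := by linarith
    nlinarith
  have h5 := intermediate_value_Ioo hle hcont.continuousOn
  obtain ⟨x, ⟨h6, _⟩, h8⟩ := h5 ⟨h1, h2⟩
  exact ⟨x, h6, h8⟩

end IffL

open IffL in
theorem cm_pow_only (a b n : ℕ) (hn : 1 ≤ n)
    (h : Pool.Agent.H812R2.PI.PisotMat (CM a b ^ n)) : b ≤ a + 1 ∧ 1 ≤ a + b := by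
  obtain ⟨_, _, lam, hlam, _, hroot⟩ := h
  have key : ∀ x : ℝ, x ^ 3 - (a : ℝ) * x ^ 2 - (b : ℝ) * x - 1 = 0 → 1 ≤ |x| →
      x ^ n = lam := by
    intro x hx h1
    by_contra hne
    have h2 := (hroot _ (pow_root a b n x hx) (by exact_mod_cast hne)).2
    rw [Complex.norm_real, Real.norm_eq_abs, abs_pow] at h2
    have h3 : 1 ≤ |x| ^ n := one_le_pow₀ h1
    linarith
  have hab : 1 ≤ a + b := by
    by_contra hcon
    have ha : a = 0 := by omega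
    have hb : b = 0 := by omega
    have h1 := key 1 (by rw [ha, hb]; norm_num) (by simp)
    rw [one_pow] at h1
    linarith
  refine ⟨?_, hab⟩
  by_contra hcon
  have hb : a + 2 ≤ b := by omega
  obtain ⟨x, hx1, hx⟩ := exists_neg a b hb
  obtain ⟨y, hy1, hy⟩ := exists_pos a b hab
  have h1 := key x hx (by rw [abs_of_neg (by linarith)]; linarith)
  have h2 := key y hy (by rw [abs_of_pos (by linarith)]; linarith)
  have h3 : |x| ^ n = |y| ^ n := by rw [← abs_pow, ← abs_pow, h1, h2]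
  have h4 : |x| = |y| := (pow_left_inj₀ (abs_nonneg x) (abs_nonneg y) (by omega)).1 h3
  rw [abs_of_neg (by linarith), abs_of_pos (by linarith)] at h4
  have h5 : x = -y := by linarith
  rw [h5] at hx
  have ha0 : (0 : ℝ) ≤ a := by positivity
  have h6 : 0 ≤ (a : ℝ) * y ^ 2 := by positivity
  nlinarith

end Pool.Agent.H872.PC
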