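import Pool.Agent.H872.PC.Main
import Pool.Agent.H872.PC.Iff

/-!
Cubic companion substitutions: the complete statement.
-/

set_option autoImplicit false

namespace Pool.Agent.H872.PC
open Pool.Agent.H812R2.PI Pool.Agent.Q132.PT
open scoped BigOperators

theorem C3.of_inc {a b : ℕ} {σ : Fin 3 → List (Fin 3)} (h : inc σ = CM a b) : C3 a b σ := by
  have hc : ∀ i j, ((σ j).count i : ℤ) = CM a b i j := fun i j => congrFun (congrFun h i) j
  refine ⟨?_, ?_, ?_⟩
  · rw [List.perm_iff_count]
    intro x
    have := hc x 0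
    fin_cases x <;> simp [CM, List.count_replicate] at this ⊢ <;> omega
  · rw [List.perm_iff_count]
    intro x
    have := hc x 1
    fin_cases x <;> simp [CM, List.count_replicate] at this ⊢ <;> omega
  · have hp : (σ 2).Perm [0] := by
      rw [List.perm_iff_count]
      intro x
      have := hc x 2
      fin_cases x <;> simp [CM] at this ⊢ <;> omega
    exact List.perm_singleton.1 hp

theorem all_iff (a b : ℕ) (l : List (Fin 3 → List (Fin 3))) (hne : l ≠ [])
    (hl : ∀ τ ∈ l, C3 a b τ) :
    (PisotMat (inc (compList l)) ↔ b ≤ a + 1 ∧ 1 ≤ a + b) ∧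
      (PisotMat (inc (compList l)) → SemiConjToral (compList l)) := by
  have h1 : PisotMat (inc (compList l)) → b ≤ a + 1 ∧ 1 ≤ a + b := by
    intro h
    rw [inc_list _ l fun τ hτ => (hl τ hτ).inc_eq] at h
    refine cm_pow_only a b l.length ?_ h
    rcases l with _ | ⟨x, l⟩
    · exact absurd rfl hne
    · simp
  exact ⟨⟨h1, fun h => (main_all a b h.2 h.1 l hne hl).1⟩,
    fun h => (main_all a b (h1 h).2 (h1 h).1 l hne hl).2⟩

end Pool.Agent.H872.PC
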