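import Pool.Agent.H872.PC.T01

/-! Check of the certificate tree. -/

set_option autoImplicit false
set_option maxRecDepth 100000

namespace Pool.Agent.H872.PC

theorem chkP_10 : chkP (10 ^ 9) 403 100 t01 1 0 = true := by decide +kernel

end Pool.Agent.H872.PC
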