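import Pool.Agent.H872.PC.BPMain
import Pool.Agent.H872.PC.T01_00
import Pool.Agent.H872.PC.T01_01
import Pool.Agent.H872.PC.T01_10
import Pool.Agent.H872.PC.T01_11

/-!
The case `a = 0`, `b = 1`.
-/

set_option autoImplicit false

namespace Pool.Agent.H872.PC
open Pool.Agent.H812R2.PI Pool.Agent.Q132.PT
open scoped BigOperators

theorem cs_comp (S : Fin 3 → List (Fin 3)) (j : ℕ) (u v : List L3) :
    cs (comp S (tau 0 0 j (1 - j))) u v = cs S (im1 j u) (im1 j v) := by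
  unfold cs im1
  rw [dS_comp, img_spec, img_spec]

theorem OkT.mono {S : Fin 3 → List (Fin 3)} {K K' : ℝ} {t : Tr} (h : OkT S K t) (hK : K ≤ K') :
    OkT S K' t :=
  Tr.All.mono h fun _ _ _ hw => hw.trans (mul_le_mul_of_nonneg_right hK (Nat.cast_nonneg _))

theorem step5 {S : Fin 3 → List (Fin 3)} {K : ℝ} (hK : 0 ≤ K) {t : Tr} (h : OkT S K t)
    {big N D : ℕ} (hD : 0 < D) (h0 : t.all (chk0 big N D) = true) {j1 j2 j3 j4 j5 : ℕ}
    (h1 : t.all (chk5 big N D t j1 j2 j3 j4 j5) = true) :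
    OkT (comp (comp (comp (comp (comp S (tau 0 0 j1 (1 - j1))) (tau 0 0 j2 (1 - j2)))
      (tau 0 0 j3 (1 - j3))) (tau 0 0 j4 (1 - j4))) (tau 0 0 j5 (1 - j5))) ((N / D : ℝ) * K) t := by
  have h0' := Tr.all_spec _ _ h0
  have h1' := Tr.all_spec _ _ h1
  refine (h0'.and h1').mono fun a b w hw => ?_
  obtain ⟨hw0, hw1⟩ := hw
  obtain ⟨hbal, hpos, hbig⟩ := chk0_spec hw0
  obtain ⟨U, hU⟩ : ∃ U, U = im1 j1 (im1 j2 (im1 j3 (im1 j4 (im1 j5 (dec a))))) := ⟨_, rfl⟩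
  obtain ⟨V, hV⟩ : ∃ V, V = im1 j1 (im1 j2 (im1 j3 (im1 j4 (im1 j5 (dec b))))) := ⟨_, rfl⟩
  have hbalI : Bal U V := by
    rw [hU, hV]
    exact ((((hbal.img 0 0 j5 (1 - j5)).img 0 0 j4 (1 - j4)).img 0 0 j3 (1 - j3)).img
      0 0 j2 (1 - j2)).img 0 0 j1 (1 - j1)
  have hw2 : D * scan big t U V 1 1 0 0 0 0 < N * w + 1 := by
    rw [hU, hV]
    exact Nat.le_of_ble_eq_true hw1
  have hsb : scan big t U V 1 1 0 0 0 0 < big :=
    lt_of_mul_lt_mul_left (hw2.trans_le hbig) (Nat.zero_le D)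
  have e : cs (comp (comp (comp (comp (comp S (tau 0 0 j1 (1 - j1))) (tau 0 0 j2 (1 - j2)))
      (tau 0 0 j3 (1 - j3))) (tau 0 0 j4 (1 - j4))) (tau 0 0 j5 (1 - j5))) (dec a) (dec b) =
      cs S U V := by
    rw [cs_comp, cs_comp, cs_comp, cs_comp, cs_comp, hU, hV]
  have h3 : (cs S U V : ℝ) ≤ K * (scan big t U V 1 1 0 0 0 0 : ℕ) :=
    scan_spec h big U V [] [] rfl hbalI hsb
  rw [e]
  refine h3.trans ?_
  have h4 : D * scan big t U V 1 1 0 0 0 0 ≤ N * w := by omega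
  have h5 := castle h4
  push_cast at h5
  have hD' : (0 : ℝ) < D := by exact_mod_cast hD
  have h6 : ((scan big t U V 1 1 0 0 0 0 : ℕ) : ℝ) ≤ N / D * w := by
    rw [div_mul_eq_mul_div, le_div_iff₀ hD', mul_comm]
    exact h5
  calc K * ((scan big t U V 1 1 0 0 0 0 : ℕ) : ℝ)
      ≤ K * (N / D * w) := mul_le_mul_of_nonneg_left h6 hK
    _ = _ := by ring

theorem C3.shape01 {τ : Fin 3 → List (Fin 3)} (h : C3 0 1 τ) :
    ∃ j, j < 2 ∧ τ = tau 0 0 j (1 - j) := by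
  obtain ⟨i, i', j, j', hi, hj, rfl⟩ := h.shape
  have e1 : i = 0 := by omega
  have e2 : i' = 0 := by omega
  have e3 : j' = 1 - j := by omega
  subst e1
  subst e2
  subst e3
  exact ⟨j, by omega, rfl⟩

theorem chk5_all {j1 j2 j3 j4 j5 : ℕ} (h1 : j1 < 2) (h2 : j2 < 2) (h3 : j3 < 2) (h4 : j4 < 2)
    (h5 : j5 < 2) : t01.all (chk5 (10 ^ 9) 403 100 t01 j1 j2 j3 j4 j5) = true := by
  have key : chkP (10 ^ 9) 403 100 t01 j1 j2 = true := by
    interval_cases j1 <;> interval_cases j2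
    · exact chkP_00
    · exact chkP_01
    · exact chkP_10
    · exact chkP_11
  unfold chkP at key
  rw [List.all_eq_true] at key
  have k1 := key j3 (List.mem_range.2 h3)
  rw [List.all_eq_true] at k1
  have k2 := k1 j4 (List.mem_range.2 h4)
  rw [List.all_eq_true] at k2
  exact k2 j5 (List.mem_range.2 h5)

theorem short01 {K₀ : ℝ} (hK₀ : 0 ≤ K₀) (hbase : OkT (compList []) K₀ t01)
    (l : List (Fin 3 → List (Fin 3))) (hl : ∀ τ ∈ l, C3 0 1 τ) :
    OkT (compList l) (K₀ * 10 ^ l.length) t01 := by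
  induction l using List.reverseRecOn with
  | nil => simpa using hbase
  | append_singleton l τ ih =>
    obtain ⟨j, hj, hτ⟩ := (hl τ (by simp)).shape01
    have ih' := ih fun τ' h => hl τ' (List.mem_append_left _ h)
    rw [compList_snoc, List.length_append, List.length_singleton, pow_succ, hτ]
    have hA := chkA01
    unfold chkA at hA
    rw [List.all_eq_true] at hA
    have h1 := hA 0 (List.mem_range.2 (by omega))
    rw [List.all_eq_true] at h1
    have h2 := h1 j (List.mem_range.2 (by omega))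
    have := step_tree (mul_nonneg hK₀ (by positivity)) ih' (by norm_num) chk001 h2
    have e : K₀ * (10 ^ l.length * 10) = ((10 : ℕ) / (1 : ℕ) : ℝ) * (K₀ * 10 ^ l.length) := by
      push_cast; ring
    rw [e]
    exact this

theorem long01 {K₀ : ℝ} (hK₀ : 0 ≤ K₀) (hbase : OkT (compList []) K₀ t01) (n : ℕ) :
    ∀ l : List (Fin 3 → List (Fin 3)), l.length = n → (∀ τ ∈ l, C3 0 1 τ) →
    OkT (compList l) (K₀ * 10 ^ 4 * (661 / 500 : ℝ) ^ n) t01 := by
  induction n using Nat.strong_induction_on with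
  | _ n ih =>
    intro l hlen hl
    rcases Nat.lt_or_ge n 5 with hn | hn
    · refine (short01 hK₀ hbase l hl).mono ?_
      have h1 : (10 : ℝ) ^ l.length ≤ 10 ^ 4 := by
        apply pow_le_pow_right₀ (by norm_num)
        omega
      have h2 : (1 : ℝ) ≤ (661 / 500 : ℝ) ^ n := one_le_pow₀ (by norm_num)
      have h3 : (10 : ℝ) ^ l.length ≤ 10 ^ 4 * (661 / 500 : ℝ) ^ n := by nlinarith
      calc K₀ * 10 ^ l.length ≤ K₀ * (10 ^ 4 * (661 / 500 : ℝ) ^ n) :=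
            mul_le_mul_of_nonneg_left h3 hK₀
        _ = _ := by ring
    · obtain ⟨m, rfl⟩ : ∃ m, n = m + 5 := ⟨n - 5, by omega⟩
      obtain ⟨l', s, hs, hl's⟩ : ∃ l' s : List (Fin 3 → List (Fin 3)), s.length = 5 ∧ l = l' ++ s :=
        ⟨l.take m, l.drop m, by rw [List.length_drop]; omega, (List.take_append_drop m l).symm⟩
      match s, hs with
      | [τ1, τ2, τ3, τ4, τ5], _ =>
        have hmem : ∀ τ ∈ [τ1, τ2, τ3, τ4, τ5], C3 0 1 τ := fun τ h => hl τ (by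
          rw [hl's]; exact List.mem_append_right _ h)
        obtain ⟨j1, hj1, e1⟩ := (hmem τ1 (by simp)).shape01
        obtain ⟨j2, hj2, e2⟩ := (hmem τ2 (by simp)).shape01
        obtain ⟨j3, hj3, e3⟩ := (hmem τ3 (by simp)).shape01
        obtain ⟨j4, hj4, e4⟩ := (hmem τ4 (by simp)).shape01
        obtain ⟨j5, hj5, e5⟩ := (hmem τ5 (by simp)).shape01
        have hl' : l'.length = m := by
          have := congrArg List.length hl's
          rw [List.length_append] at this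
          simp at this
          omega
        have ih' := ih m (by omega) l' hl' fun τ h => hl τ (by
          rw [hl's]; exact List.mem_append_left _ h)
        have hc : compList l = comp (comp (comp (comp (comp (compList l') τ1) τ2) τ3) τ4) τ5 := by
          have e : l = ((((l' ++ [τ1]) ++ [τ2]) ++ [τ3]) ++ [τ4]) ++ [τ5] := by
            rw [hl's]; simp
          rw [e, compList_snoc, compList_snoc, compList_snoc, compList_snoc, compList_snoc]
        have hKp : 0 ≤ K₀ * 10 ^ 4 * (661 / 500 : ℝ) ^ m :=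
          mul_nonneg (mul_nonneg hK₀ (by positivity)) (by positivity)
        have h5 := step5 hKp ih' (by norm_num) chk001b (chk5_all hj1 hj2 hj3 hj4 hj5)
        rw [hc, e1, e2, e3, e4, e5]
        refine h5.mono ?_
        rw [pow_add]
        push_cast
        have h6 : (403 / 100 : ℝ) ≤ (661 / 500 : ℝ) ^ 5 := by norm_num
        calc (403 / 100 : ℝ) * (K₀ * 10 ^ 4 * (661 / 500 : ℝ) ^ m)
            ≤ (661 / 500 : ℝ) ^ 5 * (K₀ * 10 ^ 4 * (661 / 500 : ℝ) ^ m) :=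
              mul_le_mul_of_nonneg_right h6 hKp
          _ = _ := by ring

theorem main01 (l : List (Fin 3 → List (Fin 3))) (hne : l ≠ [])
    (hl : ∀ τ ∈ l, C3 0 1 τ) : PisotMat (inc (compList l)) ∧ SemiConjToral (compList l) := by
  obtain ⟨K₀, hK₀, hbase⟩ := base_tree (compList []) t01
    ((Tr.all_spec _ _ chk001).mono fun a b w h => (chk0_spec h).2.1)
  obtain ⟨B, hB⟩ : ∃ B : ℝ, B = ((wt (10 ^ 9) t01 20 17 : ℕ) + (wt (10 ^ 9) t01 24 18 : ℕ) +
    (wt (10 ^ 9) t01 22 25 : ℕ) : ℝ) * (K₀ * 10 ^ 4) := ⟨_, rfl⟩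
  have w1 : wt (10 ^ 9) t01 20 17 < 10 ^ 9 := by decide +kernel
  have w2 : wt (10 ^ 9) t01 24 18 < 10 ^ 9 := by decide +kernel
  have w3 : wt (10 ^ 9) t01 22 25 < 10 ^ 9 := by decide +kernel
  refine engine 0 1 (by omega) (by omega) (661 / 500) (by norm_num) (by norm_num) B
    (fun _ => True) (fun l hl x y => ?_) l hne fun τ hτ => ⟨hl τ hτ, trivial⟩
  have hk := long01 hK₀ (hbase K₀ le_rfl) l.length l rfl fun τ hτ => (hl τ hτ).1
  obtain ⟨K, hKdef⟩ : ∃ K : ℝ, K = K₀ * 10 ^ 4 * (661 / 500 : ℝ) ^ l.length := ⟨_, rfl⟩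
  rw [← hKdef] at hk
  have hK : 0 ≤ K := by rw [hKdef]; positivity
  have g1 := wt_spec hk (10 ^ 9) (u := [.b, .a]) (v := [.a, .b]) ⟨rfl, rfl, rfl⟩ w1
  have g2 := wt_spec hk (10 ^ 9) (u := [.c, .a]) (v := [.a, .c]) ⟨rfl, rfl, rfl⟩ w2
  have g3 := wt_spec hk (10 ^ 9) (u := [.b, .c]) (v := [.c, .b]) ⟨rfl, rfl, rfl⟩ w3
  have g1' : (cf (compList l) 1 : ℝ) ≤ K * (wt (10 ^ 9) t01 20 17 : ℕ) := g1
  have g2' : (cg (compList l) 1 : ℝ) ≤ K * (wt (10 ^ 9) t01 24 18 : ℕ) := g2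
  have g3' : (ch (compList l) 0 : ℝ) ≤ K * (wt (10 ^ 9) t01 22 25 : ℕ) := g3
  have q1 : 0 ≤ K * (wt (10 ^ 9) t01 20 17 : ℕ) := mul_nonneg hK (Nat.cast_nonneg _)
  have q2 : 0 ≤ K * (wt (10 ^ 9) t01 24 18 : ℕ) := mul_nonneg hK (Nat.cast_nonneg _)
  have q3 : 0 ≤ K * (wt (10 ^ 9) t01 22 25 : ℕ) := mul_nonneg hK (Nat.cast_nonneg _)
  have e : B * (661 / 500 : ℝ) ^ l.length = K * (wt (10 ^ 9) t01 20 17 : ℕ) +
      K * (wt (10 ^ 9) t01 24 18 : ℕ) + K * (wt (10 ^ 9) t01 22 25 : ℕ) := by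
    rw [hKdef, hB]; ring
  rw [e]
  exact cst_le _ _ (by positivity) (by linarith) (by linarith) (by linarith) x y

end Pool.Agent.H872.PC
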