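import Pool.Agent.H872.PC.BPDefs

/-!
The checker for products of five factors, `a = 0`, `b = 1`.
-/

set_option autoImplicit false

namespace Pool.Agent.H872.PC

/-- image under `a ↦ b`, `b ↦ a^j c a^(1-j)`, `c ↦ a` -/
def im1 (j : ℕ) (u : List L3) : List L3 := img 0 0 j (1 - j) u

/-- check of one entry for a product of five substitutions -/
def chk5 (big N D : ℕ) (t : Tr) (j1 j2 j3 j4 j5 : ℕ) (a b w : ℕ) : Bool :=
  Nat.blt (D * scan big t (im1 j1 (im1 j2 (im1 j3 (im1 j4 (im1 j5 (dec a))))))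
    (im1 j1 (im1 j2 (im1 j3 (im1 j4 (im1 j5 (dec b)))))) 1 1 0 0 0 0) (N * w + 1)

/-- check for all products with given first two factors -/
def chkP (big N D : ℕ) (t : Tr) (j1 j2 : ℕ) : Bool :=
  (List.range 2).all fun j3 => (List.range 2).all fun j4 => (List.range 2).all fun j5 =>
    t.all (chk5 big N D t j1 j2 j3 j4 j5)

end Pool.Agent.H872.PC
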