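import Mathlib

/-!
Balanced pairs for compositions: the checker of a finite certificate.
-/

set_option autoImplicit false

namespace Pool.Agent.H872.PC

/-- three letters -/
inductive L3 where
  | a : L3
  | b : L3
  | c : L3

/-- letter of a digit -/
def tl : ℕ → L3
  | 0 => .a
  | 1 => .b
  | _ => .c

/-- digit of a letter -/
def dg : L3 → ℕ
  | .a => 0
  | .b => 1
  | .c => 2

/-- word of a code (with fuel) -/
def decA : ℕ → ℕ → List L3 → List L3
  | 0, _, acc => acc
  | f + 1, n, acc => match Nat.ble n 1 with
    | true => acc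
    | false => match n % 4 with
      | 0 => decA f (n / 4) (.a :: acc)
      | 1 => decA f (n / 4) (.b :: acc)
      | _ => decA f (n / 4) (.c :: acc)

/-- word of a code -/
def dec (n : ℕ) : List L3 := decA n n []

/-- code of a word -/
def enc (u : List L3) : ℕ := u.foldl (fun n x => 4 * n + dg x) 1

/-- search tree of pairs of codes with weights -/
inductive Tr where
  | leaf : Tr
  | node : Tr → ℕ → ℕ → ℕ → Tr → Tr

/-- the weight of a pair of codes -/
def Tr.find (big : ℕ) : Tr → ℕ → ℕ → ℕ
  | .leaf, _, _ => big
  | .node l a b w r, x, y => match Nat.blt x a with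
    | true => l.find big x y
    | false => match Nat.blt a x with
      | true => r.find big x y
      | false => match Nat.blt y b with
        | true => l.find big x y
        | false => match Nat.blt b y with
          | true => r.find big x y
          | false => w

/-- the weight of a pair of codes in any order -/
def wt (big : ℕ) (t : Tr) (x y : ℕ) : ℕ := match Nat.beq x y with
  | true => 0
  | false => match Nat.blt x y with
    | true => t.find big x y
    | false => t.find big y x

/-- indicator of the first letter -/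
def i0 : L3 → ℕ
  | .a => 1
  | .b => 0
  | .c => 0

/-- indicator of the second letter -/
def i1 : L3 → ℕ
  | .a => 0
  | .b => 1
  | .c => 0

/-- total weight of the pieces of a balanced pair -/
def scan (big : ℕ) (t : Tr) : List L3 → List L3 → ℕ → ℕ → ℕ → ℕ → ℕ → ℕ → ℕ
  | [], [], cu, cv, _, _, _, _ => wt big t cu cv
  | [], _ :: _, _, _, _, _, _, _ => big
  | _ :: _, [], _, _, _, _, _, _ => big
  | x :: u, y :: v, cu, cv, a0, a1, b0, b1 =>
    match Nat.beq a0 b0 with
    | false => scan big t u v (4 * cu + dg x) (4 * cv + dg y) (a0 + i0 x) (a1 + i1 x)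
        (b0 + i0 y) (b1 + i1 y)
    | true => match Nat.beq a1 b1 with
      | false => scan big t u v (4 * cu + dg x) (4 * cv + dg y) (a0 + i0 x) (a1 + i1 x)
        (b0 + i0 y) (b1 + i1 y)
      | true => wt big t cu cv + scan big t u v (4 + dg x) (4 + dg y) (i0 x) (i1 x)
        (i0 y) (i1 y)

/-- a block -/
def rp : ℕ → List L3 → List L3
  | 0, l => l
  | n + 1, l => .a :: rp n l

/-- image of a word under `a ↦ a^i b a^i'`, `b ↦ a^j c a^j'`, `c ↦ a` -/
def img (i i' j j' : ℕ) : List L3 → List L3
  | [] => []
  | .a :: u => rp i (.b :: rp i' (img i i' j j' u))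
  | .b :: u => rp j (.c :: rp j' (img i i' j j' u))
  | .c :: u => .a :: img i i' j j' u

/-- check of one entry for one substitution -/
def chk1 (big N D : ℕ) (t : Tr) (i i' j j' : ℕ) (a b w : ℕ) : Bool :=
  Nat.blt (D * scan big t (img i i' j j' (dec a)) (img i i' j j' (dec b)) 1 1 0 0 0 0) (N * w + 1)

/-- all entries -/
def Tr.all (p : ℕ → ℕ → ℕ → Bool) : Tr → Bool
  | .leaf => true
  | .node l a b w r => p a b w && (l.all p && r.all p)

/-- number of the letters -/
def c0 : List L3 → ℕ
  | [] => 0
  | x :: u => i0 x + c0 u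

def c1 : List L3 → ℕ
  | [] => 0
  | x :: u => i1 x + c1 u

def ln : List L3 → ℕ
  | [] => 0
  | _ :: u => ln u + 1

/-- balanced and positive weight which is not too large -/
def chk0 (big N D : ℕ) (a b w : ℕ) : Bool :=
  Nat.beq (c0 (dec a)) (c0 (dec b)) && (Nat.beq (c1 (dec a)) (c1 (dec b)) &&
    (Nat.beq (ln (dec a)) (ln (dec b)) && (Nat.blt 0 w && Nat.ble (N * w + 1) (D * big))))

/-- check for all orders of the letters -/
def chkA (big N D : ℕ) (t : Tr) (a b : ℕ) : Bool :=
  (List.range (a + 1)).all fun i => (List.range (b + 1)).all fun j =>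
    t.all (chk1 big N D t i (a - i) j (b - j))

end Pool.Agent.H872.PC
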