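import Pool.Agent.H872.PC.BPSpec

/-!
Balanced pairs for compositions: the theorem.
-/

set_option autoImplicit false

namespace Pool.Agent.H872.PC
open Pool.Agent.H812R2.PI Pool.Agent.Q132.PT
open scoped BigOperators

theorem c0_rp (n : ℕ) (l : List L3) : c0 (rp n l) = n + c0 l := by
  induction n with
  | zero => simp [rp]
  | succ n ih => rw [rp, c0, ih, i0]; ring

theorem c1_rp (n : ℕ) (l : List L3) : c1 (rp n l) = c1 l := by
  induction n with
  | zero => simp [rp]
  | succ n ih => rw [rp, c1, ih, i1]; ring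

theorem length_rp (n : ℕ) (l : List L3) : (rp n l).length = n + l.length := by
  induction n with
  | zero => simp [rp]
  | succ n ih => rw [rp, List.length_cons, ih]; ring

theorem c1_img (i i' j j' : ℕ) (u : List L3) : c1 (img i i' j j' u) = c0 u := by
  induction u with
  | nil => rfl
  | cons x u ih =>
    cases x <;> simp only [img, c1_rp, c1, c0, i0, i1, ih]

theorem c0_img (i i' j j' : ℕ) (u : List L3) :
    c0 (img i i' j j' u) + c0 u + c1 u = (i + i') * c0 u + (j + j') * c1 u + u.length := by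
  induction u with
  | nil => simp [img, c0, c1]
  | cons x u ih =>
    cases x <;> simp only [img, c0_rp, c0, c1, i0, i1, List.length_cons] <;> nlinarith

theorem length_img (i i' j j' : ℕ) (u : List L3) :
    (img i i' j j' u).length + c0 u + c1 u =
      (i + i' + 1) * c0 u + (j + j' + 1) * c1 u + u.length := by
  induction u with
  | nil => simp [img, c0, c1]
  | cons x u ih =>
    cases x <;> simp only [img, length_rp, c0, c1, i0, i1, List.length_cons] <;> nlinarith

theorem Bal.img {u v : List L3} (h : Bal u v) (i i' j j' : ℕ) :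
    Bal (img i i' j j' u) (img i i' j j' v) := by
  obtain ⟨h1, h2, h3⟩ := h
  have a1 := c0_img i i' j j' u
  have a2 := c0_img i i' j j' v
  have b1 := length_img i i' j j' u
  have b2 := length_img i i' j j' v
  rw [h1, h2, h3] at a1 b1
  exact ⟨by omega, by rw [c1_img, c1_img, h1], by omega⟩

theorem chk0_spec {big N D a b w : ℕ} (h : chk0 big N D a b w = true) :
    Bal (dec a) (dec b) ∧ 0 < w ∧ N * w + 1 ≤ D * big := by
  unfold chk0 at h
  rw [Bool.and_eq_true, Bool.and_eq_true, Bool.and_eq_true, Bool.and_eq_true] at h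
  obtain ⟨h1, h2, h3, h4, h5⟩ := h
  refine ⟨⟨Nat.eq_of_beq_eq_true h1, Nat.eq_of_beq_eq_true h2, ?_⟩, Nat.le_of_ble_eq_true h4,
    Nat.le_of_ble_eq_true h5⟩
  have := Nat.eq_of_beq_eq_true h3
  rwa [ln_eq, ln_eq] at this

theorem step_tree {S : Fin 3 → List (Fin 3)} {K : ℝ} (hK : 0 ≤ K) {t : Tr} (h : OkT S K t)
    {big N D : ℕ} (hD : 0 < D) (h0 : t.all (chk0 big N D) = true) {i i' j j' : ℕ}
    (h1 : t.all (chk1 big N D t i i' j j') = true) :
    OkT (comp S (tau i i' j j')) ((N / D : ℝ) * K) t := by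
  have h0' := Tr.all_spec _ _ h0
  have h1' := Tr.all_spec _ _ h1
  refine (h0'.and h1').mono fun a b w hw => ?_
  obtain ⟨hw0, hw1⟩ := hw
  obtain ⟨hbal, hpos, hbig⟩ := chk0_spec hw0
  have hw2 : D * scan big t (img i i' j j' (dec a)) (img i i' j j' (dec b)) 1 1 0 0 0 0 <
      N * w + 1 := Nat.le_of_ble_eq_true hw1
  have hsb : scan big t (img i i' j j' (dec a)) (img i i' j j' (dec b)) 1 1 0 0 0 0 < big :=
    lt_of_mul_lt_mul_left (hw2.trans_le hbig) (Nat.zero_le D)
  have e : cs (comp S (tau i i' j j')) (dec a) (dec b) =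
      cs S (img i i' j j' (dec a)) (img i i' j j' (dec b)) := by
    unfold cs
    rw [dS_comp, img_spec, img_spec]
  have h2 := scan_spec h big (img i i' j j' (dec a)) (img i i' j j' (dec b)) [] [] rfl
    (hbal.img i i' j j') hsb
  rw [e]
  have h3 : (cs S (img i i' j j' (dec a)) (img i i' j j' (dec b)) : ℝ) ≤
      K * (scan big t (img i i' j j' (dec a)) (img i i' j j' (dec b)) 1 1 0 0 0 0 : ℕ) := h2
  refine h3.trans ?_
  have h4 : D * scan big t (img i i' j j' (dec a)) (img i i' j j' (dec b)) 1 1 0 0 0 0 ≤ N * w := by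
    omega
  have h5 := castle h4
  push_cast at h5
  have hD' : (0 : ℝ) < D := by exact_mod_cast hD
  have h6 : ((scan big t (img i i' j j' (dec a)) (img i i' j j' (dec b)) 1 1 0 0 0 0 : ℕ) : ℝ) ≤
      N / D * w := by
    rw [div_mul_eq_mul_div, le_div_iff₀ hD', mul_comm]
    exact h5
  calc K * ((scan big t (img i i' j j' (dec a)) (img i i' j j' (dec b)) 1 1 0 0 0 0 : ℕ) : ℝ)
      ≤ K * (N / D * w) := mul_le_mul_of_nonneg_left h6 hK
    _ = _ := by ring

theorem base_tree (S : Fin 3 → List (Fin 3)) (t : Tr) (h : t.All fun _ _ w => 0 < w) :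
    ∃ K₀ : ℝ, 0 ≤ K₀ ∧ ∀ K : ℝ, K₀ ≤ K → OkT S K t := by
  induction t with
  | leaf => exact ⟨0, le_rfl, fun K _ => trivial⟩
  | node l a b w r ihl ihr =>
    obtain ⟨K1, h1, h1'⟩ := ihl h.2.1
    obtain ⟨K2, h2, h2'⟩ := ihr h.2.2
    have hc : (0 : ℝ) ≤ (cs S (dec a) (dec b) : ℝ) := Nat.cast_nonneg _
    refine ⟨K1 + K2 + cs S (dec a) (dec b), by positivity, fun K hK =>
      ⟨?_, h1' K (by linarith), h2' K (by linarith)⟩⟩
    have hw : (1 : ℝ) ≤ w := by exact_mod_cast h.1
    have : (cs S (dec a) (dec b) : ℝ) ≤ K := by linarith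
    nlinarith

theorem main_tree (a b : ℕ) (ha : 1 ≤ a + b) (hb : b ≤ a + 1) (big N D : ℕ) (hN : 0 < N) (hD : 0 < D)
    (hroot : N ^ 3 < a * N ^ 2 * D + b * N * D ^ 2 + D ^ 3) (t : Tr)
    (h0 : t.all (chk0 big N D) = true) (hA : chkA big N D t a b = true)
    (w1 : wt big t 20 17 < big) (w2 : wt big t 24 18 < big) (w3 : wt big t 22 25 < big)
    (l : List (Fin 3 → List (Fin 3))) (hne : l ≠ [])
    (hl : ∀ τ ∈ l, C3 a b τ) : PisotMat (inc (compList l)) ∧ SemiConjToral (compList l) := by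
  obtain ⟨K₀, hK₀, hbase⟩ := base_tree (compList []) t
    ((Tr.all_spec _ _ h0).mono fun a b w h => (chk0_spec h).2.1)
  have hN' : (0 : ℝ) < N := by exact_mod_cast hN
  have hD' : (0 : ℝ) < D := by exact_mod_cast hD
  have hθ : (0 : ℝ) < (N : ℝ) / D := by positivity
  have key : ∀ l : List (Fin 3 → List (Fin 3)), (∀ τ ∈ l, C3 a b τ ∧ True) →
      OkT (compList l) (K₀ * ((N : ℝ) / D) ^ l.length) t := by
    intro l
    induction l using List.reverseRecOn with
    | nil =>
      intro _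
      rw [List.length_nil, pow_zero, mul_one]
      exact hbase K₀ le_rfl
    | append_singleton l τ ih =>
      intro hl
      obtain ⟨hτ, -⟩ := hl τ (by simp)
      have ih' := ih fun τ' h => hl τ' (List.mem_append_left _ h)
      obtain ⟨i, i', j, j', hi, hj, rfl⟩ := hτ.shape
      rw [compList_snoc, List.length_append, List.length_singleton, pow_succ]
      have hchk : t.all (chk1 big N D t i i' j j') = true := by
        unfold chkA at hA
        rw [List.all_eq_true] at hA
        have h1 := hA i (List.mem_range.2 (by omega))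
        rw [List.all_eq_true] at h1
        have h2 := h1 j (List.mem_range.2 (by omega))
        have e1 : a - i = i' := by omega
        have e2 : b - j = j' := by omega
        rw [e1, e2] at h2
        exact h2
      have := step_tree (mul_nonneg hK₀ (pow_pos hθ _).le) ih' hD h0 hchk
      have e : K₀ * (((N : ℝ) / D) ^ l.length * ((N : ℝ) / D)) =
          (N / D : ℝ) * (K₀ * ((N : ℝ) / D) ^ l.length) := by ring
      rw [e]
      exact this
  refine engine a b ha hb ((N : ℝ) / D) hθ ?_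
    (((wt big t 20 17 : ℕ) + (wt big t 24 18 : ℕ) + (wt big t 22 25 : ℕ) : ℝ) * K₀)
    (fun _ => True) (fun l hl x y => ?_) l hne fun τ hτ => ⟨hl τ hτ, trivial⟩
  · have h1 : (N : ℝ) ^ 3 < a * N ^ 2 * D + b * N * D ^ 2 + D ^ 3 := by exact_mod_cast hroot
    rw [div_pow, div_lt_iff₀ (by positivity)]
    have e : ((a : ℝ) * ((N : ℝ) / D) ^ 2 + b * ((N : ℝ) / D) + 1) * (D : ℝ) ^ 3 =
        a * N ^ 2 * D + b * N * D ^ 2 + D ^ 3 := by
      field_simp
    rw [e]
    exact h1
  · have hk := key l hl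
    obtain ⟨K, hKdef⟩ : ∃ K : ℝ, K = K₀ * ((N : ℝ) / D) ^ l.length := ⟨_, rfl⟩
    rw [← hKdef] at hk
    have hK : 0 ≤ K := by rw [hKdef]; exact mul_nonneg hK₀ (pow_pos hθ _).le
    have g1 := wt_spec hk big (u := [.b, .a]) (v := [.a, .b]) ⟨rfl, rfl, rfl⟩ w1
    have g2 := wt_spec hk big (u := [.c, .a]) (v := [.a, .c]) ⟨rfl, rfl, rfl⟩ w2
    have g3 := wt_spec hk big (u := [.b, .c]) (v := [.c, .b]) ⟨rfl, rfl, rfl⟩ w3
    have g1' : (cf (compList l) 1 : ℝ) ≤ K * (wt big t 20 17 : ℕ) := g1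
    have g2' : (cg (compList l) 1 : ℝ) ≤ K * (wt big t 24 18 : ℕ) := g2
    have g3' : (ch (compList l) 0 : ℝ) ≤ K * (wt big t 22 25 : ℕ) := g3
    have q1 : 0 ≤ K * (wt big t 20 17 : ℕ) := mul_nonneg hK (Nat.cast_nonneg _)
    have q2 : 0 ≤ K * (wt big t 24 18 : ℕ) := mul_nonneg hK (Nat.cast_nonneg _)
    have q3 : 0 ≤ K * (wt big t 22 25 : ℕ) := mul_nonneg hK (Nat.cast_nonneg _)
    have e : ((wt big t 20 17 : ℕ) + (wt big t 24 18 : ℕ) + (wt big t 22 25 : ℕ) : ℝ) * K₀ *
        ((N : ℝ) / D) ^ l.length = K * (wt big t 20 17 : ℕ) + K * (wt big t 24 18 : ℕ) +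
        K * (wt big t 22 25 : ℕ) := by rw [hKdef]; ring
    rw [e]
    exact cst_le _ _ (by positivity) (by linarith) (by linarith) (by linarith) x y

end Pool.Agent.H872.PC
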