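import Pool.Agent.H872.PC.Defs
import Pool.Agent.H872.PC.Pis

/-!
# The class of the cubic companion substitutions: small lemmas (helper297 for helper872)
-/

set_option autoImplicit false

namespace Pool.Agent.H872.PC

open Pool.Agent.H812R2.PI Pool.Agent.Q132.PT
open scoped BigOperators

/-- the class of substitutions -/
def C3 (a b : ℕ) (σ : Fin 3 → List (Fin 3)) : Prop :=
  (σ 0).Perm (List.replicate a 0 ++ [1]) ∧ (σ 1).Perm (List.replicate b 0 ++ [2]) ∧ σ 2 = [0]

namespace ClsL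

/-- a permutation of `0^a c` -/
theorem split {l : List (Fin 3)} {a : ℕ} {c : Fin 3}
    (h : l.Perm (List.replicate a 0 ++ [c])) :
    ∃ i i' : ℕ, i + i' = a ∧ l = z i ++ c :: z i' := by
  have hm : c ∈ l := h.mem_iff.2 (by simp)
  obtain ⟨s, t, rfl⟩ := List.append_of_mem hm
  have h1 : (s ++ t).Perm (List.replicate a 0) := by
    have e1 : (s ++ c :: t).Perm (c :: (s ++ t)) := List.perm_middle
    have e2 : (List.replicate a 0 ++ [c]).Perm (c :: List.replicate a 0) :=
      List.perm_append_singleton c _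
    exact (List.perm_cons c).1 ((e1.symm.trans h).trans e2)
  have h2 : ∀ x ∈ s ++ t, x = 0 := fun x hx => List.eq_of_mem_replicate (h1.mem_iff.1 hx)
  have hs : s = List.replicate s.length 0 :=
    List.eq_replicate_of_mem fun x hx => h2 x (List.mem_append_left _ hx)
  have ht : t = List.replicate t.length 0 :=
    List.eq_replicate_of_mem fun x hx => h2 x (List.mem_append_right _ hx)
  refine ⟨s.length, t.length, ?_, ?_⟩
  · have h3 := h1.length_eq
    rw [List.length_append, List.length_replicate] at h3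
    exact h3
  · unfold z
    rw [← hs, ← ht]

/-- the polynomial -/
theorem root (a b : ℝ) (ha : 0 ≤ a) (hb : 0 ≤ b) (θ : ℝ) (hθ : 0 < θ)
    (h : θ ^ 3 < a * θ ^ 2 + b * θ + 1) :
    ∃ lam : ℝ, θ < lam ∧ lam ^ 3 = a * lam ^ 2 + b * lam + 1 := by
  obtain ⟨f, hf⟩ : ∃ f : ℝ → ℝ, f = fun x => x ^ 3 - (a * x ^ 2 + b * x + 1) := ⟨_, rfl⟩
  have hc : Continuous f := by
    rw [hf]
    fun_prop
  obtain ⟨M, hM⟩ : ∃ M : ℝ, M = θ + a + b + 1 := ⟨_, rfl⟩
  have hθM : θ ≤ M := by linarith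
  have h1 : f θ < 0 := by
    rw [hf]
    linarith
  have h2 : 0 ≤ f M := by
    rw [hf]
    have h3 : 1 ≤ M := by linarith
    have h4 : M ^ 2 * (b + 1) ≤ M ^ 2 * (M - a) :=
      mul_le_mul_of_nonneg_left (by linarith) (by positivity)
    have h5 : M * 1 ≤ M * M := mul_le_mul_of_nonneg_left h3 (by linarith)
    have h6 : b * (M * 1) ≤ b * (M * M) := mul_le_mul_of_nonneg_left h5 hb
    have h7 : 1 * 1 ≤ M * M := mul_le_mul h3 h3 (by norm_num) (by linarith)
    have e : M ^ 3 - (a * M ^ 2 + b * M + 1) = M ^ 2 * (M - a) - b * M - 1 := by ring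
    show 0 ≤ M ^ 3 - (a * M ^ 2 + b * M + 1)
    rw [e]
    have e2 : M ^ 2 * (b + 1) = b * (M * M) + M * M := by ring
    linarith
  obtain ⟨lam, hlam, hz⟩ := intermediate_value_Icc hθM hc.continuousOn ⟨h1.le, h2⟩
  refine ⟨lam, lt_of_le_of_ne hlam.1 ?_, ?_⟩
  · rintro rfl
    rw [hz] at h1
    exact lt_irrefl _ h1
  · rw [hf] at hz
    have : lam ^ 3 - (a * lam ^ 2 + b * lam + 1) = 0 := hz
    linarith

end ClsL

theorem C3.shape {a b : ℕ} {σ : Fin 3 → List (Fin 3)} (h : C3 a b σ) :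
    ∃ i i' j j' : ℕ, i + i' = a ∧ j + j' = b ∧ σ = tau i i' j j' := by
  obtain ⟨h0, h1, h2⟩ := h
  obtain ⟨i, i', hi, hs0⟩ := ClsL.split h0
  obtain ⟨j, j', hj, hs1⟩ := ClsL.split h1
  refine ⟨i, i', j, j', hi, hj, ?_⟩
  funext x
  fin_cases x
  · exact hs0
  · exact hs1
  · exact h2

theorem C3.inc_eq {a b : ℕ} {σ : Fin 3 → List (Fin 3)} (h : C3 a b σ) : inc σ = CM a b := by
  obtain ⟨h0, h1, h2⟩ := h
  ext i j
  have e : inc σ i j = ((σ j).count i : ℤ) := rfl
  rw [e]
  fin_cases j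
  · show ((σ 0).count i : ℤ) = CM a b i 0
    rw [h0.count_eq]
    fin_cases i <;> simp [CM, List.count_append, List.count_replicate]
  · show ((σ 1).count i : ℤ) = CM a b i 1
    rw [h1.count_eq]
    fin_cases i <;> simp [CM, List.count_append, List.count_replicate]
  · show ((σ 2).count i : ℤ) = CM a b i 2
    rw [h2]
    fin_cases i <;> simp [CM]

theorem inc_list {d : ℕ} (M : Matrix (Fin d) (Fin d) ℤ) (l : List (Fin d → List (Fin d)))
    (hl : ∀ τ ∈ l, inc τ = M) : inc (compList l) = M ^ l.length :=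
  inc_compList M l hl

/-- the leading eigenvalue of the companion matrix and a positive left eigenvector -/
theorem cm_eig (a b : ℕ) (θ : ℝ) (hθ : 0 < θ)
    (h : θ ^ 3 < a * θ ^ 2 + b * θ + 1) : ∃ (lam : ℝ) (ell : Fin 3 → ℝ), θ < lam ∧ (∀ i, 0 < ell i) ∧
    ∀ j, ∑ i, ell i * (CM a b i j : ℝ) = lam * ell j := by
  have hb0 : (0 : ℝ) ≤ b := Nat.cast_nonneg b
  obtain ⟨lam, h1, h2⟩ := ClsL.root a b (Nat.cast_nonneg a) hb0 θ hθ h
  have hl : 0 < lam := hθ.trans h1
  have h3 : lam * (lam - a) = b + 1 / lam := by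
    field_simp
    linear_combination h2
  have h4 : 0 < lam - a := by
    have h5 : 0 < lam * (lam - a) := by
      rw [h3]
      positivity
    exact (mul_pos_iff_of_pos_left hl).1 h5
  refine ⟨lam, ![1, lam - a, 1 / lam], h1, ?_, ?_⟩
  · intro i
    fin_cases i
    · exact one_pos
    · exact h4
    · exact one_div_pos.2 hl
  · intro j
    rw [Fin.sum_univ_three]
    fin_cases j
    · show (1 : ℝ) * ((a : ℤ) : ℝ) + (lam - a) * ((1 : ℤ) : ℝ) + 1 / lam * ((0 : ℤ) : ℝ) = lam * 1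
      push_cast
      ring
    · show (1 : ℝ) * ((b : ℤ) : ℝ) + (lam - a) * ((0 : ℤ) : ℝ) + 1 / lam * ((1 : ℤ) : ℝ) =
        lam * (lam - a)
      rw [h3]
      push_cast
      ring
    · show (1 : ℝ) * ((1 : ℤ) : ℝ) + (lam - a) * ((0 : ℤ) : ℝ) + 1 / lam * ((0 : ℤ) : ℝ) =
        lam * (1 / lam)
      rw [mul_one_div_cancel hl.ne']
      push_cast
      ring

/-- a positive left eigenvector of a matrix is one of its powers -/
theorem eig_pow {d : ℕ} (M : Matrix (Fin d) (Fin d) ℤ) (lam : ℝ) (ell : Fin d → ℝ)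
    (h : ∀ j, ∑ i, ell i * (M i j : ℝ) = lam * ell j) (n : ℕ) (j : Fin d) :
    ∑ i, ell i * ((M ^ n) i j : ℝ) = lam ^ n * ell j := by
  induction n generalizing j with
  | zero =>
    rw [pow_zero, pow_zero, one_mul, Finset.sum_eq_single j]
    · rw [Matrix.one_apply_eq, Int.cast_one, mul_one]
    · intro i _ hi
      rw [Matrix.one_apply_ne hi, Int.cast_zero, mul_zero]
    · intro hj
      exact absurd (Finset.mem_univ j) hj
  | succ n ih =>
    have h1 : ∀ i, ell i * ((M ^ (n + 1)) i j : ℝ) =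
        ∑ k, ell i * ((M ^ n) i k : ℝ) * (M k j : ℝ) := by
      intro i
      rw [pow_succ, Matrix.mul_apply, Int.cast_sum, Finset.mul_sum]
      refine Finset.sum_congr rfl fun k _ => ?_
      push_cast
      ring
    rw [Finset.sum_congr rfl fun i _ => h1 i, Finset.sum_comm]
    have h2 : ∀ k, ∑ i, ell i * ((M ^ n) i k : ℝ) * (M k j : ℝ) =
        lam ^ n * (ell k * (M k j : ℝ)) := by
      intro k
      rw [← Finset.sum_mul, ih k]
      ring
    rw [Finset.sum_congr rfl fun k _ => h2 k, ← Finset.mul_sum, h j]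
    ring

end Pool.Agent.H872.PC
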