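import Mathlib

/-! Project PC (helper872): two elementary weight inequalities (helper719). -/

set_option autoImplicit false

namespace Pool.Agent.H872.PC

namespace WtL

theorem w0_0 {t : ℝ} (ht : 0 ≤ t) : ((t + 2) * (t + 4) / (t + 3)) ^ 3 < (t + 2) * ((t + 2) *
    (t + 4) / (t + 3)) ^ 2 + (t + 2) * ((t + 2) * (t + 4) / (t + 3)) + 1 := by
  have e : (t + 2) * ((t + 2) * (t + 4) / (t + 3)) ^ 2 + (t + 2) * ((t + 2) * (t + 4) / (t +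
      3)) + 1 - (((t + 2) * (t + 4) / (t + 3)) ^ 3) = (688 + 1612 * t + 1556 * t ^ 2 + 791 *
      t ^ 3 + 223 * t ^ 4 + 33 * t ^ 5 + 2 * t ^ 6) / ((t + 2) ^ 2 * (t + 3) ^ 3 * (t + 4))
      := by
    field_simp
    ring
  rw [← sub_pos, e]
  positivity

theorem w0_1 {t : ℝ} (ht : 0 ≤ t) : 0 ≤ (1 : ℝ) + (1 / (t + 2)) - (1 : ℝ) := by
  have e : (1 : ℝ) + (1 / (t + 2)) - (1 : ℝ) - (0) = (216 + 378 * t + 261 * t ^ 2 + 89 * t ^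
      3 + 15 * t ^ 4 + 1 * t ^ 5) / ((t + 2) ^ 2 * (t + 3) ^ 3 * (t + 4)) := by
    field_simp
    ring
  rw [← sub_nonneg, e]
  positivity

theorem w0_2 {t : ℝ} (ht : 0 ≤ t) : (1 : ℝ) + (1 / (t + 3)) ≤ ((t + 2) * (t + 4) / (t + 3))
    * (1 / (t + 2)) := by
  apply le_of_eq
  field_simp
  try ring

theorem w0_3 {t : ℝ} (ht : 0 ≤ t) : (1 / (t + 2)) ≤ ((t + 2) * (t + 4) / (t + 3)) * ((t + 3)
    / ((t + 2) ^ 2 * (t + 4))) := by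
  apply le_of_eq
  field_simp
  try ring

theorem w0_4 {t : ℝ} (ht : 0 ≤ t) : (1 : ℝ) * (t + 2) + ((t + 3) / ((t + 2) ^ 2 * (t + 4)))
    ≤ ((t + 2) * (t + 4) / (t + 3)) * (1 : ℝ) := by
  have e : ((t + 2) * (t + 4) / (t + 3)) * (1 : ℝ) - ((1 : ℝ) * (t + 2) + ((t + 3) / ((t +
      2) ^ 2 * (t + 4)))) = (207 + 588 * t + 638 * t ^ 2 + 350 * t ^ 3 + 104 * t ^ 4 + 16 *
      t ^ 5 + 1 * t ^ 6) / ((t + 2) ^ 2 * (t + 3) ^ 3 * (t + 4)) := by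
    field_simp
    ring
  rw [← sub_nonneg, e]
  positivity

theorem w0_5 {t : ℝ} (ht : 0 ≤ t) : (1 : ℝ) * (t + 2) + ((t + 3) / ((t + 2) ^ 2 * (t + 4)))
    + (t + 2) * ((1 : ℝ) + (1 / (t + 2)) - (1 : ℝ)) + (1 / (t + 3)) ≤ ((t + 2) * (t + 4) /
    (t + 3)) * ((1 : ℝ) + (1 / (t + 3))) := by
  have e : ((t + 2) * (t + 4) / (t + 3)) * ((1 : ℝ) + (1 / (t + 3))) - ((1 : ℝ) * (t + 2) +
      ((t + 3) / ((t + 2) ^ 2 * (t + 4))) + (t + 2) * ((1 : ℝ) + (1 / (t + 2)) - (1 : ℝ)) +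
      (1 / (t + 3))) = (15 + 236 * t + 386 * t ^ 2 + 262 * t ^ 3 + 89 * t ^ 4 + 15 * t ^ 5 +
      1 * t ^ 6) / ((t + 2) ^ 2 * (t + 3) ^ 3 * (t + 4)) := by
    field_simp
    ring
  rw [← sub_nonneg, e]
  positivity

theorem w0_6 {t : ℝ} (ht : 0 ≤ t) : (1 / (t + 2)) + (1 : ℝ) * ((t + 2) - 1) + ((t + 3) / ((t
    + 2) ^ 2 * (t + 4))) ≤ ((t + 2) * (t + 4) / (t + 3)) * (1 : ℝ) := by
  have e : ((t + 2) * (t + 4) / (t + 3)) * (1 : ℝ) - ((1 / (t + 2)) + (1 : ℝ) * ((t + 2) -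
      1) + ((t + 3) / ((t + 2) ^ 2 * (t + 4)))) = (423 + 1182 * t + 1277 * t ^ 2 + 700 * t ^
      3 + 208 * t ^ 4 + 32 * t ^ 5 + 2 * t ^ 6) / ((t + 2) ^ 2 * (t + 3) ^ 3 * (t + 4)) :=
      by
    field_simp
    ring
  rw [← sub_nonneg, e]
  positivity

theorem w0_7 {t : ℝ} (ht : 0 ≤ t) : (1 / (t + 2)) + (1 : ℝ) * ((t + 2) - 1) + ((t + 3) / ((t
    + 2) ^ 2 * (t + 4))) + ((t + 2) - 1) * ((1 : ℝ) + (1 / (t + 2)) - (1 : ℝ)) + (1 / (t +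
    2)) + (1 / (t + 3)) ≤ ((t + 2) * (t + 4) / (t + 3)) * ((1 : ℝ) + ((t + 3) / ((t + 2) ^ 2
    * (t + 4)))) := by
  have e : ((t + 2) * (t + 4) / (t + 3)) * ((1 : ℝ) + ((t + 3) / ((t + 2) ^ 2 * (t + 4)))) -
      ((1 / (t + 2)) + (1 : ℝ) * ((t + 2) - 1) + ((t + 3) / ((t + 2) ^ 2 * (t + 4))) + ((t +
      2) - 1) * ((1 : ℝ) + (1 / (t + 2)) - (1 : ℝ)) + (1 / (t + 2)) + (1 / (t + 3))) = (63 +
      312 * t + 430 * t ^ 2 + 273 * t ^ 3 + 90 * t ^ 4 + 15 * t ^ 5 + 1 * t ^ 6) / ((t + 2)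
      ^ 2 * (t + 3) ^ 3 * (t + 4)) := by
    field_simp
    ring
  rw [← sub_nonneg, e]
  positivity

theorem w1_0 {t : ℝ} (ht : 0 ≤ t) : (t + 5) ^ 3 < (t + 4) * (t + 5) ^ 2 + ((t + 4) + 1) * (t
    + 5) + 1 := by
  have e : (t + 4) * (t + 5) ^ 2 + ((t + 4) + 1) * (t + 5) + 1 - ((t + 5) ^ 3) = (240 + 168
      * t + 39 * t ^ 2 + 3 * t ^ 3) / (3 * (t + 4) ^ 2 * (t + 5)) := by
    field_simp
    ring
  rw [← sub_pos, e]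
  positivity

theorem w1_1 {t : ℝ} (ht : 0 ≤ t) : 0 < (1 - 2 / (t + 4) ^ 2 - 2 / (3 * (t + 4))) := by
  have e : (1 - 2 / (t + 4) ^ 2 - 2 / (3 * (t + 4))) - (0) = (170 + 144 * t + 37 * t ^ 2 + 3
      * t ^ 3) / (3 * (t + 4) ^ 2 * (t + 5)) := by
    field_simp
    ring
  rw [← sub_pos, e]
  positivity

theorem w1_2 {t : ℝ} (ht : 0 ≤ t) : 0 ≤ (1 : ℝ) + ((t + 6) / ((t + 4) * (t + 5))) - (1 - 2 /
    (t + 4) ^ 2 - 2 / (3 * (t + 4))) := by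
  have e : (1 : ℝ) + ((t + 6) / ((t + 4) * (t + 5))) - (1 - 2 / (t + 4) ^ 2 - 2 / (3 * (t +
      4))) - (0) = (142 + 54 * t + 5 * t ^ 2) / (3 * (t + 4) ^ 2 * (t + 5)) := by
    field_simp
    ring
  rw [← sub_nonneg, e]
  positivity

theorem w1_3 {t : ℝ} (ht : 0 ≤ t) : (1 : ℝ) + (2 / (t + 4)) ≤ (t + 5) * ((t + 6) / ((t + 4)
    * (t + 5))) := by
  apply le_of_eq
  field_simp
  try ring

theorem w1_4 {t : ℝ} (ht : 0 ≤ t) : ((t + 6) / ((t + 4) * (t + 5))) ≤ (t + 5) * (2 / 3 : ℝ)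
    := by
  have e : (t + 5) * (2 / 3 : ℝ) - (((t + 6) / ((t + 4) * (t + 5)))) = (728 + 690 * t + 239
      * t ^ 2 + 36 * t ^ 3 + 2 * t ^ 4) / (3 * (t + 4) ^ 2 * (t + 5)) := by
    field_simp
    ring
  rw [← sub_nonneg, e]
  positivity

theorem w1_5 {t : ℝ} (ht : 0 ≤ t) : (1 : ℝ) + (2 / (t + 4)) + (1 - 2 / (t + 4) ^ 2 - 2 / (3
    * (t + 4))) * (t + 4) + (2 / 3 : ℝ) ≤ (t + 5) * (1 : ℝ) := by
  apply le_of_eq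
  field_simp
  try ring

theorem w1_6 {t : ℝ} (ht : 0 ≤ t) : (1 : ℝ) + (2 / (t + 4)) + (1 - 2 / (t + 4) ^ 2 - 2 / (3
    * (t + 4))) * (t + 4) + (2 / 3 : ℝ) + (t + 4) * ((1 : ℝ) + ((t + 6) / ((t + 4) * (t +
    5))) - (1 - 2 / (t + 4) ^ 2 - 2 / (3 * (t + 4)))) ≤ (t + 5) * ((1 : ℝ) + (2 / (t + 4)))
    := by
  have e : (t + 5) * ((1 : ℝ) + (2 / (t + 4))) - ((1 : ℝ) + (2 / (t + 4)) + (1 - 2 / (t + 4)
      ^ 2 - 2 / (3 * (t + 4))) * (t + 4) + (2 / 3 : ℝ) + (t + 4) * ((1 : ℝ) + ((t + 6) / ((t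
      + 4) * (t + 5))) - (1 - 2 / (t + 4) ^ 2 - 2 / (3 * (t + 4))))) = (32 + 32 * t + 10 * t
      ^ 2 + 1 * t ^ 3) / (3 * (t + 4) ^ 2 * (t + 5)) := by
    field_simp
    ring
  rw [← sub_nonneg, e]
  positivity

theorem w1_7 {t : ℝ} (ht : 0 ≤ t) : (1 - 2 / (t + 4) ^ 2 - 2 / (3 * (t + 4))) * (t + 4) + (2
    / 3 : ℝ) ≤ (t + 5) * (1 - 2 / (t + 4) ^ 2 - 2 / (3 * (t + 4))) := by
  have e : (t + 5) * (1 - 2 / (t + 4) ^ 2 - 2 / (3 * (t + 4))) - ((1 - 2 / (t + 4) ^ 2 - 2 /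
      (3 * (t + 4))) * (t + 4) + (2 / 3 : ℝ)) = (10 + 32 * t + 11 * t ^ 2 + 1 * t ^ 3) / (3
      * (t + 4) ^ 2 * (t + 5)) := by
    field_simp
    ring
  rw [← sub_nonneg, e]
  positivity

theorem w1_8 {t : ℝ} (ht : 0 ≤ t) : (1 - 2 / (t + 4) ^ 2 - 2 / (3 * (t + 4))) * (t + 4) + (2
    / 3 : ℝ) + ((t + 6) / ((t + 4) * (t + 5))) + (2 / (t + 4)) + (t + 4) * ((1 : ℝ) + ((t +
    6) / ((t + 4) * (t + 5))) - (1 - 2 / (t + 4) ^ 2 - 2 / (3 * (t + 4)))) ≤ (t + 5) * ((1 -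
    2 / (t + 4) ^ 2 - 2 / (3 * (t + 4))) + (2 / 3 : ℝ)) := by
  have e : (t + 5) * ((1 - 2 / (t + 4) ^ 2 - 2 / (3 * (t + 4))) + (2 / 3 : ℝ)) - ((1 - 2 /
      (t + 4) ^ 2 - 2 / (3 * (t + 4))) * (t + 4) + (2 / 3 : ℝ) + ((t + 6) / ((t + 4) * (t +
      5))) + (2 / (t + 4)) + (t + 4) * ((1 : ℝ) + ((t + 6) / ((t + 4) * (t + 5))) - (1 - 2 /
      (t + 4) ^ 2 - 2 / (3 * (t + 4))))) = (50 + 310 * t + 170 * t ^ 2 + 32 * t ^ 3 + 2 * t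
      ^ 4) / (3 * (t + 4) ^ 2 * (t + 5)) := by
    field_simp
    ring
  rw [← sub_nonneg, e]
  positivity

end WtL

open WtL in
/-- weights for `b = a` -/
theorem wt0 (a : ℝ) (ha : 2 ≤ a) : ∃ θ f φ g h h0 : ℝ, 0 < θ ∧ θ ^ 3 < a * θ ^ 2 + a * θ + 1 ∧
    0 < f ∧ 0 ≤ φ ∧ 0 < g ∧ 0 < h ∧ 0 < h0 ∧ 0 ≤ f + g - h ∧ f + φ ≤ θ * g ∧ g ≤ θ * h0 ∧
    h * a + h0 ≤ θ * f ∧ h * a + h0 + a * (f + g - h) + φ ≤ θ * (f + φ) ∧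
    g + h * (a - 1) + h0 ≤ θ * h ∧
    g + h * (a - 1) + h0 + (a - 1) * (f + g - h) + g + φ ≤ θ * (h + h0) := by
  obtain ⟨t, ht, rfl⟩ : ∃ t : ℝ, 0 ≤ t ∧ a = t + 2 := ⟨a - 2, by linarith, by ring⟩
  exact ⟨((t + 2) * (t + 4) / (t + 3)), 1, (1 / (t + 3)), (1 / (t + 2)), 1,
    ((t + 3) / ((t + 2) ^ 2 * (t + 4))), by positivity, w0_0 ht, by positivity, by positivity,
    by positivity, by positivity, by positivity, w0_1 ht, w0_2 ht, w0_3 ht, w0_4 ht, w0_5 ht,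
    w0_6 ht, w0_7 ht⟩

open WtL in
/-- weights for `b = a + 1` -/
theorem wt1 (a : ℝ) (ha : 4 ≤ a) : ∃ θ f φ g h h0 : ℝ, 0 < θ ∧
    θ ^ 3 < a * θ ^ 2 + (a + 1) * θ + 1 ∧
    0 < f ∧ 0 ≤ φ ∧ 0 < g ∧ 0 < h ∧ 0 < h0 ∧ 0 ≤ f + g - h ∧ f + φ ≤ θ * g ∧ g ≤ θ * h0 ∧
    f + φ + h * a + h0 ≤ θ * f ∧ f + φ + h * a + h0 + a * (f + g - h) ≤ θ * (f + φ) ∧
    h * a + h0 ≤ θ * h ∧
    h * a + h0 + g + φ + a * (f + g - h) ≤ θ * (h + h0) := by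
  obtain ⟨t, ht, rfl⟩ : ∃ t : ℝ, 0 ≤ t ∧ a = t + 4 := ⟨a - 4, by linarith, by ring⟩
  exact ⟨(t + 5), 1, (2 / (t + 4)), ((t + 6) / ((t + 4) * (t + 5))),
    (1 - 2 / (t + 4) ^ 2 - 2 / (3 * (t + 4))), (2 / 3), by positivity, w1_0 ht, by positivity,
    by positivity, by positivity, w1_1 ht, by positivity, w1_2 ht, w1_3 ht, w1_4 ht, w1_5 ht,
    w1_6 ht, w1_7 ht, w1_8 ht⟩

end Pool.Agent.H872.PC
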