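import Pool.Agent.H872.PC.Steps
import Pool.Agent.H872.PC.Wt
import Pool.Agent.H872.PC.Cls
import Pool.Graph.R_pool_sql_team_seeded_3997aac3.Q132.PT.All
import Pool.Graph.R_seed8.TH100.Pisot.Pow

/-!
From cost bounds of compositions to the conjecture.
-/

set_option autoImplicit false

namespace Pool.Agent.H872.PC
open Pool.Agent.H812R2.PI Pool.Agent.Q132.PT
open scoped BigOperators

theorem cst_cf (S : Fin 3 → List (Fin 3)) : cst S 1 0 = cf S 1 := rfl

theorem cst_cf' (S : Fin 3 → List (Fin 3)) : cst S 0 1 = cf S 1 := by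
  rw [← cst_cf]
  exact dS_symm S _ _ (ab_swap 0 1)

theorem cst_cg (S : Fin 3 → List (Fin 3)) : cst S 2 0 = cg S 1 := rfl

theorem cst_cg' (S : Fin 3 → List (Fin 3)) : cst S 0 2 = cg S 1 := by
  rw [← cst_cg]
  exact dS_symm S _ _ (ab_swap 0 2)

theorem cst_ch (S : Fin 3 → List (Fin 3)) : cst S 1 2 = ch S 0 := rfl

theorem cst_ch' (S : Fin 3 → List (Fin 3)) : cst S 2 1 = ch S 0 := by
  rw [← cst_ch]
  exact dS_symm S _ _ (ab_swap 2 1)

theorem cst_le (S : Fin 3 → List (Fin 3)) (B : ℝ) (hB : 0 ≤ B) (h1 : (cf S 1 : ℝ) ≤ B)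
    (h2 : (cg S 1 : ℝ) ≤ B) (h3 : (ch S 0 : ℝ) ≤ B) (x y : Fin 3) : (cst S x y : ℝ) ≤ B := by
  fin_cases x <;> fin_cases y
  · show (cst S 0 0 : ℝ) ≤ B
    rw [cst_self]; simpa using hB
  · show (cst S 0 1 : ℝ) ≤ B
    rw [cst_cf']; exact h1
  · show (cst S 0 2 : ℝ) ≤ B
    rw [cst_cg']; exact h2
  · show (cst S 1 0 : ℝ) ≤ B
    rw [cst_cf]; exact h1
  · show (cst S 1 1 : ℝ) ≤ B
    rw [cst_self]; simpa using hB
  · show (cst S 1 2 : ℝ) ≤ B
    rw [cst_ch]; exact h3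
  · show (cst S 2 0 : ℝ) ≤ B
    rw [cst_cg]; exact h2
  · show (cst S 2 1 : ℝ) ≤ B
    rw [cst_ch']; exact h3
  · show (cst S 2 2 : ℝ) ≤ B
    rw [cst_self]; simpa using hB

theorem flatten_length {α : Type*} (l : List α) (n : ℕ) :
    ((List.replicate n l).flatten).length = n * l.length := by
  simp

/-- the conjecture from cost bounds of all compositions -/
theorem engine (a b : ℕ) (ha : 1 ≤ a + b) (hb : b ≤ a + 1) (θ : ℝ) (hθ : 0 < θ)
    (h : θ ^ 3 < a * θ ^ 2 + b * θ + 1) (C : ℝ) (Q : (Fin 3 → List (Fin 3)) → Prop)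
    (hcost : ∀ l : List (Fin 3 → List (Fin 3)), (∀ τ ∈ l, C3 a b τ ∧ Q τ) →
      ∀ x y, (cst (compList l) x y : ℝ) ≤ C * θ ^ l.length)
    (l : List (Fin 3 → List (Fin 3))) (hne : l ≠ []) (hl : ∀ τ ∈ l, C3 a b τ ∧ Q τ) :
    PisotMat (inc (compList l)) ∧ SemiConjToral (compList l) := by
  have hinc : inc (compList l) = CM a b ^ l.length := inc_list _ l fun τ hτ => (hl τ hτ).1.inc_eq
  have hlen : 1 ≤ l.length := by
    rcases l with _ | ⟨x, l⟩
    · exact absurd rfl hne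
    · simp
  have hnn : ∀ i j, 0 ≤ CM a b i j := by
    intro i j
    fin_cases i <;> fin_cases j <;> simp [CM]
  have hM : PisotMat (inc (compList l)) := by
    rw [hinc]
    exact Pool.Agent.TH100.Pisot.pisotMat_pow (CM a b) hnn (cm_pisot a b ha hb) _ hlen
  refine ⟨hM, ?_⟩
  obtain ⟨P⟩ := Pool.Agent.Q132.PC.exists_PD' (inc (compList l))
    (fun i j => by unfold inc; positivity) hM
  obtain ⟨lam, ell, hlam, hpos, heig⟩ := cm_eig a b θ hθ h
  have h1 : lam ^ l.length = P.lam := by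
    refine lam_unique P _ ell hpos fun j => ?_
    rw [hinc]
    exact eig_pow (CM a b) lam ell heig l.length j
  have hdet : IsUnit (inc (compList l)).det := by
    rcases hM.2.1 with h | h <;> rw [h]
    · exact isUnit_one
    · exact isUnit_one.neg
  have hΘ : θ ^ l.length < P.lam := by
    rw [← h1]
    exact pow_lt_pow_left₀ hlam hθ.le (by omega)
  refine semi_of_small P hdet fun ε hε => ?_
  obtain ⟨n₀, hn₀⟩ := small_of_geom (C := C) P.lam_gt (pow_pos hθ _).le hΘ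
    (fun n => C * (θ ^ l.length) ^ n) (fun n => le_rfl) ε hε
  refine ⟨n₀, fun n hn x y => le_trans ?_ (hn₀ n hn)⟩
  rw [← Pool.Agent.Y316.Pisot.compList_flatten]
  refine (hcost _ (fun τ hτ => hl τ (mem_flatten_replicate hτ)) x y).trans (le_of_eq ?_)
  rw [flatten_length, mul_comm n, pow_mul]

theorem dS_le_length (S : Fin 3 → List (Fin 3)) (u v : List (Fin 3)) :
    dS S u v ≤ (ext S u).length := by
  unfold dS dif
  refine (Finset.card_le_card Finset.sdiff_subset).trans ?_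
  rw [card_E]

theorem ext_id (u : List (Fin 3)) : ext (compList ([] : List (Fin 3 → List (Fin 3)))) u = u := by
  induction u with
  | nil => simp [ext]
  | cons x u ih => rw [ext_cons, ih]; simp [compList]

theorem base_f (k : ℕ) : cf (compList []) k ≤ k + 1 := by
  refine (dS_le_length _ _ _).trans ?_
  rw [ext_id]
  simp [z]

theorem base_g (k : ℕ) : cg (compList []) k ≤ k + 1 := by
  refine (dS_le_length _ _ _).trans ?_
  rw [ext_id]
  simp [z]

theorem base_h (k : ℕ) : ch (compList []) k ≤ k + 2 := by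
  refine (dS_le_length _ _ _).trans ?_
  rw [ext_id]
  simp [z]

theorem base_Bd (f φ g h h0 : ℝ) (hf : 0 < f) (hφ : 0 ≤ φ) (hg : 0 < g) (hh : 0 < h)
    (hh0 : 0 < h0) : Bd (compList []) (2 / f + 2 / g + 1 / h + 2 / h0) f φ g h h0 := by
  have p1 : 0 < 2 / f := by positivity
  have p2 : 0 < 2 / g := by positivity
  have p3 : 0 < 1 / h := by positivity
  have p4 : 0 < 2 / h0 := by positivity
  refine ⟨fun k => ?_, fun k => ?_, fun k => ?_⟩
  · have h1 := castle (base_f (k + 1))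
    push_cast at h1
    have hk : (0 : ℝ) ≤ k := Nat.cast_nonneg _
    have h2 : (k : ℝ) + 1 + 1 ≤ (2 / f) * (f * (k + 1)) := by
      rw [← mul_assoc, div_mul_cancel₀ _ hf.ne']; linarith
    have h3 : (2 / f) * (f * (k + 1)) ≤ (2 / f + 2 / g + 1 / h + 2 / h0) * (f * (k + 1) + φ) := by
      refine mul_le_mul (by linarith) (by linarith) (by positivity) (by positivity)
    linarith
  · cases k with
    | zero => rw [cg_zero]; simp
    | succ k =>
      have h1 := castle (base_g (k + 1))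
      push_cast at h1 ⊢
      have hk : (0 : ℝ) ≤ k := Nat.cast_nonneg _
      have h2 : (k : ℝ) + 1 + 1 ≤ (2 / g) * (g * (k + 1)) := by
        rw [← mul_assoc, div_mul_cancel₀ _ hg.ne']; linarith
      have h3 : (2 / g) * (g * (k + 1)) ≤ (2 / f + 2 / g + 1 / h + 2 / h0) * (g * (k + 1)) :=
        mul_le_mul_of_nonneg_right (by linarith) (by positivity)
      linarith
  · have h1 := castle (base_h k)
    push_cast at h1
    have hk : (0 : ℝ) ≤ k := Nat.cast_nonneg _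
    have h2 : (k : ℝ) + 2 ≤ (1 / h) * (h * k) + (2 / h0) * h0 := by
      rw [← mul_assoc, div_mul_cancel₀ _ hh.ne', div_mul_cancel₀ _ hh0.ne']; linarith
    have h3 : (1 / h) * (h * k) ≤ (2 / f + 2 / g + 1 / h + 2 / h0) * (h * k) :=
      mul_le_mul_of_nonneg_right (by linarith) (by positivity)
    have h4 : (2 / h0) * h0 ≤ (2 / f + 2 / g + 1 / h + 2 / h0) * h0 :=
      mul_le_mul_of_nonneg_right (by linarith) hh0.le
    linarith

theorem Bd_cst {S : Fin 3 → List (Fin 3)} {K f φ g h h0 : ℝ} (B : Bd S K f φ g h h0)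
    (hK : 0 ≤ K) (hf : 0 < f) (hφ : 0 ≤ φ) (hg : 0 < g) (hh0 : 0 < h0) (x y : Fin 3) :
    (cst S x y : ℝ) ≤ (f + φ + g + h0) * K := by
  have h1 := B.F 0
  have h2 := B.G 1
  have h3 := B.H 0
  push_cast at h1 h2 h3
  have q1 := mul_nonneg hK hf.le
  have q2 := mul_nonneg hK hφ
  have q3 := mul_nonneg hK hg.le
  have q4 := mul_nonneg hK hh0.le
  refine cst_le S _ (by positivity) ?_ ?_ ?_ x y
  · nlinarith
  · nlinarith
  · nlinarith

/-- `b = a ≥ 2` -/
theorem main0 (a : ℕ) (ha : 2 ≤ a) (l : List (Fin 3 → List (Fin 3))) (hne : l ≠ [])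
    (hl : ∀ τ ∈ l, C3 a a τ) : PisotMat (inc (compList l)) ∧ SemiConjToral (compList l) := by
  obtain ⟨θ, f, φ, g, h, h0, hθ, hroot, hf, hφ, hg, hh, hh0, hu, c1, c2, c3, c4, c5, c6⟩ :=
    wt0 (a : ℝ) (by exact_mod_cast ha)
  obtain ⟨A, rfl⟩ : ∃ A, a = A + 1 := ⟨a - 1, by omega⟩
  have C : Cd0 ((A + 1 : ℕ) : ℝ) θ f φ g h h0 :=
    ⟨hθ, hf, hφ, hg, hh, hh0, hu, c1, c2, c3, c4, c5, c6⟩
  obtain ⟨K₀, hK₀⟩ : ∃ K₀ : ℝ, K₀ = 2 / f + 2 / g + 1 / h + 2 / h0 := ⟨_, rfl⟩
  have hKp : 0 ≤ K₀ := by rw [hK₀]; positivity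
  have key : ∀ l : List (Fin 3 → List (Fin 3)), (∀ τ ∈ l, C3 (A + 1) (A + 1) τ ∧ True) →
      Bd (compList l) (K₀ * θ ^ l.length) f φ g h h0 := by
    intro l
    induction l using List.reverseRecOn with
    | nil =>
      intro _
      rw [List.length_nil, pow_zero, mul_one, hK₀]
      exact base_Bd f φ g h h0 hf hφ hg hh hh0
    | append_singleton l τ ih =>
      intro hl
      obtain ⟨hτ, -⟩ := hl τ (by simp)
      have ih' := ih fun τ' h => hl τ' (List.mem_append_left _ h)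
      obtain ⟨i, i', j, j', hi, hj, rfl⟩ := hτ.shape
      rw [compList_snoc, List.length_append, List.length_singleton, pow_succ]
      have := step0 ih' (mul_nonneg hKp (pow_pos hθ _).le) A C i i' j j' hi hj
      have e : K₀ * (θ ^ l.length * θ) = θ * (K₀ * θ ^ l.length) := by ring
      rw [e]
      exact this
  refine engine (A + 1) (A + 1) (by omega) (by omega) θ hθ hroot ((f + φ + g + h0) * K₀)
    (fun _ => True) (fun l hl x y => ?_) l hne fun τ hτ => ⟨hl τ hτ, trivial⟩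
  have := Bd_cst (key l hl) (mul_nonneg hKp (pow_pos hθ _).le) hf hφ hg hh0 x y
  rw [mul_assoc]
  exact this

/-- `b = a + 1 ≥ 5` -/
theorem main1 (a : ℕ) (ha : 4 ≤ a) (l : List (Fin 3 → List (Fin 3))) (hne : l ≠ [])
    (hl : ∀ τ ∈ l, C3 a (a + 1) τ) :
    PisotMat (inc (compList l)) ∧ SemiConjToral (compList l) := by
  obtain ⟨θ, f, φ, g, h, h0, hθ, hroot, hf, hφ, hg, hh, hh0, hu, c1, c2, c3, c4, c5, c6⟩ :=
    wt1 (a : ℝ) (by exact_mod_cast ha)
  have C : Cd1 (a : ℝ) θ f φ g h h0 :=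
    ⟨hθ, hf, hφ, hg, hh, hh0, hu, c1, c2, c3, c4, c5, c6⟩
  obtain ⟨K₀, hK₀⟩ : ∃ K₀ : ℝ, K₀ = 2 / f + 2 / g + 1 / h + 2 / h0 := ⟨_, rfl⟩
  have hKp : 0 ≤ K₀ := by rw [hK₀]; positivity
  have key : ∀ l : List (Fin 3 → List (Fin 3)), (∀ τ ∈ l, C3 a (a + 1) τ ∧ True) →
      Bd (compList l) (K₀ * θ ^ l.length) f φ g h h0 := by
    intro l
    induction l using List.reverseRecOn with
    | nil =>
      intro _
      rw [List.length_nil, pow_zero, mul_one, hK₀]
      exact base_Bd f φ g h h0 hf hφ hg hh hh0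
    | append_singleton l τ ih =>
      intro hl
      obtain ⟨hτ, -⟩ := hl τ (by simp)
      have ih' := ih fun τ' h => hl τ' (List.mem_append_left _ h)
      obtain ⟨i, i', j, j', hi, hj, rfl⟩ := hτ.shape
      rw [compList_snoc, List.length_append, List.length_singleton, pow_succ]
      have := step1 ih' (mul_nonneg hKp (pow_pos hθ _).le) a C i i' j j' hi hj
      have e : K₀ * (θ ^ l.length * θ) = θ * (K₀ * θ ^ l.length) := by ring
      rw [e]
      exact this
  refine engine a (a + 1) (by omega) (by omega) θ hθ (by push_cast; exact hroot)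
    ((f + φ + g + h0) * K₀)
    (fun _ => True) (fun l hl x y => ?_) l hne fun τ hτ => ⟨hl τ hτ, trivial⟩
  have := Bd_cst (key l hl) (mul_nonneg hKp (pow_pos hθ _).le) hf hφ hg hh0 x y
  rw [mul_assoc]
  exact this

end Pool.Agent.H872.PC
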