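import Pool.Agent.H872.PC.DE
import Pool.Agent.H872.PC.Engine

/-!
Balanced pairs for compositions: correctness of the finite certificate.
-/

set_option autoImplicit false

namespace Pool.Agent.H872.PC
open Pool.Agent.H812R2.PI Pool.Agent.Q132.PT
open scoped BigOperators

/-- the cost of a pair of words -/
def cs (S : Fin 3 → List (Fin 3)) (u v : List L3) : ℕ := dS S (u.map toF) (v.map toF)

/-- balanced -/
def Bal (u v : List L3) : Prop := c0 u = c0 v ∧ c1 u = c1 v ∧ u.length = v.length

theorem ln_eq (u : List L3) : ln u = u.length := by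
  induction u with
  | nil => rfl
  | cons x u ih => rw [ln, ih, List.length_cons]

theorem c0_append (u v : List L3) : c0 (u ++ v) = c0 u + c0 v := by
  induction u with
  | nil => simp [c0]
  | cons x u ih => rw [List.cons_append, c0, ih, c0]; ring

theorem c1_append (u v : List L3) : c1 (u ++ v) = c1 u + c1 v := by
  induction u with
  | nil => simp [c1]
  | cons x u ih => rw [List.cons_append, c1, ih, c1]; ring

theorem ab_toF (u : List L3) : ab (u.map toF) =
    fun i => if i = 0 then (c0 u : ℤ) else if i = 1 then (c1 u : ℤ) else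
      (u.length : ℤ) - c0 u - c1 u := by
  induction u with
  | nil => funext i; simp [ab_nil, c0, c1]
  | cons x u ih =>
    rw [List.map_cons, ab_cons, ih]
    funext i
    cases x <;> fin_cases i <;> simp [ev, toF, c0, c1, i0, i1] <;> ring

theorem Bal.ab {u v : List L3} (h : Bal u v) : ab (u.map toF) = ab (v.map toF) := by
  rw [ab_toF, ab_toF, h.1, h.2.1, h.2.2]

theorem Bal.symm {u v : List L3} (h : Bal u v) : Bal v u := ⟨h.1.symm, h.2.1.symm, h.2.2.symm⟩

theorem cs_symm (S : Fin 3 → List (Fin 3)) {u v : List L3} (h : Bal u v) : cs S u v = cs S v u :=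
  dS_symm S _ _ h.ab

theorem enc_append (u : List L3) (x : L3) : enc (u ++ [x]) = 4 * enc u + dg x := by
  unfold enc
  rw [List.foldl_append]
  rfl

/-- all entries satisfy a property -/
def Tr.All (p : ℕ → ℕ → ℕ → Prop) : Tr → Prop
  | .leaf => True
  | .node l a b w r => p a b w ∧ l.All p ∧ r.All p

theorem Tr.all_spec (p : ℕ → ℕ → ℕ → Bool) (t : Tr) (h : t.all p = true) :
    t.All (fun a b w => p a b w = true) := by
  induction t with
  | leaf => trivial
  | node l a b w r ihl ihr =>
    rw [Tr.all, Bool.and_eq_true, Bool.and_eq_true] at h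
    exact ⟨h.1, ihl h.2.1, ihr h.2.2⟩

theorem Tr.All.mono {p q : ℕ → ℕ → ℕ → Prop} {t : Tr} (h : t.All p)
    (hpq : ∀ a b w, p a b w → q a b w) : t.All q := by
  induction t with
  | leaf => trivial
  | node l a b w r ihl ihr => exact ⟨hpq _ _ _ h.1, ihl h.2.1, ihr h.2.2⟩

theorem Tr.All.and {p q : ℕ → ℕ → ℕ → Prop} {t : Tr} (h : t.All p) (h' : t.All q) :
    t.All (fun a b w => p a b w ∧ q a b w) := by
  induction t with
  | leaf => trivial
  | node l a b w r ihl ihr => exact ⟨⟨h.1, h'.1⟩, ihl h.2.1 h'.2.1, ihr h.2.2 h'.2.2⟩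

theorem blt_false {x y : ℕ} (h : Nat.blt x y = false) : y ≤ x := by
  by_contra hc
  have h1 := Nat.ble_eq_true_of_le (show x + 1 ≤ y by omega)
  rw [Nat.blt] at h
  rw [h1] at h
  cases h

theorem Tr.find_spec {p : ℕ → ℕ → ℕ → Prop} {t : Tr} (h : t.All p) (big x y : ℕ)
    (hb : t.find big x y < big) : p x y (t.find big x y) := by
  induction t with
  | leaf => exact absurd hb (lt_irrefl _)
  | node l a b w r ihl ihr =>
    cases h1 : Nat.blt x a
    · cases h2 : Nat.blt a x
      · cases h3 : Nat.blt y b
        · cases h4 : Nat.blt b y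
          · simp only [Tr.find, h1, h2, h3, h4] at hb ⊢
            have e1 : x = a := le_antisymm (blt_false h2) (blt_false h1)
            have e2 : y = b := le_antisymm (blt_false h4) (blt_false h3)
            rw [e1, e2]
            exact h.1
          · simp only [Tr.find, h1, h2, h3, h4] at hb ⊢
            exact ihr h.2.2 hb
        · simp only [Tr.find, h1, h2, h3] at hb ⊢
          exact ihl h.2.1 hb
      · simp only [Tr.find, h1, h2] at hb ⊢
        exact ihr h.2.2 hb
    · simp only [Tr.find, h1] at hb ⊢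
      exact ihl h.2.1 hb

/-- the entries bound the costs -/
def OkT (S : Fin 3 → List (Fin 3)) (K : ℝ) (t : Tr) : Prop :=
  t.All fun a b w => (cs S (dec a) (dec b) : ℝ) ≤ K * w

theorem wt_spec {S : Fin 3 → List (Fin 3)} {K : ℝ} {t : Tr} (h : OkT S K t) (big : ℕ)
    {u v : List L3} (hbal : Bal u v) (hb : wt big t (enc u) (enc v) < big) :
    (cs S u v : ℝ) ≤ K * (wt big t (enc u) (enc v) : ℕ) := by
  unfold wt at hb ⊢
  cases h1 : Nat.beq (enc u) (enc v)
  · cases h2 : Nat.blt (enc u) (enc v)
    · simp only [h1, h2] at hb ⊢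
      have := Tr.find_spec h big _ _ hb
      simp only [dec_enc] at this
      rw [cs_symm S hbal]
      exact this
    · simp only [h1, h2] at hb ⊢
      have := Tr.find_spec h big _ _ hb
      simp only [dec_enc] at this
      exact this
  · simp only [h1] at hb ⊢
    have h2 : enc u = enc v := Nat.eq_of_beq_eq_true h1
    have h3 : u = v := by rw [← dec_enc u, ← dec_enc v, h2]
    subst h3
    have : cs S u u = 0 := dS_self S _
    rw [this]
    simp

theorem cs_append (S : Fin 3 → List (Fin 3)) (pu pv u v : List L3) (h : Bal pu pv) :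
    cs S (pu ++ u) (pv ++ v) ≤ cs S pu pv + cs S u v := by
  unfold cs
  rw [List.map_append, List.map_append]
  refine (dS_tri S _ (pv.map toF ++ u.map toF) _).trans ?_
  exact Nat.add_le_add (dS_suffix S _ _ _ h.ab) (dS_prefix S _ _ _)

theorem Bal.rest {pu pv u v : List L3} (h : Bal (pu ++ u) (pv ++ v)) (hp : Bal pu pv) :
    Bal u v := by
  obtain ⟨h1, h2, h3⟩ := h
  obtain ⟨p1, p2, p3⟩ := hp
  rw [c0_append, c0_append] at h1
  rw [c1_append, c1_append] at h2
  rw [List.length_append, List.length_append] at h3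
  exact ⟨by omega, by omega, by omega⟩

theorem scan_spec {S : Fin 3 → List (Fin 3)} {K : ℝ} {t : Tr} (h : OkT S K t)
    (big : ℕ) (u v pu pv : List L3) (hlen : pu.length = pv.length)
    (hbal : Bal (pu ++ u) (pv ++ v))
    (hb : scan big t u v (enc pu) (enc pv) (c0 pu) (c1 pu) (c0 pv) (c1 pv) < big) :
    (cs S (pu ++ u) (pv ++ v) : ℝ) ≤
      K * (scan big t u v (enc pu) (enc pv) (c0 pu) (c1 pu) (c0 pv) (c1 pv) : ℕ) := by
  have hstep : ∀ (p : List L3) (x : L3), 4 * enc p + dg x = enc (p ++ [x]) ∧
      c0 p + i0 x = c0 (p ++ [x]) ∧ c1 p + i1 x = c1 (p ++ [x]) := by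
    intro p x
    refine ⟨(enc_append p x).symm, ?_, ?_⟩
    · rw [c0_append]; simp [c0]
    · rw [c1_append]; simp [c1]
  have hone : ∀ x : L3, 4 + dg x = enc [x] ∧ i0 x = c0 [x] ∧ i1 x = c1 [x] := by
    intro x
    cases x <;> exact ⟨rfl, rfl, rfl⟩
  induction u generalizing v pu pv with
  | nil =>
    cases v with
    | nil =>
      rw [List.append_nil, List.append_nil] at hbal ⊢
      rw [scan] at hb ⊢
      exact wt_spec h big hbal hb
    | cons y v =>
      rw [scan] at hb
      exact absurd hb (lt_irrefl _)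
  | cons x u ih =>
    cases v with
    | nil =>
      rw [scan] at hb
      exact absurd hb (lt_irrefl _)
    | cons y v =>
      have e1 : pu ++ x :: u = (pu ++ [x]) ++ u := by simp
      have e2 : pv ++ y :: v = (pv ++ [y]) ++ v := by simp
      have hgo : Bal ((pu ++ [x]) ++ u) ((pv ++ [y]) ++ v) := by rw [← e1, ← e2]; exact hbal
      have hlen' : (pu ++ [x]).length = (pv ++ [y]).length := by
        rw [List.length_append, List.length_append, hlen]; rfl
      cases h1 : Nat.beq (c0 pu) (c0 pv)
      · simp only [scan, h1] at hb ⊢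
        rw [(hstep pu x).1, (hstep pu x).2.1, (hstep pu x).2.2,
          (hstep pv y).1, (hstep pv y).2.1, (hstep pv y).2.2] at hb ⊢
        have := ih v (pu ++ [x]) (pv ++ [y]) hlen' hgo hb
        rw [e1, e2]
        exact this
      · cases h2 : Nat.beq (c1 pu) (c1 pv)
        · simp only [scan, h1, h2] at hb ⊢
          rw [(hstep pu x).1, (hstep pu x).2.1, (hstep pu x).2.2,
            (hstep pv y).1, (hstep pv y).2.1, (hstep pv y).2.2] at hb ⊢
          have := ih v (pu ++ [x]) (pv ++ [y]) hlen' hgo hb
          rw [e1, e2]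
          exact this
        · simp only [scan, h1, h2] at hb ⊢
          have h3 : c0 pu = c0 pv := Nat.eq_of_beq_eq_true h1
          have h4 : c1 pu = c1 pv := Nat.eq_of_beq_eq_true h2
          have hp : Bal pu pv := ⟨h3, h4, hlen⟩
          have hr := hbal.rest hp
          rw [(hone x).1, (hone x).2.1, (hone x).2.2, (hone y).1, (hone y).2.1, (hone y).2.2] at hb ⊢
          have hb1 : wt big t (enc pu) (enc pv) < big := by omega
          have hb2 : scan big t u v (enc [x]) (enc [y]) (c0 [x]) (c1 [x]) (c0 [y]) (c1 [y]) < big := by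
            omega
          have h5 := ih v [x] [y] rfl hr hb2
          have h6 := wt_spec h big hp hb1
          have h7 := castle (cs_append S pu pv (x :: u) (y :: v) hp)
          push_cast at h7 ⊢
          have h8 : ([x] ++ u) = x :: u := rfl
          have h9 : ([y] ++ v) = y :: v := rfl
          rw [h8, h9] at h5
          rw [mul_add]
          linarith

end Pool.Agent.H872.PC
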