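import Pool.Agent.H872.PC.Defs

/-!
Basic moves.
-/

set_option autoImplicit false

namespace Pool.Agent.H872.PC
open Pool.Agent.H812R2.PI Pool.Agent.Q132.PT
open scoped BigOperators

theorem ab_perm {d : ℕ} {u v : List (Fin d)} (h : u.Perm v) : ab u = ab v := by
  funext i
  unfold ab
  rw [h.count_eq]

theorem edges_nodup' {d : ℕ} (z : Fin d → ℤ) (w : List (Fin d)) : (edges z w).Nodup := by
  have key : ∀ (w : List (Fin d)) (z : Fin d → ℤ) (e : (Fin d → ℤ) × Fin d), e ∈ edges z w →
      ∑ i, z i ≤ ∑ i, e.1 i := by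
    intro w
    induction w with
    | nil => intro z e he; simp [edges] at he
    | cons a w ih =>
      intro z e he
      rw [edges, List.mem_cons] at he
      rcases he with rfl | he
      · exact le_refl _
      · have h := ih _ _ he
        have h2 : ∑ i, (z + ev a) i = ∑ i, z i + 1 := by
          simp only [Pi.add_apply, Finset.sum_add_distrib, ev]
          simp
        omega
  induction w generalizing z with
  | nil => simp [edges]
  | cons a w ih =>
    rw [edges, List.nodup_cons]
    refine ⟨fun h => ?_, ih _⟩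
    have h1 := key _ _ _ h
    have h2 : ∑ i, (z + ev a) i = ∑ i, z i + 1 := by
      simp only [Pi.add_apply, Finset.sum_add_distrib, ev]
      simp
    simp only at h1
    omega

theorem card_E {d : ℕ} (u : List (Fin d)) : (E u).card = u.length := by
  unfold E
  rw [List.toFinset_card_of_nodup (edges_nodup' _ _), length_edges]

theorem dif_symm {d : ℕ} (u v : List (Fin d)) (h : u.length = v.length) : dif u v = dif v u := by
  unfold dif
  exact Finset.card_sdiff_comm (by rw [card_E, card_E, h])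

theorem length_of_ab {d : ℕ} {u v : List (Fin d)} (h : ab u = ab v) : u.length = v.length := by
  have h1 := ab_sum u
  rw [h, ab_sum v] at h1
  exact_mod_cast h1.symm

theorem dS_symm {d : ℕ} (S : Fin d → List (Fin d)) (u v : List (Fin d)) (h : ab u = ab v) :
    dS S u v = dS S v u := by
  unfold dS
  refine dif_symm _ _ (length_of_ab ?_)
  rw [ab_ext, ab_ext, h]

theorem cf_zero (S : Fin 3 → List (Fin 3)) : cf S 0 = 0 := dS_self S _

theorem cg_zero (S : Fin 3 → List (Fin 3)) : cg S 0 = 0 := dS_self S _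

/-- contexts -/
theorem dS_ctx (S : Fin 3 → List (Fin 3)) (p u v s : List (Fin 3)) (h : u.Perm v) :
    dS S (p ++ (u ++ s)) (p ++ (v ++ s)) ≤ dS S u v :=
  (dS_prefix S p _ _).trans (dS_suffix S u v s (ab_perm h))

theorem perm1 (x : Fin 3) (k : ℕ) : (x :: z k).Perm (z k ++ [x]) :=
  (List.perm_append_singleton x (z k)).symm

theorem perm2 (k : ℕ) : (1 :: (z k ++ [2])).Perm (2 :: (z k ++ [1])) := by
  have h1 : (1 :: (z k ++ [2])).Perm (1 :: 2 :: z k) :=
    (List.perm_append_singleton 2 (z k)).cons 1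
  have h2 : (2 :: (z k ++ [1])).Perm (2 :: 1 :: z k) :=
    (List.perm_append_singleton 1 (z k)).cons 2
  exact h1.trans ((List.Perm.swap 2 1 (z k)).trans h2.symm)

/-- move 1 to the right -/
theorem mr1 (S : Fin 3 → List (Fin 3)) (p s : List (Fin 3)) (k : ℕ) :
    dS S (p ++ 1 :: (z k ++ s)) (p ++ (z k ++ 1 :: s)) ≤ cf S k := by
  have h := dS_ctx S p (1 :: z k) (z k ++ [1]) s (perm1 1 k)
  simpa [cf] using h

/-- move 1 to the left -/
theorem ml1 (S : Fin 3 → List (Fin 3)) (p s : List (Fin 3)) (k : ℕ) :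
    dS S (p ++ (z k ++ 1 :: s)) (p ++ 1 :: (z k ++ s)) ≤ cf S k := by
  rw [dS_symm]
  · exact mr1 S p s k
  · refine ab_perm (List.Perm.append_left p ?_)
    simp

/-- move 2 to the right -/
theorem mr2 (S : Fin 3 → List (Fin 3)) (p s : List (Fin 3)) (k : ℕ) :
    dS S (p ++ 2 :: (z k ++ s)) (p ++ (z k ++ 2 :: s)) ≤ cg S k := by
  have h := dS_ctx S p (2 :: z k) (z k ++ [2]) s (perm1 2 k)
  simpa [cg] using h

/-- exchange 2 and 1 -/
theorem ex21 (S : Fin 3 → List (Fin 3)) (p s : List (Fin 3)) (k : ℕ) :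
    dS S (p ++ 2 :: (z k ++ 1 :: s)) (p ++ 1 :: (z k ++ 2 :: s)) ≤ ch S k := by
  have h := dS_ctx S p (2 :: (z k ++ [1])) (1 :: (z k ++ [2])) s (perm2 k).symm
  rw [dS_symm S (2 :: (z k ++ [1])) _ (ab_perm (perm2 k).symm)] at h
  simpa [ch] using h

/-- a repeated step -/
theorem chain (S : Fin 3 → List (Fin 3)) (a X : ℕ) (B : List (Fin 3))
    (h : dS S (B ++ (z a ++ [1])) ((1 :: z a) ++ B) ≤ X) (n : ℕ) :
    dS S (B ++ W a n) (W' a n ++ B) ≤ n * X := by
  have hp : (B ++ (z a ++ [1])).Perm ((1 :: z a) ++ B) :=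
    (List.Perm.append_left B (perm1 1 a).symm).trans List.perm_append_comm
  induction n with
  | zero => simp [W, W', dS_self]
  | succ n ih =>
    have h1 : B ++ W a (n + 1) = (B ++ (z a ++ [1])) ++ W a n := by
      simp [W, List.replicate_succ]
    have h2 : W' a (n + 1) ++ B = (1 :: z a) ++ (W' a n ++ B) := by
      simp [W', List.replicate_succ]
    rw [h1, h2]
    refine (dS_tri S _ (((1 :: z a) ++ B) ++ W a n) _).trans ?_
    have h3 : dS S ((B ++ (z a ++ [1])) ++ W a n) (((1 :: z a) ++ B) ++ W a n) ≤ X :=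
      (dS_suffix S _ _ _ (ab_perm hp)).trans h
    have h4 : dS S (((1 :: z a) ++ B) ++ W a n) ((1 :: z a) ++ (W' a n ++ B)) ≤ n * X := by
      rw [List.append_assoc]
      exact (dS_prefix S _ _ _).trans ih
    calc _ ≤ X + n * X := Nat.add_le_add h3 h4
      _ = (n + 1) * X := by ring

theorem W_W' (a n : ℕ) : 1 :: W a n = W' a n ++ [1] := by
  induction n with
  | zero => simp [W, W']
  | succ n ih =>
    have h1 : W a (n + 1) = (z a ++ [1]) ++ W a n := by simp [W, List.replicate_succ]
    have h2 : W' a (n + 1) = (1 :: z a) ++ W' a n := by simp [W', List.replicate_succ]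
    rw [h1, h2, List.append_assoc, List.append_assoc, ← ih]
    simp

theorem ext_z1 (i i' j j' n : ℕ) :
    ext (tau i i' j j') (z (n + 1)) = z i ++ 1 :: (W (i + i') n ++ z i') := by
  induction n with
  | zero => simp [ext, z, W, tau]
  | succ n ih =>
    have h1 : z (n + 1 + 1) = 0 :: z (n + 1) := by simp [z, List.replicate_succ]
    have h2 : W (i + i') (n + 1) = (z (i + i') ++ [1]) ++ W (i + i') n := by
      simp [W, List.replicate_succ]
    have h3 : z (i + i') = z i' ++ z i := by
      unfold z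
      rw [← List.replicate_add, add_comm]
    rw [h1, ext_cons, ih, h2, h3]
    simp [tau]

/-- the word of a power of the image of 0 -/
theorem ext_z (i i' j j' n : ℕ) :
    ext (tau i i' j j') (z (n + 1)) = z i ++ 1 :: (W (i + i') n ++ z i') ∧
    ext (tau i i' j j') (z (n + 1)) = z i ++ (W' (i + i') n ++ 1 :: z i') := by
  refine ⟨ext_z1 i i' j j' n, ?_⟩
  rw [ext_z1]
  have h := W_W' (i + i') n
  congr 1
  calc 1 :: (W (i + i') n ++ z i') = (1 :: W (i + i') n) ++ z i' := by simp
    _ = (W' (i + i') n ++ [1]) ++ z i' := by rw [h]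
    _ = _ := by simp

theorem dS_comp (S T : Fin 3 → List (Fin 3)) (u v : List (Fin 3)) :
    dS (comp S T) u v = dS S (ext T u) (ext T v) := by
  unfold dS
  rw [ext_comp, ext_comp]

theorem z_succ (k : ℕ) : z (k + 1) = 0 :: z k := by simp [z, List.replicate_succ]

theorem z_succ' (k : ℕ) : z (k + 1) = z k ++ [0] := by simp [z, List.replicate_succ']

theorem z_one_r (k : ℕ) : z k ++ z 1 = 0 :: z k := by
  rw [← z_succ]; unfold z; rw [← List.replicate_add]

theorem z_one_l (k : ℕ) : z 1 ++ z k = z k ++ [0] := by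
  rw [← z_succ']; unfold z; rw [← List.replicate_add, add_comm]

/-- one zero over a block -/
theorem g_bound (S : Fin 3 → List (Fin 3)) (i i' j j' k : ℕ) :
    cg (comp S (tau i i' j j')) k ≤ k * cf S 1 := by
  have h2 : ∀ w, ext (tau i i' j j') (2 :: w) = 0 :: ext (tau i i' j j') w := by
    intro w
    rw [ext_cons]
    simp [tau]
  have h22 : ∀ w, ext (tau i i' j j') (w ++ [2]) = ext (tau i i' j j') w ++ [0] := by
    intro w
    rw [ext_append]
    simp [ext, tau]
  unfold cg
  rw [dS_comp, h2, h22]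
  induction k with
  | zero => simp [z, ext, dS_self]
  | succ k ih =>
    have h3 : ext (tau i i' j j') (z (k + 1)) = (z i ++ 1 :: z i') ++ ext (tau i i' j j') (z k) := by
      rw [z_succ, ext_cons]
      simp [tau]
    rw [h3]
    refine (dS_tri S _ ((z i ++ 1 :: z i') ++ 0 :: ext (tau i i' j j') (z k)) _).trans ?_
    have h4 : dS S (0 :: ((z i ++ 1 :: z i') ++ ext (tau i i' j j') (z k)))
        ((z i ++ 1 :: z i') ++ 0 :: ext (tau i i' j j') (z k)) ≤ cf S 1 := by
      have h5 := ml1 S (z i) (z i' ++ ext (tau i i' j j') (z k)) 1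
      have h6 : z i ++ (z 1 ++ 1 :: (z i' ++ ext (tau i i' j j') (z k))) =
          0 :: ((z i ++ 1 :: z i') ++ ext (tau i i' j j') (z k)) := by
        have h7 : z i ++ z 1 = 0 :: z i := z_one_r i
        rw [← List.append_assoc, h7]
        simp
      have h8 : z i ++ 1 :: (z 1 ++ (z i' ++ ext (tau i i' j j') (z k))) =
          (z i ++ 1 :: z i') ++ 0 :: ext (tau i i' j j') (z k) := by
        have h9 : z 1 ++ z i' = z i' ++ [0] := z_one_l i'
        rw [← List.append_assoc (z 1), h9]
        simp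
      rw [h6, h8] at h5
      exact h5
    have h10 : dS S ((z i ++ 1 :: z i') ++ 0 :: ext (tau i i' j j') (z k))
        ((z i ++ 1 :: z i') ++ ext (tau i i' j j') (z k) ++ [0]) ≤ k * cf S 1 := by
      rw [List.append_assoc (z i ++ 1 :: z i')]
      exact (dS_prefix S _ _ _).trans ih
    calc _ ≤ cf S 1 + k * cf S 1 := Nat.add_le_add h4 h10
      _ = (k + 1) * cf S 1 := by ring

theorem h_zero_bound (S : Fin 3 → List (Fin 3)) (i i' j j' : ℕ) :
    ch (comp S (tau i i' j j')) 0 ≤ cg S 1 := by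
  unfold ch
  rw [dS_comp]
  have h1 : ext (tau i i' j j') (1 :: (z 0 ++ [2])) = z j ++ 2 :: (z 1 ++ z j') := by
    have h9 : z 1 ++ z j' = z j' ++ [0] := z_one_l j'
    rw [h9]
    simp [ext, tau, z]
  have h2 : ext (tau i i' j j') (2 :: (z 0 ++ [1])) = z j ++ (z 1 ++ 2 :: z j') := by
    have h7 : z j ++ z 1 = 0 :: z j := z_one_r j
    rw [← List.append_assoc, h7]
    simp [ext, tau, z]
  rw [h1, h2]
  exact mr2 S (z j) (z j') 1

end Pool.Agent.H872.PC
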