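import Pool.Agent.H872.PC.Steps

/-!
Growth of the costs for `(a, b) = (3, 4)`: a finite linear recursion with the factor 4.
-/

set_option autoImplicit false

namespace Pool.Agent.H872.PC
open Pool.Agent.H812R2.PI Pool.Agent.Q132.PT
open scoped BigOperators

namespace C34L

theorem dS_le_length (S : Fin 3 → List (Fin 3)) (u v : List (Fin 3)) :
    dS S u v ≤ (ext S u).length := by
  unfold dS dif
  refine (Finset.card_le_card Finset.sdiff_subset).trans ?_
  rw [card_E]

theorem ext_id (u : List (Fin 3)) : ext (compList ([] : List (Fin 3 → List (Fin 3)))) u = u := by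
  induction u with
  | nil => simp [ext]
  | cons x u ih => rw [ext_cons, ih]; simp [compList]

theorem base_f (k : ℕ) : cf (compList []) k ≤ k + 1 := by
  refine (dS_le_length _ _ _).trans ?_
  rw [ext_id]
  simp [z]

theorem base_g (k : ℕ) : cg (compList []) k ≤ k + 1 := by
  refine (dS_le_length _ _ _).trans ?_
  rw [ext_id]
  simp [z]

theorem base_h (k : ℕ) : ch (compList []) k ≤ k + 2 := by
  refine (dS_le_length _ _ _).trans ?_
  rw [ext_id]
  simp [z]

theorem snoc (l : List (Fin 3 → List (Fin 3))) (τ : Fin 3 → List (Fin 3)) :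
    compList (l ++ [τ]) = comp (compList l) τ := by
  rw [compList_append]
  congr 1
  funext a
  simp [compList, comp, ext]

/-- the bounds of the costs -/
structure B4 (S : Fin 3 → List (Fin 3)) (K : ℝ) : Prop where
  f1 : (cf S 1 : ℝ) ≤ K * 60
  f2 : (cf S 2 : ℝ) ≤ K * 102
  f3 : (cf S 3 : ℝ) ≤ K * 144
  f4 : (cf S 4 : ℝ) ≤ K * 185
  g1 : (cg S 1 : ℝ) ≤ K * 16
  g2 : (cg S 2 : ℝ) ≤ K * 31
  g3 : (cg S 3 : ℝ) ≤ K * 46
  g4 : (cg S 4 : ℝ) ≤ K * 61
  h0 : (ch S 0 : ℝ) ≤ K * 5
  h1 : (ch S 1 : ℝ) ≤ K * 54
  h2 : (ch S 2 : ℝ) ≤ K * 80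
  h3 : (ch S 3 : ℝ) ≤ K * 107

theorem base : B4 (compList []) 1 := by
  have hf := fun k => castle (base_f k)
  have hg := fun k => castle (base_g k)
  have hh := fun k => castle (base_h k)
  push_cast at hf hg hh
  constructor
  · have := hf 1; push_cast at this; linarith
  · have := hf 2; push_cast at this; linarith
  · have := hf 3; push_cast at this; linarith
  · have := hf 4; push_cast at this; linarith
  · have := hg 1; push_cast at this; linarith
  · have := hg 2; push_cast at this; linarith
  · have := hg 3; push_cast at this; linarith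
  · have := hg 4; push_cast at this; linarith
  · have := hh 0; push_cast at this; linarith
  · have := hh 1; push_cast at this; linarith
  · have := hh 2; push_cast at this; linarith
  · have := hh 3; push_cast at this; linarith

theorem step {S : Fin 3 → List (Fin 3)} {K : ℝ} (B : B4 S K) (hK : 0 ≤ K) (i i' j j' : ℕ)
    (hi : i + i' = 3) (hj : j + j' = 4) : B4 (comp S (tau i i' j j')) (4 * K) := by
  obtain ⟨b1, b2, b3, b4, c1, c2, c3, c4, d0, d1, d2, d3⟩ := B
  have hg := fun k => castle (g_bound S i i' j j' k)
  have hh0 := castle (h_zero_bound S i i' j j')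
  push_cast at hg hh0
  have z1 : (cf S 0 : ℝ) = 0 := by rw [cf_zero]; simp
  have z2 : (cg S 0 : ℝ) = 0 := by rw [cg_zero]; simp
  obtain ⟨e, e', he, hF, hH⟩ := f1 S 3 i i' j j' hi hj
  have kf : ∀ k : ℕ, (cf (comp S (tau i i' j j')) (k + 1) : ℝ) ≤ k * (K * 167) + K * 236 := by
    intro k
    have h := castle (hF k)
    push_cast at h
    have hk : (0 : ℝ) ≤ k := Nat.cast_nonneg _
    have h5 : (k : ℝ) * ((cf S 1 : ℝ) + (ch S 3 : ℝ)) ≤ k * (K * 167) :=
      mul_le_mul_of_nonneg_left (by linarith) hk
    have h6 : (cg S e : ℝ) + (cf S (e + 1) : ℝ) + (ch S e' : ℝ) ≤ K * 236 := by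
      have he4 : e ≤ 3 := by omega
      interval_cases e
      · obtain rfl : e' = 3 := by omega
        simp only [zero_add]
        linarith
      · obtain rfl : e' = 2 := by omega
        linarith
      · obtain rfl : e' = 1 := by omega
        linarith
      · obtain rfl : e' = 0 := by omega
        linarith
    linarith
  have kh : ∀ k : ℕ, (ch (comp S (tau i i' j j')) (k + 1) : ℝ) ≤ k * (K * 107) + K * 210 := by
    intro k
    have h := castle (hH k)
    push_cast at h
    have hk : (0 : ℝ) ≤ k := Nat.cast_nonneg _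
    have h5 : (k : ℝ) * (ch S 3 : ℝ) ≤ k * (K * 107) := mul_le_mul_of_nonneg_left d3 hk
    have h6 : (cg S (e + 1) : ℝ) + (cf S e : ℝ) + (ch S e' : ℝ) ≤ K * 210 := by
      have he4 : e ≤ 3 := by omega
      interval_cases e
      · obtain rfl : e' = 3 := by omega
        simp only [zero_add]
        linarith
      · obtain rfl : e' = 2 := by omega
        linarith
      · obtain rfl : e' = 1 := by omega
        linarith
      · obtain rfl : e' = 0 := by omega
        linarith
    linarith
  constructor
  · have := kf 0; push_cast at this; linarith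
  · have := kf 1; push_cast at this; linarith
  · have := kf 2; push_cast at this; linarith
  · have := kf 3; push_cast at this; linarith
  · have := hg 1; push_cast at this; linarith
  · have := hg 2; push_cast at this; linarith
  · have := hg 3; push_cast at this; linarith
  · have := hg 4; push_cast at this; linarith
  · linarith
  · have := kh 0; push_cast at this; linarith
  · have := kh 1; push_cast at this; linarith
  · have := kh 2; push_cast at this; linarith

theorem all (l : List (Fin 3 → List (Fin 3)))
    (hl : ∀ τ ∈ l, ∃ i i' j j' : ℕ, i + i' = 3 ∧ j + j' = 4 ∧ τ = tau i i' j j') :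
    B4 (compList l) (4 ^ l.length) := by
  induction l using List.reverseRecOn with
  | nil => simpa using base
  | append_singleton l τ ih =>
    have h1 := ih fun σ hσ => hl σ (by simp [hσ])
    obtain ⟨i, i', j, j', hi, hj, rfl⟩ := hl τ (by simp)
    rw [snoc]
    have h2 := step h1 (by positivity) i i' j j' hi hj
    have h3 : (4 : ℝ) ^ (l ++ [tau i i' j j']).length = 4 * 4 ^ l.length := by
      rw [List.length_append, List.length_singleton, pow_succ]
      ring
    rw [h3]
    exact h2

end C34L

theorem cost34 : ∃ C : ℝ, ∀ l : List (Fin 3 → List (Fin 3)),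
    (∀ τ ∈ l, ∃ i i' j j' : ℕ, i + i' = 3 ∧ j + j' = 4 ∧ τ = tau i i' j j') →
    (cf (compList l) 1 : ℝ) ≤ C * 4 ^ l.length ∧ (cg (compList l) 1 : ℝ) ≤ C * 4 ^ l.length ∧
    (ch (compList l) 0 : ℝ) ≤ C * 4 ^ l.length := by
  refine ⟨60, fun l hl => ?_⟩
  have h := C34L.all l hl
  have hp : (0 : ℝ) ≤ 4 ^ l.length := by positivity
  have h1 := h.f1
  have h2 := h.g1
  have h3 := h.h0
  refine ⟨by linarith, by linarith, by linarith⟩

end Pool.Agent.H872.PC
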