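import Pool.Agent.H872.PC.BPDefs
import Pool.Agent.H872.PC.Base

/-!
Decoding of codes and images of words.
-/

set_option autoImplicit false

namespace Pool.Agent.H872.PC
open Pool.Agent.H812R2.PI Pool.Agent.Q132.PT

/-- the letters as elements of `Fin 3` -/
def toF : L3 → Fin 3
  | .a => 0
  | .b => 1
  | .c => 2

namespace DEL

theorem enc_append (u : List L3) (x : L3) : enc (u ++ [x]) = 4 * enc u + dg x := by
  unfold enc
  rw [List.foldl_append]
  rfl

theorem dg_lt (x : L3) : dg x < 4 := by cases x <;> simp [dg]

theorem tl_dg (x : L3) : tl (dg x) = x := by cases x <;> rfl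

theorem enc_pos (u : List L3) : 1 ≤ enc u := by
  induction u using List.reverseRecOn with
  | nil => exact le_refl _
  | append_singleton u x ih => rw [enc_append]; omega

theorem len_le (u : List L3) : u.length ≤ enc u := by
  induction u using List.reverseRecOn with
  | nil => exact Nat.zero_le _
  | append_singleton u x ih =>
    rw [enc_append, List.length_append, List.length_singleton]
    have := enc_pos u
    omega

theorem decA_succ (f n : ℕ) (acc : List L3) (h : 1 < n) :
    decA (f + 1) n acc = decA f (n / 4) (tl (n % 4) :: acc) := by
  have h1 : Nat.ble n 1 = false := by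
    rw [Bool.eq_false_iff]
    intro h2
    have := Nat.le_of_ble_eq_true h2
    omega
  rw [decA, h1]
  obtain ⟨r, hr⟩ : ∃ r, r = n % 4 := ⟨_, rfl⟩
  have hr4 : r < 4 := by omega
  rw [← hr]
  interval_cases r <;> rfl

theorem decA_enc (u : List L3) : ∀ (acc : List L3) (f : ℕ), u.length ≤ f →
    decA f (enc u) acc = u ++ acc := by
  induction u using List.reverseRecOn with
  | nil =>
    intro acc f _
    cases f with
    | zero => rfl
    | succ f => rfl
  | append_singleton u x ih =>
    intro acc f hf
    rw [List.length_append, List.length_singleton] at hf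
    obtain ⟨f', rfl⟩ : ∃ f', f = f' + 1 := ⟨f - 1, by omega⟩
    have h1 := enc_pos u
    have h2 := dg_lt x
    have h3 : (4 * enc u + dg x) / 4 = enc u := by omega
    have h4 : (4 * enc u + dg x) % 4 = dg x := by omega
    rw [enc_append, decA_succ _ _ _ (by omega), h3, h4, tl_dg, ih _ _ (by omega),
      List.append_assoc]
    rfl

theorem rp_map (n : ℕ) (l : List L3) : (rp n l).map toF = z n ++ l.map toF := by
  induction n with
  | zero => simp [rp, z]
  | succ n ih =>
    rw [rp, List.map_cons, ih]
    simp [z, List.replicate_succ, toF]

end DEL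

theorem dec_enc (u : List L3) : dec (enc u) = u := by
  unfold dec
  rw [DEL.decA_enc u [] (enc u) (DEL.len_le u), List.append_nil]

theorem img_spec (i i' j j' : ℕ) (u : List L3) :
    (img i i' j j' u).map toF = ext (tau i i' j j') (u.map toF) := by
  induction u with
  | nil => simp [img, ext]
  | cons x u ih =>
    cases x with
    | a =>
      rw [img, DEL.rp_map, List.map_cons, DEL.rp_map, ih, List.map_cons, ext_cons]
      simp [toF, tau]
    | b =>
      rw [img, DEL.rp_map, List.map_cons, DEL.rp_map, ih, List.map_cons, ext_cons]
      simp [toF, tau]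
    | c =>
      rw [img, List.map_cons, ih, List.map_cons, ext_cons]
      simp [toF, tau]

end Pool.Agent.H872.PC
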