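import Pool.Graph.R_pool_sql_team_seeded_3997aac3.Q132.PT.Cost

/-!
Cubic companion substitutions: costs of the moves of the letters 1 and 2 over blocks of zeros.
-/

set_option autoImplicit false

namespace Pool.Agent.H872.PC
open Pool.Agent.H812R2.PI Pool.Agent.Q132.PT
open scoped BigOperators

/-- a block of zeros -/
def z (k : ℕ) : List (Fin 3) := List.replicate k 0

/-- cost of moving the letter 1 over a block of zeros -/
def cf (S : Fin 3 → List (Fin 3)) (k : ℕ) : ℕ := dS S (1 :: z k) (z k ++ [1])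

/-- cost of moving the letter 2 over a block of zeros -/
def cg (S : Fin 3 → List (Fin 3)) (k : ℕ) : ℕ := dS S (2 :: z k) (z k ++ [2])

/-- cost of the exchange of the letters 1 and 2 around a block of zeros -/
def ch (S : Fin 3 → List (Fin 3)) (k : ℕ) : ℕ := dS S (1 :: (z k ++ [2])) (2 :: (z k ++ [1]))

/-- the substitution `0 ↦ 0^i 1 0^i'`, `1 ↦ 0^j 2 0^j'`, `2 ↦ 0` -/
def tau (i i' j j' : ℕ) : Fin 3 → List (Fin 3) := ![z i ++ 1 :: z i', z j ++ 2 :: z j', [0]]

/-- `(0^a 1)^n` -/
def W (a n : ℕ) : List (Fin 3) := (List.replicate n (z a ++ [1])).flatten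

/-- `(1 0^a)^n` -/
def W' (a n : ℕ) : List (Fin 3) := (List.replicate n (1 :: z a)).flatten

end Pool.Agent.H872.PC
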