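import Pool.Agent.H872.PC.Base

/-!
Cost bounds f0A and f0B.
-/

set_option autoImplicit false
set_option linter.unusedSimpArgs false

namespace Pool.Agent.H872.PC
open Pool.Agent.H812R2.PI Pool.Agent.Q132.PT
open scoped BigOperators

namespace F0L

theorem zz (m n : ℕ) : z m ++ z n = z (m + n) := by
  unfold z
  rw [List.replicate_add]

theorem zz' (m n : ℕ) (w : List (Fin 3)) : z m ++ (z n ++ w) = z (m + n) ++ w := by
  rw [← List.append_assoc, zz]

theorem Wc (a k : ℕ) (w : List (Fin 3)) :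
    z a ++ 1 :: (W a k ++ w) = W a k ++ (z a ++ 1 :: w) := by
  have h1 : W a (k + 1) = z a ++ [1] ++ W a k := by
    unfold W
    rw [List.replicate_succ, List.flatten_cons]
  have h2 : W a (k + 1) = W a k ++ (z a ++ [1]) := by
    unfold W
    rw [List.replicate_succ', List.flatten_append, List.flatten_cons, List.flatten_nil,
      List.append_nil]
  have h3 : z a ++ [1] ++ W a k ++ w = W a k ++ (z a ++ [1]) ++ w := by rw [← h1, ← h2]
  simpa using h3

theorem W'c (a k : ℕ) (w : List (Fin 3)) :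
    1 :: (z a ++ (W' a k ++ w)) = W' a k ++ 1 :: (z a ++ w) := by
  have h1 : W' a (k + 1) = (1 :: z a) ++ W' a k := by
    unfold W'
    rw [List.replicate_succ, List.flatten_cons]
  have h2 : W' a (k + 1) = W' a k ++ (1 :: z a) := by
    unfold W'
    rw [List.replicate_succ', List.flatten_append, List.flatten_cons, List.flatten_nil,
      List.append_nil]
  have h3 : (1 :: z a) ++ W' a k ++ w = W' a k ++ (1 :: z a) ++ w := by rw [← h1, ← h2]
  simpa using h3

theorem WW' (a k : ℕ) : (W a k).Perm (W' a k) := by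
  induction k with
  | zero => exact List.Perm.refl _
  | succ k ih =>
    unfold W W' at ih ⊢
    rw [List.replicate_succ, List.flatten_cons, List.replicate_succ, List.flatten_cons]
    refine List.Perm.append ?_ ih
    exact List.perm_append_comm

/-- the chain in a context, with the letter 2 -/
theorem ch2 (S : Fin 3 → List (Fin 3)) (p s : List (Fin 3)) (a k : ℕ) :
    dS S (p ++ 2 :: (W a k ++ s)) (p ++ (W' a k ++ 2 :: s)) ≤ k * ch S a := by
  have h1 : dS S ([2] ++ (z a ++ [1])) ((1 :: z a) ++ [2]) ≤ ch S a := by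
    have h := ex21 S [] [] a
    simpa using h
  have h2 := chain S a (ch S a) [2] h1 k
  have h3 : ([2] ++ W a k).Perm (W' a k ++ [2]) :=
    (List.Perm.append_left [2] (WW' a k)).trans List.perm_append_comm
  have h4 := (dS_ctx S p _ _ s h3).trans h2
  have e1 : p ++ (([2] ++ W a k) ++ s) = p ++ 2 :: (W a k ++ s) := by simp
  have e2 : p ++ ((W' a k ++ [2]) ++ s) = p ++ (W' a k ++ 2 :: s) := by simp
  rw [e1, e2] at h4
  exact h4

theorem tau1 (i i' j j' : ℕ) : ext (tau i i' j j') [1] = z j ++ 2 :: z j' := by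
  unfold tau
  simp [ext]

theorem cf_comp (S : Fin 3 → List (Fin 3)) (i i' j j' k : ℕ) :
    cf (comp S (tau i i' j j')) (k + 1) =
      dS S ((z j ++ 2 :: z j') ++ (z i ++ 1 :: (W (i + i') k ++ z i')))
        ((z i ++ (W' (i + i') k ++ 1 :: z i')) ++ (z j ++ 2 :: z j')) := by
  unfold cf
  have h : ∀ u v : List (Fin 3), dS (comp S (tau i i' j j')) u v =
      dS S (ext (tau i i' j j') u) (ext (tau i i' j j') v) := by
    intro u v
    unfold dS
    rw [ext_comp, ext_comp]
  rw [h, ext_append, tau1, (ext_z i i' j j' k).2]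
  have h2 : ext (tau i i' j j') (1 :: z (k + 1)) =
      (z j ++ 2 :: z j') ++ (z i ++ 1 :: (W (i + i') k ++ z i')) := by
    have h3 := ext_append (tau i i' j j') [1] (z (k + 1))
    rw [tau1, (ext_z i i' j j' k).1] at h3
    exact h3
  rw [h2]

end F0L

theorem f0A (S : Fin 3 → List (Fin 3)) (j e i' k : ℕ) :
    cf (comp S (tau (j + e) i' j (e + i'))) (k + 1) ≤
      k * ch S (j + e + i') + ch S (j + i') + cf S e + cg S e := by
  rw [F0L.cf_comp]
  have s1 := mr2 S (z j) (z (j + e + i') ++ 1 :: (W (j + e + i') k ++ z i')) e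
  have s2 := F0L.ch2 S (z (j + e)) (z (j + e + i') ++ 1 :: z i') (j + e + i') k
  have s3 := ml1 S (z (j + e) ++ (W' (j + e + i') k ++ 2 :: z (j + i'))) (z i') e
  have s4 := ex21 S (z (j + e) ++ W' (j + e + i') k) (z e ++ z i') (j + i')
  have e1 : z j ++ 2 :: (z e ++ (z (j + e + i') ++ 1 :: (W (j + e + i') k ++ z i'))) =
      (z j ++ 2 :: z (e + i')) ++ (z (j + e) ++ 1 :: (W (j + e + i') k ++ z i')) := by
    simp only [List.append_assoc, List.cons_append, F0L.zz, F0L.zz', Nat.add_comm,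
      Nat.add_left_comm, Nat.add_assoc]
  have e2 : z j ++ (z e ++ 2 :: (z (j + e + i') ++ 1 :: (W (j + e + i') k ++ z i'))) =
      z (j + e) ++ 2 :: (W (j + e + i') k ++ (z (j + e + i') ++ 1 :: z i')) := by
    rw [F0L.Wc, F0L.zz']
  have e3 : z (j + e) ++ (W' (j + e + i') k ++ 2 :: (z (j + e + i') ++ 1 :: z i')) =
      (z (j + e) ++ (W' (j + e + i') k ++ 2 :: z (j + i'))) ++ (z e ++ 1 :: z i') := by
    simp only [List.append_assoc, List.cons_append, F0L.zz, F0L.zz', Nat.add_comm,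
      Nat.add_left_comm, Nat.add_assoc]
  have e4 : (z (j + e) ++ (W' (j + e + i') k ++ 2 :: z (j + i'))) ++ 1 :: (z e ++ z i') =
      (z (j + e) ++ W' (j + e + i') k) ++ 2 :: (z (j + i') ++ 1 :: (z e ++ z i')) := by
    simp only [List.append_assoc, List.cons_append]
  have e5 : (z (j + e) ++ W' (j + e + i') k) ++ 1 :: (z (j + i') ++ 2 :: (z e ++ z i')) =
      (z (j + e) ++ (W' (j + e + i') k ++ 1 :: z i')) ++ (z j ++ 2 :: z (e + i')) := by
    simp only [List.append_assoc, List.cons_append, F0L.zz, F0L.zz', Nat.add_comm,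
      Nat.add_left_comm, Nat.add_assoc]
  rw [e1, e2] at s1
  rw [e3] at s2
  rw [e4] at s3
  rw [e5] at s4
  have t2 := (dS_tri S _ _ _).trans (Nat.add_le_add s1 s2)
  have t3 := (dS_tri S _ _ _).trans (Nat.add_le_add t2 s3)
  have t4 := (dS_tri S _ _ _).trans (Nat.add_le_add t3 s4)
  omega

theorem f0B (S : Fin 3 → List (Fin 3)) (i e j' k : ℕ) :
    cf (comp S (tau i (e + j') (i + e) j')) (k + 1) ≤
      k * ch S (i + e + j') + ch S (i + j') + cf S e + cg S e := by
  rw [F0L.cf_comp, ← Nat.add_assoc]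
  have s1 := ex21 S (z (i + e)) (W (i + e + j') k ++ z (e + j')) (i + j')
  have s2 := ml1 S (z i) (z (i + j') ++ 2 :: (W (i + e + j') k ++ z (e + j'))) e
  have s3 := F0L.ch2 S (z i ++ 1 :: z (i + e + j')) (z (e + j')) (i + e + j') k
  have s4 := mr2 S (z i ++ (W' (i + e + j') k ++ 1 :: z (i + e + j'))) (z j') e
  have e1 : z (i + e) ++ 2 :: (z (i + j') ++ 1 :: (W (i + e + j') k ++ z (e + j'))) =
      (z (i + e) ++ 2 :: z j') ++ (z i ++ 1 :: (W (i + e + j') k ++ z (e + j'))) := by
    simp only [List.append_assoc, List.cons_append, F0L.zz, F0L.zz', Nat.add_comm,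
      Nat.add_left_comm, Nat.add_assoc]
  have e2 : z (i + e) ++ 1 :: (z (i + j') ++ 2 :: (W (i + e + j') k ++ z (e + j'))) =
      z i ++ (z e ++ 1 :: (z (i + j') ++ 2 :: (W (i + e + j') k ++ z (e + j')))) := by
    rw [F0L.zz']
  have e3 : z i ++ 1 :: (z e ++ (z (i + j') ++ 2 :: (W (i + e + j') k ++ z (e + j')))) =
      (z i ++ 1 :: z (i + e + j')) ++ 2 :: (W (i + e + j') k ++ z (e + j')) := by
    simp only [List.append_assoc, List.cons_append, F0L.zz, F0L.zz', Nat.add_comm,
      Nat.add_left_comm, Nat.add_assoc]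
  have e4 : (z i ++ 1 :: z (i + e + j')) ++ (W' (i + e + j') k ++ 2 :: z (e + j')) =
      (z i ++ (W' (i + e + j') k ++ 1 :: z (i + e + j'))) ++ 2 :: (z e ++ z j') := by
    simp only [List.append_assoc, List.cons_append]
    rw [F0L.W'c, F0L.zz]
  have e5 : (z i ++ (W' (i + e + j') k ++ 1 :: z (i + e + j'))) ++ (z e ++ 2 :: z j') =
      (z i ++ (W' (i + e + j') k ++ 1 :: z (e + j'))) ++ (z (i + e) ++ 2 :: z j') := by
    simp only [List.append_assoc, List.cons_append, F0L.zz, F0L.zz', Nat.add_comm,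
      Nat.add_left_comm, Nat.add_assoc]
  rw [e1, e2] at s1
  rw [e3] at s2
  rw [e4] at s3
  rw [e5] at s4
  have t2 := (dS_tri S _ _ _).trans (Nat.add_le_add s1 s2)
  have t3 := (dS_tri S _ _ _).trans (Nat.add_le_add t2 s3)
  have t4 := (dS_tri S _ _ _).trans (Nat.add_le_add t3 s4)
  omega

end Pool.Agent.H872.PC
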