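import Pool.Agent.H872.PC.Base

/-!
Cost bounds for moving the letter 1, case `b = a + 1`.
-/

set_option autoImplicit false

namespace Pool.Agent.H872.PC
open Pool.Agent.H812R2.PI Pool.Agent.Q132.PT
open scoped BigOperators

namespace F1L

theorem zs {a b c : ℕ} (s : List (Fin 3)) (h : a + b = c) : z a ++ (z b ++ s) = z c ++ s := by
  subst h
  unfold z
  rw [List.replicate_add, List.append_assoc]

theorem zz {a b c : ℕ} (h : a + b = c) : z a ++ z b = z c := by
  subst h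
  unfold z
  rw [List.replicate_add]

theorem W_succ (a k : ℕ) : W a (k + 1) = (z a ++ [1]) ++ W a k := by
  unfold W
  rw [List.replicate_succ, List.flatten_cons]

theorem W_succ' (a k : ℕ) : W a (k + 1) = W a k ++ (z a ++ [1]) := by
  unfold W
  rw [List.replicate_succ', List.flatten_append, List.flatten_singleton]

theorem W'_succ (a k : ℕ) : W' a (k + 1) = (1 :: z a) ++ W' a k := by
  unfold W'
  rw [List.replicate_succ, List.flatten_cons]

theorem W_perm (a k : ℕ) : (W a k).Perm (W' a k) := by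
  induction k with
  | zero => exact List.Perm.refl _
  | succ k ih =>
    rw [W_succ, W'_succ]
    exact List.Perm.append (List.perm_append_comm (l₁ := z a) (l₂ := [1])) ih

theorem BW_perm (a k : ℕ) (B : List (Fin 3)) : (B ++ W a k).Perm (W' a k ++ B) :=
  (List.Perm.append_left B (W_perm a k)).trans List.perm_append_comm

/-- the repeated step in a context -/
theorem chain_ctx (S : Fin 3 → List (Fin 3)) (a X : ℕ) (B : List (Fin 3))
    (h : dS S (B ++ (z a ++ [1])) ((1 :: z a) ++ B) ≤ X) (n : ℕ) (p s : List (Fin 3)) :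
    dS S (p ++ ((B ++ W a n) ++ s)) (p ++ ((W' a n ++ B) ++ s)) ≤ n * X :=
  (dS_ctx S p _ _ s (BW_perm a n B)).trans (chain S a X B h n)

theorem c2 (S : Fin 3 → List (Fin 3)) (a : ℕ) :
    dS S ((2 :: z 1) ++ (z a ++ [1])) ((1 :: z a) ++ (2 :: z 1)) ≤ cf S 1 + ch S a := by
  have e1 : (2 :: z 1 : List (Fin 3)) ++ (z a ++ [1]) = (2 :: z a) ++ (z 1 ++ 1 :: []) := by
    rw [List.cons_append, List.cons_append, zs (c := a + 1) _ (Nat.add_comm 1 a),
      zs (c := a + 1) _ rfl]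
  have e2 : (2 :: z a : List (Fin 3)) ++ 1 :: (z 1 ++ []) = [] ++ 2 :: (z a ++ 1 :: z 1) := by
    rw [List.append_nil]
    rfl
  have h1 := ml1 S (2 :: z a) [] 1
  have h2 := ex21 S [] (z 1) a
  rw [e1]
  rw [e2] at h1
  exact (dS_tri S _ _ _).trans (Nat.add_le_add h1 h2)

theorem c2' (S : Fin 3 → List (Fin 3)) (a : ℕ) :
    dS S ((1 :: (z (a + 1) ++ [2])) ++ (z a ++ [1])) ((1 :: z a) ++ (1 :: (z (a + 1) ++ [2]))) ≤
      cf S 1 + ch S a := by
  have e1 : (1 :: (z (a + 1) ++ [2]) : List (Fin 3)) ++ (z a ++ [1]) =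
      (1 :: z (a + 1)) ++ 2 :: (z a ++ 1 :: []) := by
    simp only [List.cons_append, List.append_assoc, List.nil_append]
  have e2 : (1 :: z (a + 1) : List (Fin 3)) ++ 1 :: (z a ++ 2 :: []) =
      (1 :: z a) ++ (z 1 ++ 1 :: (z a ++ [2])) := by
    rw [List.cons_append, List.cons_append, zs (c := a + 1) _ rfl]
  have e3 : (1 :: z a : List (Fin 3)) ++ (1 :: (z (a + 1) ++ [2])) =
      (1 :: z a) ++ 1 :: (z 1 ++ (z a ++ [2])) := by
    rw [zs (c := a + 1) _ (Nat.add_comm 1 a)]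
  have h1 := ex21 S (1 :: z (a + 1)) [] a
  have h2 := ml1 S (1 :: z a) (z a ++ [2]) 1
  rw [e2] at h1
  rw [e1, e3, add_comm (cf S 1)]
  exact (dS_tri S _ _ _).trans (Nat.add_le_add h1 h2)

theorem comp_eq (S τ : Fin 3 → List (Fin 3)) (u v : List (Fin 3)) :
    dS (comp S τ) u v = dS S (ext τ u) (ext τ v) := by
  unfold dS
  rw [ext_comp, ext_comp]

theorem cf_eq (S : Fin 3 → List (Fin 3)) (i i' j j' k : ℕ) :
    cf (comp S (tau i i' j j')) (k + 1) =
      dS S ((z j ++ 2 :: z j') ++ (z i ++ 1 :: (W (i + i') k ++ z i')))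
        ((z i ++ (W' (i + i') k ++ 1 :: z i')) ++ (z j ++ 2 :: z j')) := by
  have h1 : ext (tau i i' j j') (1 :: z (k + 1)) =
      (z j ++ 2 :: z j') ++ (z i ++ 1 :: (W (i + i') k ++ z i')) := by
    rw [ext_cons, (ext_z i i' j j' k).1]
    rfl
  have h2 : ext (tau i i' j j') (z (k + 1) ++ [1]) =
      (z i ++ (W' (i + i') k ++ 1 :: z i')) ++ (z j ++ 2 :: z j') := by
    rw [ext_append, (ext_z i i' j j' k).2]
    have h3 : ext (tau i i' j j') [1] = z j ++ 2 :: z j' := by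
      show List.flatMap (tau i i' j j') [1] = _
      rw [List.flatMap_singleton]
      rfl
    rw [h3]
  unfold cf
  rw [comp_eq, h1, h2]

end F1L

open F1L

/-- `i = j + e`, `a = j + e + i'` -/
theorem f1A (S : Fin 3 → List (Fin 3)) (j e i' k : ℕ) :
    cf (comp S (tau (j + e) i' j (e + i' + 1))) (k + 1) ≤
      k * (cf S 1 + ch S (j + e + i')) + cg S e + cf S (e + 1) + ch S (j + i') := by
  rw [cf_eq]
  obtain ⟨a, ha⟩ : ∃ a, a = j + e + i' := ⟨_, rfl⟩
  rw [← ha]
  have e0 : (z j ++ 2 :: z (e + i' + 1)) ++ (z (j + e) ++ 1 :: (W a k ++ z i')) =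
      z j ++ 2 :: (z e ++ (z (a + 1) ++ 1 :: (W a k ++ z i'))) := by
    rw [List.append_assoc, List.cons_append, zs (c := e + (a + 1)) _ (by omega),
      zs (c := e + (a + 1)) _ rfl]
  have e1 : z j ++ (z e ++ 2 :: (z (a + 1) ++ 1 :: (W a k ++ z i'))) =
      z (j + e) ++ (((2 :: z 1) ++ W a k) ++ (z a ++ 1 :: z i')) := by
    rw [zs (c := j + e) _ rfl]
    have h1 : (2 :: z 1 : List (Fin 3)) ++ W a k ++ (z a ++ 1 :: z i') =
        2 :: (z 1 ++ ((W a k ++ (z a ++ [1])) ++ z i')) := by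
      simp only [List.cons_append, List.append_assoc, List.nil_append]
    rw [h1, ← W_succ', W_succ]
    have h2 : z 1 ++ ((z a ++ [1]) ++ W a k ++ z i') = z 1 ++ (z a ++ 1 :: (W a k ++ z i')) := by
      simp only [List.cons_append, List.append_assoc, List.nil_append]
    rw [h2, zs (c := a + 1) _ (Nat.add_comm 1 a)]
  have e2 : z (j + e) ++ ((W' a k ++ (2 :: z 1)) ++ (z a ++ 1 :: z i')) =
      (z (j + e) ++ (W' a k ++ 2 :: z (j + i'))) ++ (z (e + 1) ++ 1 :: z i') := by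
    simp only [List.append_assoc, List.cons_append]
    rw [zs (c := a + 1) _ (Nat.add_comm 1 a), zs (c := a + 1) _ (by omega)]
  have e3 : (z (j + e) ++ (W' a k ++ 2 :: z (j + i'))) ++ 1 :: (z (e + 1) ++ z i') =
      (z (j + e) ++ W' a k) ++ 2 :: (z (j + i') ++ 1 :: (z (e + 1) ++ z i')) := by
    simp only [List.append_assoc, List.cons_append]
  have e4 : (z (j + e) ++ (W' a k ++ 1 :: z i')) ++ (z j ++ 2 :: z (e + i' + 1)) =
      (z (j + e) ++ W' a k) ++ 1 :: (z (j + i') ++ 2 :: (z (e + 1) ++ z i')) := by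
    simp only [List.append_assoc, List.cons_append]
    rw [zs (c := j + i') _ (Nat.add_comm i' j), zz (a := e + 1) (c := e + i' + 1) (by omega)]
  have s1 := mr2 S (z j) (z (a + 1) ++ 1 :: (W a k ++ z i')) e
  have s2 := chain_ctx S a _ (2 :: z 1) (c2 S a) k (z (j + e)) (z a ++ 1 :: z i')
  have s3 := ml1 S (z (j + e) ++ (W' a k ++ 2 :: z (j + i'))) (z i') (e + 1)
  have s4 := ex21 S (z (j + e) ++ W' a k) (z (e + 1) ++ z i') (j + i')
  rw [e0, e4]
  rw [e1] at s1
  rw [e2] at s2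
  rw [e3] at s3
  have t1 := (dS_tri S _ _ _).trans (Nat.add_le_add s1 s2)
  have t2 := (dS_tri S _ _ _).trans (Nat.add_le_add t1 s3)
  have t3 := (dS_tri S _ _ _).trans (Nat.add_le_add t2 s4)
  refine t3.trans (le_of_eq ?_)
  ring

/-- `j = i + e + 1`, `a = i + e + j'` -/
theorem f1B (S : Fin 3 → List (Fin 3)) (i e j' k : ℕ) :
    cf (comp S (tau i (e + j') (i + e + 1) j')) (k + 1) ≤
      k * (cf S 1 + ch S (i + e + j')) + cg S e + cf S (e + 1) + ch S (i + j') := by
  rw [cf_eq]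
  obtain ⟨a, ha⟩ : ∃ a, a = i + e + j' := ⟨_, rfl⟩
  have ha' : i + (e + j') = a := by omega
  rw [ha', ← ha]
  have e0 : (z (i + e + 1) ++ 2 :: z j') ++ (z i ++ 1 :: (W a k ++ z (e + j'))) =
      z (i + e + 1) ++ 2 :: (z (i + j') ++ 1 :: (W a k ++ z (e + j'))) := by
    rw [List.append_assoc, List.cons_append, zs (c := i + j') _ (Nat.add_comm j' i)]
  have e1 : z (i + e + 1) ++ 1 :: (z (i + j') ++ 2 :: (W a k ++ z (e + j'))) =
      z i ++ (z (e + 1) ++ 1 :: (z (i + j') ++ 2 :: (W a k ++ z (e + j')))) := by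
    rw [zs (c := i + e + 1) _ (by omega)]
  have e2 : z i ++ 1 :: (z (e + 1) ++ (z (i + j') ++ 2 :: (W a k ++ z (e + j')))) =
      z i ++ (((1 :: (z (a + 1) ++ [2])) ++ W a k) ++ z (e + j')) := by
    rw [zs (c := a + 1) _ (by omega)]
    simp only [List.append_assoc, List.cons_append, List.nil_append]
  have e3 : z i ++ ((W' a k ++ (1 :: (z (a + 1) ++ [2]))) ++ z (e + j')) =
      (z i ++ (W' a k ++ 1 :: z (a + 1))) ++ 2 :: (z e ++ z j') := by
    rw [zz (a := e) (b := j') (c := e + j') rfl]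
    simp only [List.append_assoc, List.cons_append, List.nil_append]
  have e4 : (z i ++ (W' a k ++ 1 :: z (e + j'))) ++ (z (i + e + 1) ++ 2 :: z j') =
      (z i ++ (W' a k ++ 1 :: z (a + 1))) ++ (z e ++ 2 :: z j') := by
    simp only [List.append_assoc, List.cons_append]
    rw [zs (c := a + 1 + e) _ (by omega), zs (c := a + 1 + e) _ rfl]
  have s1 := ex21 S (z (i + e + 1)) (W a k ++ z (e + j')) (i + j')
  have s2 := ml1 S (z i) (z (i + j') ++ 2 :: (W a k ++ z (e + j'))) (e + 1)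
  have s3 := chain_ctx S a _ (1 :: (z (a + 1) ++ [2])) (c2' S a) k (z i) (z (e + j'))
  have s4 := mr2 S (z i ++ (W' a k ++ 1 :: z (a + 1))) (z j') e
  rw [e0, e4]
  rw [e1] at s1
  rw [e2] at s2
  rw [e3] at s3
  have t1 := (dS_tri S _ _ _).trans (Nat.add_le_add s1 s2)
  have t2 := (dS_tri S _ _ _).trans (Nat.add_le_add t1 s3)
  have t3 := (dS_tri S _ _ _).trans (Nat.add_le_add t2 s4)
  refine t3.trans (le_of_eq ?_)
  ring

end Pool.Agent.H872.PC
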