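import Pool.Agent.H872.PC.Engine

/-!
The case `b < a`: permanental weights.
-/

set_option autoImplicit false

namespace Pool.Agent.H872.PC
open Pool.Agent.H812R2.PI Pool.Agent.Q132.PT
open scoped BigOperators

/-- the weights of the transpositions -/
def XX (θ : ℝ) : Fin 3 → Fin 3 → ℝ := fun i j => (!![0, θ ^ 2, θ; θ ^ 2, 0, 1; θ, 1, 0] :
  Matrix (Fin 3) (Fin 3) ℝ) i j

theorem mainGT (a b : ℕ) (hb : b < a) (l : List (Fin 3 → List (Fin 3))) (hne : l ≠ [])
    (hl : ∀ τ ∈ l, C3 a b τ) : PisotMat (inc (compList l)) ∧ SemiConjToral (compList l) := by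
  have ha1 : (1 : ℝ) ≤ a := by exact_mod_cast (show 1 ≤ a by omega)
  have hba : (b : ℝ) + 1 ≤ a := by exact_mod_cast (show b + 1 ≤ a by omega)
  have hb0 : (0 : ℝ) ≤ b := Nat.cast_nonneg b
  obtain ⟨θ, hθ1, hθ⟩ := ClsL.root (b : ℝ) (a : ℝ) hb0 (Nat.cast_nonneg a) 1 one_pos
    (by nlinarith)
  have hθ0 : 0 < θ := by linarith
  have hroot : θ ^ 3 < a * θ ^ 2 + b * θ + 1 := by
    rw [hθ]
    nlinarith [mul_pos (show (0 : ℝ) < θ by linarith) (show (0 : ℝ) < θ - 1 by linarith)]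
  obtain ⟨C, hC0, hC⟩ := cst_list (XX θ)
    (by intro i; fin_cases i <;> simp [XX])
    (by
      intro i j hij
      fin_cases i <;> fin_cases j <;> first | exact absurd rfl hij | (simp [XX]; try positivity))
    (fun _ => θ)
  refine engine a b (by omega) (by omega) θ hθ0 hroot (C * (θ ^ 2 + θ + 1)) (fun _ => True)
    (fun l hl x y => ?_) l hne fun τ hτ => ⟨hl τ hτ, trivial⟩
  have h1 := hC l (fun τ hτ => ⟨hθ0.le, fun i j hij => ?_⟩) x y
  · have h2 : (l.map fun _ => θ).prod = θ ^ l.length := by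
      rw [List.map_const', List.prod_replicate]
    rw [h2] at h1
    have h3 : XX θ x y ≤ θ ^ 2 + θ + 1 := by
      fin_cases x <;> fin_cases y <;> simp [XX] <;> nlinarith
    have h4 : 0 ≤ C * θ ^ l.length := mul_nonneg hC0 (pow_pos hθ0 _).le
    calc (cst (compList l) x y : ℝ) ≤ C * θ ^ l.length * XX θ x y := h1
      _ ≤ C * θ ^ l.length * (θ ^ 2 + θ + 1) := mul_le_mul_of_nonneg_left h3 h4
      _ = _ := by ring
  · rw [(hl τ hτ).1.inc_eq]
    simp only [Fin.sum_univ_three]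
    fin_cases i <;> fin_cases j <;> first | exact absurd rfl hij | (simp [XX, CM]; try nlinarith)

end Pool.Agent.H872.PC
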