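import Pool.Agent.H872.PC.Engine

/-!
Three steps with `b = a`: the gain over the transposition bound.
-/

set_option autoImplicit false

namespace Pool.Agent.H872.PC
open Pool.Agent.H812R2.PI Pool.Agent.Q132.PT
open scoped BigOperators

/-- linear bounds of the costs -/
structure Bn (S : Fin 3 → List (Fin 3)) (f φ g h h0 : ℝ) : Prop where
  F : ∀ k : ℕ, (cf S (k + 1) : ℝ) ≤ f * (k + 1) + φ
  G : ∀ k : ℕ, (cg S k : ℝ) ≤ g * k
  H : ∀ k : ℕ, (ch S k : ℝ) ≤ h * k + h0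

theorem Bn.F' {S : Fin 3 → List (Fin 3)} {f φ g h h0 : ℝ} (B : Bn S f φ g h h0)
    (hφ : 0 ≤ φ) (k : ℕ) : (cf S k : ℝ) ≤ f * k + φ := by
  cases k with
  | zero =>
    rw [cf_zero]
    simpa using hφ
  | succ k =>
    have := B.F k
    push_cast
    exact this

theorem naive_f (S : Fin 3 → List (Fin 3)) (k : ℕ) : cf S k ≤ k * cst S 0 1 := by
  have h := dS_move S 1 (z k)
  have e : ((z k).map (cst S 1)).sum = k * cst S 0 1 := by
    unfold z
    rw [List.map_replicate, List.sum_replicate, smul_eq_mul, cst_cf, cst_cf']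
  rw [e] at h
  exact h

theorem naive_g (S : Fin 3 → List (Fin 3)) (k : ℕ) : cg S k ≤ k * cst S 0 2 := by
  have h := dS_move S 2 (z k)
  have e : ((z k).map (cst S 2)).sum = k * cst S 0 2 := by
    unfold z
    rw [List.map_replicate, List.sum_replicate, smul_eq_mul, cst_cg, cst_cg']
  rw [e] at h
  exact h

theorem naive_h (S : Fin 3 → List (Fin 3)) (k : ℕ) :
    ch S k ≤ k * cst S 0 1 + cst S 1 2 + k * cst S 0 2 := by
  have h1 := mr1 S [] [2] k
  have h2 : dS S (z k ++ [1, 2]) (z k ++ [2, 1]) ≤ cst S 1 2 := dS_prefix S (z k) [1, 2] [2, 1]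
  have h3 := mr2 S [] [1] k
  rw [dS_symm] at h3
  · rw [List.nil_append, List.nil_append] at h1 h3
    unfold ch
    refine (dS_tri S _ (z k ++ [1, 2]) _).trans ?_
    refine (Nat.add_le_add h1 ((dS_tri S _ (z k ++ [2, 1]) _).trans (Nat.add_le_add h2 h3))).trans ?_
    have h4 := naive_f S k
    have h5 := naive_g S k
    omega
  · refine ab_perm ?_
    rw [List.nil_append, List.nil_append]
    exact List.perm_middle.symm

theorem Bn.naive {S : Fin 3 → List (Fin 3)} {F G H : ℝ} (c01 : (cst S 0 1 : ℝ) ≤ F)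
    (c02 : (cst S 0 2 : ℝ) ≤ G) (c12 : (cst S 1 2 : ℝ) ≤ H) : Bn S F 0 G (F + G) H := by
  refine ⟨fun k => ?_, fun k => ?_, fun k => ?_⟩
  · have h1 := castle (naive_f S (k + 1))
    push_cast at h1
    have hk : (0 : ℝ) ≤ (k : ℝ) + 1 := by positivity
    have h2 := mul_le_mul_of_nonneg_left c01 hk
    linarith
  · have h1 := castle (naive_g S k)
    push_cast at h1
    have h2 := mul_le_mul_of_nonneg_left c02 (Nat.cast_nonneg (α := ℝ) k)
    linarith
  · have h1 := castle (naive_h S k)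
    push_cast at h1
    have h2 := mul_le_mul_of_nonneg_left c01 (Nat.cast_nonneg (α := ℝ) k)
    have h3 := mul_le_mul_of_nonneg_left c02 (Nat.cast_nonneg (α := ℝ) k)
    linarith

/-- the step for `b = a = A + 1` -/
theorem Bn.step {S : Fin 3 → List (Fin 3)} {f φ g h h0' : ℝ} (B : Bn S f φ g h h0')
    (hφ : 0 ≤ φ) (hu : 0 ≤ f + g - h) (A : ℕ) (i i' j j' : ℕ)
    (hi : i + i' = A + 1) (hj : j + j' = A + 1) :
    Bn (comp S (tau i i' j j')) (h * (A + 1) + h0') (φ + (A + 1) * (f + g - h)) (f + φ)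
      (g + h * A + h0') (g + φ + A * (f + g - h)) := by
  have hA : (0 : ℝ) ≤ A := Nat.cast_nonneg _
  have hAu := mul_nonneg hA hu
  refine ⟨fun k => ?_, fun k => ?_, fun k => ?_⟩
  · obtain ⟨e, e', he, hb⟩ := f0 S (A + 1) i i' j j' hi hj
    have h1 := castle (hb k)
    push_cast at h1
    have h2 := B.H (A + 1)
    have h3 := B.H e'
    have h4 := B.F' hφ e
    have h5 := B.G e
    push_cast at h2
    have he' : (e : ℝ) + e' = A + 1 := by exact_mod_cast he
    have he0 : (0 : ℝ) ≤ e' := Nat.cast_nonneg _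
    have hk : (0 : ℝ) ≤ k := Nat.cast_nonneg _
    have h6 : (k : ℝ) * (ch S (A + 1) : ℝ) ≤ k * (h * (A + 1) + h0') :=
      mul_le_mul_of_nonneg_left h2 hk
    have h9 := mul_nonneg he0 hu
    have h10 : (h * e' + h0') + (f * e + φ) + g * e =
        h * (A + 1) + h0' + (A + 1) * (f + g - h) + φ - e' * (f + g - h) := by
      rw [← he']; ring
    linarith
  · have h1 := castle (g_bound S i i' j j' k)
    push_cast at h1
    have h2 := B.F 0
    have h3 : (cf S 1 : ℝ) ≤ f + φ := by simpa using h2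
    have h4 := mul_le_mul_of_nonneg_left h3 (Nat.cast_nonneg (α := ℝ) k)
    linarith
  · cases k with
    | zero =>
      have h1 := castle (h_zero_bound S i i' j j')
      have h2 := B.G 1
      push_cast at h2 ⊢
      linarith
    | succ k =>
      have h2 := B.H A
      have h3 := B.G 1
      push_cast at h3
      have hk : (0 : ℝ) ≤ k := Nat.cast_nonneg _
      have h4 : (k : ℝ) * ((cg S 1 : ℝ) + (ch S A : ℝ)) ≤ k * (g + h * A + h0') := by
        refine mul_le_mul_of_nonneg_left ?_ hk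
        linarith
      rcases h0 S A i i' j j' hi hj with hb | ⟨D, e', he, hb⟩
      · have h1 := castle (hb k)
        push_cast at h1 ⊢
        linarith
      · have h1 := castle (hb k)
        push_cast at h1
        have he' : (D : ℝ) + e' = A := by exact_mod_cast he
        have he0 : (0 : ℝ) ≤ e' := Nat.cast_nonneg _
        have h5 := B.G (D + 2)
        have h6 := B.F' hφ D
        have h12 := B.H e'
        push_cast at h5
        have h9 := mul_nonneg he0 hu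
        have h10 : g * (D + 2) + (f * D + φ) + (h * e' + h0') =
            g + h * A + h0' + A * (f + g - h) + g + φ - e' * (f + g - h) := by
          rw [← he']; ring
        push_cast
        linarith

/-- the gain -/
theorem gain {S τ₁ τ₂ τ₃ : Fin 3 → List (Fin 3)} {F G H : ℝ} (c01 : (cst S 0 1 : ℝ) ≤ F)
    (c02 : (cst S 0 2 : ℝ) ≤ G) (c12 : (cst S 1 2 : ℝ) ≤ H) (hF : 0 ≤ F) (hG : 0 ≤ G)
    (hH : 0 ≤ H) {a₁ a₂ a₃ : ℕ} (p1 : 1 ≤ a₁) (p2 : 1 ≤ a₂) (p3 : 2 ≤ a₃)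
    (t1 : C3 a₁ a₁ τ₁) (t2 : C3 a₂ a₂ τ₂) (t3 : C3 a₃ a₃ τ₃) (F1 F2 F3 : ℝ)
    (e1 : F1 = a₁ * F + a₁ * G + H) (e2 : F2 = a₂ * F1 + a₂ * F + G)
    (e3 : F3 = a₃ * F2 + a₃ * F1 + F) :
    (cst (comp (comp (comp S τ₁) τ₂) τ₃) 0 1 : ℝ) ≤ F3 - 2 * F := by
  obtain ⟨A1, rfl⟩ : ∃ A1, a₁ = A1 + 1 := ⟨a₁ - 1, by omega⟩
  obtain ⟨A2, rfl⟩ : ∃ A2, a₂ = A2 + 1 := ⟨a₂ - 1, by omega⟩
  obtain ⟨A3, rfl⟩ : ∃ A3, a₃ = A3 + 2 := ⟨a₃ - 2, by omega⟩
  obtain ⟨i, i', j, j', hi, hj, rfl⟩ := t1.shape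
  obtain ⟨k, k', n, n', hk, hn, rfl⟩ := t2.shape
  obtain ⟨p, p', q, q', hp, hq, rfl⟩ := t3.shape
  have q1 : (0 : ℝ) ≤ A1 := Nat.cast_nonneg _
  have q2 : (0 : ℝ) ≤ A2 := Nat.cast_nonneg _
  have q3 : (0 : ℝ) ≤ A3 := Nat.cast_nonneg _
  push_cast at e1 e2 e3
  have B0 := Bn.naive c01 c02 c12
  have B1 := B0.step (le_refl _) (by linarith) A1 i i' j j' hi hj
  obtain ⟨h1, hh1⟩ : ∃ h1 : ℝ, h1 = G + (F + G) * A1 + H := ⟨_, rfl⟩
  have B1' : Bn (comp S (tau i i' j j')) F1 0 F h1 G := by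
    convert B1 using 1
    · rw [e1]; ring
    · ring
    · ring
    · ring
  have hu1 : F1 + F - h1 = 2 * F := by rw [e1, hh1]; ring
  have hh1' : 0 ≤ h1 := by rw [hh1]; positivity
  have B2 := B1'.step (le_refl _) (by rw [hu1]; linarith) A2 k k' n n' hk hn
  rw [hu1] at B2
  obtain ⟨f2, hf2⟩ : ∃ f2 : ℝ, f2 = h1 * (A2 + 1) + G := ⟨_, rfl⟩
  obtain ⟨h2, hh2⟩ : ∃ h2 : ℝ, h2 = F + h1 * A2 + G := ⟨_, rfl⟩
  rw [← hf2, ← hh2, zero_add, add_zero, add_zero] at B2
  -- third step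
  obtain ⟨e, e', he, hb⟩ := f0 (comp (comp S (tau i i' j j')) (tau k k' n n')) (A3 + 2) p p' q q'
    hp hq
  have g1 := castle (hb 0)
  push_cast at g1
  have hcs : cst (comp (comp (comp S (tau i i' j j')) (tau k k' n n')) (tau p p' q q')) 0 1 =
      cf (comp (comp (comp S (tau i i' j j')) (tau k k' n n')) (tau p p' q q')) (0 + 1) :=
    cst_cf' _
  rw [hcs]
  have hF2 : F2 = f2 + 2 * (A2 + 1) * F := by
    rw [e2, hf2, ← sub_eq_zero]
    have : F1 = h1 + 2 * F - F := by linarith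
    rw [this]; ring
  have g3 := B2.F' (by positivity) e
  have g4 := B2.G e
  have hF1 : 0 ≤ F1 := by rw [e1]; positivity
  have hq : 0 ≤ (A3 : ℝ) * (A2 + 1) * F := by positivity
  rcases Nat.eq_zero_or_pos e' with h | h
  · subst h
    have g5 := castle (h_zero_bound (comp S (tau i i' j j')) k k' n n')
    have g6 := B1'.G 1
    have he2 : (e : ℝ) = A3 + 2 := by exact_mod_cast he
    rw [he2] at g3 g4
    push_cast at g6
    have k2 : 0 ≤ (A2 : ℝ) * F := mul_nonneg q2 hF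
    have e4 : F3 - 2 * F = (F * 1) + (f2 * (A3 + 2) + (A2 + 1) * (2 * F)) + F1 * (A3 + 2) +
        (2 * ((A3 : ℝ) * (A2 + 1) * F) + 2 * ((A2 : ℝ) * F)) := by
      rw [e3, hF2]; ring
    rw [e4]
    linarith
  · obtain ⟨e'', rfl⟩ : ∃ e'', e' = e'' + 1 := ⟨e' - 1, by omega⟩
    have g5 := B2.H (e'' + 1)
    push_cast at g5
    have he2 : (e : ℝ) + e'' = A3 + 1 := by
      have : e + e'' = A3 + 1 := by omega
      exact_mod_cast this
    have he0 : (0 : ℝ) ≤ e'' := Nat.cast_nonneg _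
    have hu2 : 0 ≤ f2 + F1 - h2 := by
      have : f2 + F1 - h2 = h1 + F1 - F := by rw [hf2, hh2]; ring
      rw [this]
      linarith
    have k1 := mul_nonneg he0 hu2
    have e4 : F3 - 2 * F = (h2 * (e'' + 1) + (F + A2 * (2 * F))) +
        (f2 * e + (A2 + 1) * (2 * F)) + F1 * e + e'' * (f2 + F1 - h2) +
        (2 * ((A3 : ℝ) * (A2 + 1) * F) + (f2 + F1 - h2)) := by
      have : (e : ℝ) = A3 + 1 - e'' := by linarith
      rw [e3, hF2, this]
      ring
    rw [e4]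
    linarith

end Pool.Agent.H872.PC
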