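import Pool.Agent.H872.PC.Base

/-!
The cost bounds for the exchange of the letters 1 and 2, case `b = a`.
-/

set_option autoImplicit false

namespace Pool.Agent.H872.PC
open Pool.Agent.H812R2.PI Pool.Agent.Q132.PT
open scoped BigOperators

namespace H0L

theorem zz (m n : ℕ) (w : List (Fin 3)) : z m ++ (z n ++ w) = z (m + n) ++ w := by
  unfold z
  rw [← List.append_assoc, List.replicate_append_replicate]

theorem zz' (m n : ℕ) : z m ++ z n = z (m + n) := by
  unfold z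
  rw [List.replicate_append_replicate]

theorem z_one : z 1 = [0] := rfl

theorem z_zero : z 0 = [] := rfl

/-- step of the chain with `B = 2 0^A 1` -/
theorem c1 (S : Fin 3 → List (Fin 3)) (A a : ℕ) (ha : a = A + 1) :
    dS S ((2 :: (z A ++ [1])) ++ (z a ++ [1])) ((1 :: z a) ++ (2 :: (z A ++ [1]))) ≤
      cg S 1 + ch S A := by
  subst ha
  have h1 := ex21 S [] (z (A + 1) ++ [1]) A
  have h2 := mr2 S (1 :: z A) (z A ++ [1]) 1
  have e1 : (2 :: (z A ++ [1])) ++ (z (A + 1) ++ [1]) =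
      [] ++ 2 :: (z A ++ 1 :: (z (A + 1) ++ [1])) := by simp
  have e2 : ([] : List (Fin 3)) ++ 1 :: (z A ++ 2 :: (z (A + 1) ++ [1])) =
      (1 :: z A) ++ 2 :: (z 1 ++ (z A ++ [1])) := by
    simp only [List.nil_append, List.cons_append, zz, Nat.add_comm 1 A]
  have e3 : (1 :: z A) ++ (z 1 ++ 2 :: (z A ++ [1])) =
      (1 :: z (A + 1)) ++ (2 :: (z A ++ [1])) := by
    simp only [List.cons_append, zz]
  rw [e1]
  rw [← e3]
  refine (dS_tri S _ _ _).trans ((Nat.add_le_add h1 ?_).trans (Nat.add_comm _ _).le)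
  rw [e2]
  exact h2

/-- step of the chain with `B = 1 0^A 2` -/
theorem c1' (S : Fin 3 → List (Fin 3)) (A a : ℕ) (ha : a = A + 1) :
    dS S ((1 :: (z A ++ [2])) ++ (z a ++ [1])) ((1 :: z a) ++ (1 :: (z A ++ [2]))) ≤
      cg S 1 + ch S A := by
  subst ha
  have h1 := mr2 S (1 :: z A) (z A ++ [1]) 1
  have h2 := ex21 S (1 :: z (A + 1)) [] A
  have e1 : (1 :: (z A ++ [2])) ++ (z (A + 1) ++ [1]) =
      (1 :: z A) ++ 2 :: (z 1 ++ (z A ++ [1])) := by
    simp only [List.cons_append, List.append_assoc, List.nil_append, zz, Nat.add_comm 1 A]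
  have e2 : (1 :: z A) ++ (z 1 ++ 2 :: (z A ++ [1])) =
      (1 :: z (A + 1)) ++ 2 :: (z A ++ 1 :: []) := by
    simp only [List.cons_append, zz]
  have e3 : (1 :: z (A + 1)) ++ 1 :: (z A ++ 2 :: []) =
      (1 :: z (A + 1)) ++ (1 :: (z A ++ [2])) := by
    simp only [List.cons_append]
  rw [e1]
  rw [← e3]
  refine (dS_tri S _ _ _).trans (Nat.add_le_add h1 ?_)
  rw [e2]
  exact h2

theorem W_perm (a n : ℕ) : (W a n).Perm (W' a n) := by
  induction n with
  | zero => exact List.Perm.refl _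
  | succ n ih =>
    have h1 : W a (n + 1) = (z a ++ [1]) ++ W a n := by
      unfold W
      rw [List.replicate_succ, List.flatten_cons]
    have h2 : W' a (n + 1) = (1 :: z a) ++ W' a n := by
      unfold W'
      rw [List.replicate_succ, List.flatten_cons]
    rw [h1, h2]
    exact (List.perm_append_singleton 1 (z a)).append ih

/-- the chain in a context -/
theorem chain_ctx (S : Fin 3 → List (Fin 3)) (a X : ℕ) (B p s : List (Fin 3))
    (h : dS S (B ++ (z a ++ [1])) ((1 :: z a) ++ B) ≤ X) (n : ℕ) :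
    dS S (p ++ (B ++ (W a n ++ s))) (p ++ (W' a n ++ (B ++ s))) ≤ n * X := by
  have h1 := dS_ctx S p (B ++ W a n) (W' a n ++ B) s
    (List.perm_append_comm.trans ((W_perm a n).append (List.Perm.refl _)))
  rw [List.append_assoc, List.append_assoc] at h1
  exact h1.trans (chain S a X B h n)

theorem ext_cons' (t : Fin 3 → List (Fin 3)) (x : Fin 3) (u : List (Fin 3)) :
    ext t (x :: u) = t x ++ ext t u := by
  simp [ext]

theorem dS_comp (S t : Fin 3 → List (Fin 3)) (u v : List (Fin 3)) :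
    dS (comp S t) u v = dS S (ext t u) (ext t v) := by
  unfold dS
  rw [ext_comp, ext_comp]

/-- the exchange after one more substitution -/
theorem ch_comp (S : Fin 3 → List (Fin 3)) (i i' j j' k : ℕ) :
    ch (comp S (tau i i' j j')) (k + 1) =
      dS S (z j ++ 2 :: (z (j' + i) ++ 1 :: (W (i + i') k ++ z (i' + 1))))
        (z (i + 1) ++ (W' (i + i') k ++ 1 :: (z (i' + j) ++ 2 :: z j'))) := by
  have t1 : tau i i' j j' 1 = z j ++ 2 :: z j' := rfl
  have t2 : tau i i' j j' 2 = z 1 := rfl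
  have h1 : ext (tau i i' j j') (1 :: (z (k + 1) ++ [2])) =
      z j ++ 2 :: (z (j' + i) ++ 1 :: (W (i + i') k ++ z (i' + 1))) := by
    rw [ext_cons', ext_append, (ext_z i i' j j' k).1, ext_cons', t1, t2]
    have h0 : ext (tau i i' j j') [] = [] := by simp [ext]
    rw [h0]
    simp only [List.cons_append, List.append_assoc, List.append_nil, zz, zz']
  have h2 : ext (tau i i' j j') (2 :: (z (k + 1) ++ [1])) =
      z (i + 1) ++ (W' (i + i') k ++ 1 :: (z (i' + j) ++ 2 :: z j')) := by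
    rw [ext_cons', ext_append, (ext_z i i' j j' k).2, ext_cons', t1, t2]
    have h0 : ext (tau i i' j j') [] = [] := by simp [ext]
    rw [h0]
    simp only [List.cons_append, List.append_assoc, List.append_nil, zz, Nat.add_comm 1 i]
  unfold ch
  rw [dS_comp, h1, h2]

end H0L

open H0L

/-- `i = j`, `a = A + 1` -/
theorem h0A (S : Fin 3 → List (Fin 3)) (i i' A k : ℕ) (hA : i + i' = A + 1) :
    ch (comp S (tau i i' i i')) (k + 1) ≤ k * (cg S 1 + ch S A) + 2 * cg S 1 + ch S A := by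
  rw [ch_comp, Nat.add_comm i' i, hA]
  have h1 := mr2 S (z i) (z A ++ 1 :: (W (A + 1) k ++ z (i' + 1))) 1
  have h2 := chain_ctx S (A + 1) _ _ (z (i + 1)) (z (i' + 1)) (c1 S A (A + 1) rfl) k
  have h3 := ex21 S (z (i + 1) ++ W' (A + 1) k) (z (i' + 1)) A
  have h4 := mr2 S (z (i + 1) ++ (W' (A + 1) k ++ 1 :: z A)) (z i') 1
  have e0 : z i ++ 2 :: (z (A + 1) ++ 1 :: (W (A + 1) k ++ z (i' + 1))) =
      z i ++ 2 :: (z 1 ++ (z A ++ 1 :: (W (A + 1) k ++ z (i' + 1)))) := by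
    simp only [zz, Nat.add_comm 1 A]
  have e1 : z i ++ (z 1 ++ 2 :: (z A ++ 1 :: (W (A + 1) k ++ z (i' + 1)))) =
      z (i + 1) ++ ((2 :: (z A ++ [1])) ++ (W (A + 1) k ++ z (i' + 1))) := by
    simp only [zz, List.cons_append, List.append_assoc, List.nil_append]
  have e2 : z (i + 1) ++ (W' (A + 1) k ++ ((2 :: (z A ++ [1])) ++ z (i' + 1))) =
      (z (i + 1) ++ W' (A + 1) k) ++ 2 :: (z A ++ 1 :: z (i' + 1)) := by
    simp only [List.cons_append, List.append_assoc, List.nil_append]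
  have e3 : (z (i + 1) ++ W' (A + 1) k) ++ 1 :: (z A ++ 2 :: z (i' + 1)) =
      (z (i + 1) ++ (W' (A + 1) k ++ 1 :: z A)) ++ 2 :: (z 1 ++ z i') := by
    simp only [List.cons_append, List.append_assoc, zz', Nat.add_comm 1 i']
  have e4 : (z (i + 1) ++ (W' (A + 1) k ++ 1 :: z A)) ++ (z 1 ++ 2 :: z i') =
      z (i + 1) ++ (W' (A + 1) k ++ 1 :: (z (A + 1) ++ 2 :: z i')) := by
    simp only [List.cons_append, List.append_assoc, zz]
  rw [← e4, e0]
  refine (dS_tri S _ _ _).trans ((Nat.add_le_add h1 (?_ : _ ≤ k * (cg S 1 + ch S A) +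
    (ch S A + cg S 1))).trans (by omega))
  rw [e1]
  refine (dS_tri S _ _ _).trans (Nat.add_le_add h2 ?_)
  rw [e2]
  refine (dS_tri S _ _ _).trans (Nat.add_le_add h3 ?_)
  rw [e3]
  exact h4

/-- `i = j + D + 1`, `a = j + D + 1 + i'` -/
theorem h0B (S : Fin 3 → List (Fin 3)) (j D i' k : ℕ) :
    ch (comp S (tau (j + D + 1) i' j (D + 1 + i'))) (k + 1) ≤
      k * (cg S 1 + ch S (j + D + i')) + cg S (D + 2) + cf S D + ch S (j + i') := by
  rw [ch_comp]
  obtain ⟨a, ha⟩ : ∃ a, a = j + D + 1 + i' := ⟨_, rfl⟩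
  rw [← ha]
  have h1 := mr2 S (z j) (z (j + D + i') ++ 1 :: (W a k ++ z (i' + 1))) (D + 2)
  have h2 := chain_ctx S a _ _ (z (j + D + 2)) (z (i' + 1)) (c1 S (j + D + i') a (by omega)) k
  have h3 := ml1 S (z (j + D + 2) ++ (W' a k ++ 2 :: z (j + i'))) (z (i' + 1)) D
  have h4 := ex21 S (z (j + D + 2) ++ W' a k) (z (D + i' + 1)) (j + i')
  have e0 : z j ++ 2 :: (z (D + 1 + i' + (j + D + 1)) ++ 1 :: (W a k ++ z (i' + 1))) =
      z j ++ 2 :: (z (D + 2) ++ (z (j + D + i') ++ 1 :: (W a k ++ z (i' + 1)))) := by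
    simp only [zz]
    rw [show D + 1 + i' + (j + D + 1) = D + 2 + (j + D + i') by omega]
  have e1 : z j ++ (z (D + 2) ++ 2 :: (z (j + D + i') ++ 1 :: (W a k ++ z (i' + 1)))) =
      z (j + D + 2) ++ ((2 :: (z (j + D + i') ++ [1])) ++ (W a k ++ z (i' + 1))) := by
    simp only [zz, List.cons_append, List.append_assoc, List.nil_append, Nat.add_assoc]
  have e2 : z (j + D + 2) ++ (W' a k ++ ((2 :: (z (j + D + i') ++ [1])) ++ z (i' + 1))) =
      (z (j + D + 2) ++ (W' a k ++ 2 :: z (j + i'))) ++ (z D ++ 1 :: z (i' + 1)) := by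
    simp only [List.cons_append, List.append_assoc, List.nil_append, zz]
    rw [show j + i' + D = j + D + i' by omega]
  have e3 : (z (j + D + 2) ++ (W' a k ++ 2 :: z (j + i'))) ++ 1 :: (z D ++ z (i' + 1)) =
      (z (j + D + 2) ++ W' a k) ++ 2 :: (z (j + i') ++ 1 :: z (D + i' + 1)) := by
    simp only [List.cons_append, List.append_assoc, zz', Nat.add_assoc]
  have e4 : (z (j + D + 2) ++ W' a k) ++ 1 :: (z (j + i') ++ 2 :: z (D + i' + 1)) =
      z (j + D + 1 + 1) ++ (W' a k ++ 1 :: (z (i' + j) ++ 2 :: z (D + 1 + i'))) := by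
    simp only [List.append_assoc]
    rw [show i' + j = j + i' by omega, show D + 1 + i' = D + i' + 1 by omega]
  rw [← e4, e0]
  refine (dS_tri S _ _ _).trans ((Nat.add_le_add h1 (?_ : _ ≤ k * (cg S 1 + ch S (j + D + i')) +
    (cf S D + ch S (j + i')))).trans (by omega))
  rw [e1]
  refine (dS_tri S _ _ _).trans (Nat.add_le_add h2 ?_)
  rw [e2]
  refine (dS_tri S _ _ _).trans (Nat.add_le_add h3 ?_)
  rw [e3]
  exact h4

/-- `j = i + D + 1`, `a = i + D + 1 + j'` -/
theorem h0C (S : Fin 3 → List (Fin 3)) (i D j' k : ℕ) :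
    ch (comp S (tau i (D + 1 + j') (i + D + 1) j')) (k + 1) ≤
      k * (cg S 1 + ch S (i + D + j')) + cg S (D + 2) + cf S D + ch S (i + j') := by
  rw [ch_comp]
  obtain ⟨a, ha⟩ : ∃ a, a = i + (D + 1 + j') := ⟨_, rfl⟩
  rw [← ha]
  have h1 := ex21 S (z (i + D + 1)) (W a k ++ z (D + 1 + j' + 1)) (j' + i)
  have h2 := ml1 S (z (i + 1)) (z (j' + i) ++ 2 :: (W a k ++ z (D + 1 + j' + 1))) D
  have h3 := chain_ctx S a _ _ (z (i + 1)) (z (D + 1 + j' + 1)) (c1' S (i + D + j') a (by omega)) k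
  have h4 := mr2 S (z (i + 1) ++ (W' a k ++ 1 :: z (i + D + j'))) (z j') (D + 2)
  have e1 : z (i + D + 1) ++ 1 :: (z (j' + i) ++ 2 :: (W a k ++ z (D + 1 + j' + 1))) =
      z (i + 1) ++ (z D ++ 1 :: (z (j' + i) ++ 2 :: (W a k ++ z (D + 1 + j' + 1)))) := by
    simp only [zz]
    rw [show i + 1 + D = i + D + 1 by omega]
  have e2 : z (i + 1) ++ 1 :: (z D ++ (z (j' + i) ++ 2 :: (W a k ++ z (D + 1 + j' + 1)))) =
      z (i + 1) ++ ((1 :: (z (i + D + j') ++ [2])) ++ (W a k ++ z (D + 1 + j' + 1))) := by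
    simp only [zz, List.cons_append, List.append_assoc, List.nil_append]
    rw [show D + (j' + i) = i + D + j' by omega]
  have e3 : z (i + 1) ++ (W' a k ++ ((1 :: (z (i + D + j') ++ [2])) ++ z (D + 1 + j' + 1))) =
      (z (i + 1) ++ (W' a k ++ 1 :: z (i + D + j'))) ++ 2 :: (z (D + 2) ++ z j') := by
    simp only [List.cons_append, List.append_assoc, List.nil_append, zz']
    rw [show D + 2 + j' = D + 1 + j' + 1 by omega]
  have e4 : (z (i + 1) ++ (W' a k ++ 1 :: z (i + D + j'))) ++ (z (D + 2) ++ 2 :: z j') =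
      z (i + 1) ++ (W' a k ++ 1 :: (z (D + 1 + j' + (i + D + 1)) ++ 2 :: z j')) := by
    simp only [List.cons_append, List.append_assoc, zz]
    rw [show i + D + j' + (D + 2) = D + 1 + j' + (i + D + 1) by omega]
  rw [← e4]
  refine (dS_tri S _ _ _).trans ((Nat.add_le_add h1 (?_ : _ ≤ cf S D +
    (k * (cg S 1 + ch S (i + D + j')) + cg S (D + 2)))).trans
      (by rw [Nat.add_comm j' i]; omega))
  rw [e1]
  refine (dS_tri S _ _ _).trans (Nat.add_le_add h2 ?_)
  rw [e2]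
  refine (dS_tri S _ _ _).trans (Nat.add_le_add h3 ?_)
  rw [e3]
  exact h4

end Pool.Agent.H872.PC
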