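import Pool.Agent.H872.PC.Base

/-!
Cost bounds h1A and h1B.
-/

set_option autoImplicit false

namespace Pool.Agent.H872.PC
open Pool.Agent.H812R2.PI Pool.Agent.Q132.PT
open scoped BigOperators

namespace H1L

theorem zz (m n : ℕ) (l : List (Fin 3)) : z m ++ (z n ++ l) = z (m + n) ++ l := by
  unfold z
  rw [← List.append_assoc, ← List.replicate_add]

theorem zz' (m n : ℕ) : z m ++ z n = z (m + n) := by
  unfold z
  rw [← List.replicate_add]

theorem W_succ (a n : ℕ) : W a (n + 1) = z a ++ 1 :: W a n := by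
  unfold W
  rw [List.replicate_succ, List.flatten_cons, List.append_assoc]
  rfl

theorem W'_succ (a n : ℕ) : W' a (n + 1) = 1 :: (z a ++ W' a n) := by
  unfold W'
  rw [List.replicate_succ, List.flatten_cons]
  rfl

theorem W_comm (a n : ℕ) (l : List (Fin 3)) :
    z a ++ 1 :: (W a n ++ l) = W a n ++ (z a ++ 1 :: l) := by
  induction n with
  | zero => rfl
  | succ n ih =>
    rw [W_succ, List.append_assoc, List.cons_append, ih, List.append_assoc, List.cons_append]

theorem W'_comm (a n : ℕ) (l : List (Fin 3)) :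
    1 :: (z a ++ (W' a n ++ l)) = W' a n ++ 1 :: (z a ++ l) := by
  induction n with
  | zero => rfl
  | succ n ih =>
    rw [W'_succ, List.cons_append, List.append_assoc, ih, List.cons_append, List.append_assoc]

theorem WW'_perm (a n : ℕ) : (W a n).Perm (W' a n) := by
  induction n with
  | zero => exact List.Perm.refl _
  | succ n ih =>
    rw [W_succ, W'_succ]
    exact List.perm_middle.trans ((ih.append_left (z a)).cons 1)

/-- the repeated step in a context -/
theorem chain2 (S : Fin 3 → List (Fin 3)) (a k : ℕ) (p s : List (Fin 3)) :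
    dS S (p ++ 2 :: (W a k ++ s)) (p ++ (W' a k ++ 2 :: s)) ≤ k * ch S a := by
  have h1 : dS S ([2] ++ (z a ++ [1])) ((1 :: z a) ++ [2]) ≤ ch S a := ex21 S [] [] a
  have h2 := chain S a (ch S a) [2] h1 k
  have h3 : ([2] ++ W a k).Perm (W' a k ++ [2]) :=
    ((WW'_perm a k).cons 2).trans (List.perm_append_singleton 2 (W' a k)).symm
  have h4 := (dS_ctx S p ([2] ++ W a k) (W' a k ++ [2]) s h3).trans h2
  have e1 : ([2] ++ W a k) ++ s = 2 :: (W a k ++ s) := rfl
  have e2 : (W' a k ++ [2]) ++ s = W' a k ++ 2 :: s := by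
    rw [List.append_assoc]; rfl
  rw [e1, e2] at h4
  exact h4

/-- the source word -/
theorem src (i i' j j' k : ℕ) :
    ext (tau i i' j j') (1 :: (z (k + 1) ++ [2])) =
      z j ++ 2 :: (z (j' + i) ++ 1 :: (W (i + i') k ++ z (i' + 1))) := by
  rw [ext_cons, ext_append, (ext_z i i' j j' k).1]
  have h1 : tau i i' j j' 1 = z j ++ 2 :: z j' := rfl
  have h2 : ext (tau i i' j j') [2] = z 1 := rfl
  rw [h1, h2]
  simp only [List.append_assoc, List.cons_append, zz, zz']

/-- the target word -/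
theorem tgt (i i' j j' k : ℕ) :
    ext (tau i i' j j') (2 :: (z (k + 1) ++ [1])) =
      z (1 + i) ++ (W' (i + i') k ++ 1 :: (z (i' + j) ++ 2 :: z j')) := by
  rw [ext_cons, ext_append, (ext_z i i' j j' k).2]
  have h1 : ext (tau i i' j j') [1] = z j ++ 2 :: z j' := by
    rw [ext_cons]
    have h3 : tau i i' j j' 1 = z j ++ 2 :: z j' := rfl
    have h4 : ext (tau i i' j j') [] = [] := rfl
    rw [h3, h4, List.append_nil]
  have h2 : tau i i' j j' 2 = z 1 := rfl
  rw [h1, h2]
  simp only [List.append_assoc, List.cons_append, zz]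

theorem ch_comp (S : Fin 3 → List (Fin 3)) (i i' j j' k : ℕ) :
    ch (comp S (tau i i' j j')) (k + 1) =
      dS S (z j ++ 2 :: (z (j' + i) ++ 1 :: (W (i + i') k ++ z (i' + 1))))
        (z (1 + i) ++ (W' (i + i') k ++ 1 :: (z (i' + j) ++ 2 :: z j'))) := by
  rw [← src, ← tgt]
  unfold ch dS
  rw [ext_comp, ext_comp]

end H1L

open H1L

theorem h1A (S : Fin 3 → List (Fin 3)) (j e i' k : ℕ) :
    ch (comp S (tau (j + e) i' j (e + i' + 1))) (k + 1) ≤
      k * ch S (j + e + i') + cg S (e + 1) + cf S e + ch S (j + i') := by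
  rw [ch_comp]
  set a := j + e + i' with ha
  -- move 2 to the right
  have s1 := mr2 S (z j) (z a ++ 1 :: (W a k ++ z (i' + 1))) (e + 1)
  -- the repeated step
  have s2 := chain2 S a k (z (j + (e + 1))) (z a ++ 1 :: z (i' + 1))
  -- move 1 to the left
  have s3 := ml1 S (z (j + (e + 1)) ++ (W' a k ++ 2 :: z (j + i'))) (z (i' + 1)) e
  -- exchange
  have s4 := ex21 S (z (j + (e + 1)) ++ W' a k) (z e ++ z (i' + 1)) (j + i')
  have w0 : z j ++ 2 :: (z (e + i' + 1 + (j + e)) ++ 1 :: (W a k ++ z (i' + 1))) =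
      z j ++ 2 :: (z (e + 1) ++ (z a ++ 1 :: (W a k ++ z (i' + 1)))) := by
    rw [zz, show e + i' + 1 + (j + e) = e + 1 + a by omega]
  have w1 : z j ++ (z (e + 1) ++ 2 :: (z a ++ 1 :: (W a k ++ z (i' + 1)))) =
      z (j + (e + 1)) ++ 2 :: (W a k ++ (z a ++ 1 :: z (i' + 1))) := by
    rw [zz, W_comm]
  have w2 : z (j + (e + 1)) ++ (W' a k ++ 2 :: (z a ++ 1 :: z (i' + 1))) =
      (z (j + (e + 1)) ++ (W' a k ++ 2 :: z (j + i'))) ++ (z e ++ 1 :: z (i' + 1)) := by
    simp only [List.append_assoc, List.cons_append, zz]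
    rw [show j + i' + e = a by omega]
  have w3 : (z (j + (e + 1)) ++ (W' a k ++ 2 :: z (j + i'))) ++ 1 :: (z e ++ z (i' + 1)) =
      (z (j + (e + 1)) ++ W' a k) ++ 2 :: (z (j + i') ++ 1 :: (z e ++ z (i' + 1))) := by
    simp only [List.append_assoc, List.cons_append]
  have w4 : (z (j + (e + 1)) ++ W' a k) ++ 1 :: (z (j + i') ++ 2 :: (z e ++ z (i' + 1))) =
      z (1 + (j + e)) ++ (W' a k ++ 1 :: (z (i' + j) ++ 2 :: z (e + i' + 1))) := by
    rw [zz', List.append_assoc, show j + (e + 1) = 1 + (j + e) by omega,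
      show j + i' = i' + j by omega, show e + (i' + 1) = e + i' + 1 by omega]
  rw [← w0, w1] at s1
  rw [w2] at s2
  rw [w3] at s3
  rw [w4] at s4
  have t1 := (dS_tri S _ _ _).trans (Nat.add_le_add s1 s2)
  have t2 := (dS_tri S _ _ _).trans (Nat.add_le_add t1 s3)
  have t3 := (dS_tri S _ _ _).trans (Nat.add_le_add t2 s4)
  refine t3.trans (le_of_eq ?_)
  ring

theorem h1B (S : Fin 3 → List (Fin 3)) (i e j' k : ℕ) :
    ch (comp S (tau i (e + j') (i + e + 1) j')) (k + 1) ≤
      k * ch S (i + e + j') + cg S (e + 1) + cf S e + ch S (i + j') := by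
  rw [ch_comp, show i + (e + j') = i + e + j' by omega]
  set a := i + e + j' with ha
  -- exchange
  have s1 := ex21 S (z (i + e + 1)) (W a k ++ z (e + j' + 1)) (i + j')
  -- move 1 to the left
  have s2 := ml1 S (z (i + 1)) (z (i + j') ++ 2 :: (W a k ++ z (e + j' + 1))) e
  -- the repeated step
  have s3 := chain2 S a k (z (i + 1) ++ 1 :: z a) (z (e + j' + 1))
  -- move 2 to the right
  have s4 := mr2 S (z (i + 1) ++ (W' a k ++ 1 :: z a)) (z j') (e + 1)
  have w0 : z (i + e + 1) ++ 2 :: (z (j' + i) ++ 1 :: (W a k ++ z (e + j' + 1))) =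
      z (i + e + 1) ++ 2 :: (z (i + j') ++ 1 :: (W a k ++ z (e + j' + 1))) := by
    rw [show j' + i = i + j' by omega]
  have w1 : z (i + e + 1) ++ 1 :: (z (i + j') ++ 2 :: (W a k ++ z (e + j' + 1))) =
      z (i + 1) ++ (z e ++ 1 :: (z (i + j') ++ 2 :: (W a k ++ z (e + j' + 1)))) := by
    rw [zz, show i + 1 + e = i + e + 1 by omega]
  have w2 : z (i + 1) ++ 1 :: (z e ++ (z (i + j') ++ 2 :: (W a k ++ z (e + j' + 1)))) =
      (z (i + 1) ++ 1 :: z a) ++ 2 :: (W a k ++ z (e + j' + 1)) := by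
    rw [zz, List.append_assoc, List.cons_append, show e + (i + j') = a by omega]
  have w3 : (z (i + 1) ++ 1 :: z a) ++ (W' a k ++ 2 :: z (e + j' + 1)) =
      (z (i + 1) ++ (W' a k ++ 1 :: z a)) ++ 2 :: (z (e + 1) ++ z j') := by
    rw [zz', List.append_assoc, List.cons_append, W'_comm, List.append_assoc, List.append_assoc,
      List.cons_append, show e + 1 + j' = e + j' + 1 by omega]
  have w4 : (z (i + 1) ++ (W' a k ++ 1 :: z a)) ++ (z (e + 1) ++ 2 :: z j') =
      z (1 + i) ++ (W' a k ++ 1 :: (z (e + j' + (i + e + 1)) ++ 2 :: z j')) := by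
    simp only [List.append_assoc, List.cons_append, zz]
    rw [show i + 1 = 1 + i by omega, show e + j' + (i + e + 1) = a + (e + 1) by omega]
  rw [← w0, w1] at s1
  rw [w2] at s2
  rw [w3] at s3
  rw [w4] at s4
  have t1 := (dS_tri S _ _ _).trans (Nat.add_le_add s1 s2)
  have t2 := (dS_tri S _ _ _).trans (Nat.add_le_add t1 s3)
  have t3 := (dS_tri S _ _ _).trans (Nat.add_le_add t2 s4)
  refine t3.trans (le_of_eq ?_)
  ring

end Pool.Agent.H872.PC
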