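import Pool.Agent.H872.PC.BPDefs

/-! Certificate tree. -/

set_option autoImplicit false
set_option maxRecDepth 100000

namespace Pool.Agent.H872.PC

def t11 : Tr :=
(.node (.node (.node (.node (.node (.node .leaf 17 20 111 .leaf) 18 24 72 .leaf) 22 25 50 (.node
.leaf 70 88 137 .leaf)) 73 100 137 (.node (.node .leaf 82 97 106 .leaf) 262 385 172 (.node .leaf
274 385 167 .leaf))) 274 388 172 (.node (.node (.node .leaf 280 385 181 .leaf) 289 322 191 (.node
.leaf 292 322 181 .leaf)) 322 388 167 (.node (.node .leaf 322 400 172 .leaf) 328 385 191 (.node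
.leaf 1048 1537 242 .leaf)))) 1060 1282 227 (.node (.node (.node (.node (.node .leaf 1094 1409 217
.leaf) 1120 1537 227 .leaf) 1168 1282 242 (.node .leaf 1289 1604 217 .leaf)) 4358 6161 268 (.node
(.node .leaf 4370 6161 263 .leaf) 4370 6209 268 (.node .leaf 4376 5633 307 .leaf))) 4676 5129 307
(.node (.node (.node .leaf 5138 6212 268 .leaf) 5186 6212 263 (.node .leaf 5186 6404 268 .leaf))
16664 24641 326 (.node (.node .leaf 18704 20546 326 .leaf) 69912 90129 391 (.node .leaf 74820
82953 391 .leaf)))))

theorem chkA11 : chkA (10 ^ 9) 9 5 t11 1 1 = true := by decide +kernel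

theorem chk011 : t11.all (chk0 (10 ^ 9) 9 5) = true := by decide +kernel

end Pool.Agent.H872.PC
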