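import Pool.Agent.H872.PC.T23

/-! Check of the certificate tree. -/

set_option autoImplicit false
set_option maxRecDepth 100000

namespace Pool.Agent.H872.PC

theorem chk23b : ((List.range 4).all fun j => t23.all (chk1 (10 ^ 9) 3 1 t23 1 (2 - 1) j (3 - j))) =
    true := by decide +kernel

end Pool.Agent.H872.PC
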