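import Pool.Agent.H872.PC.BPMain
import Pool.Agent.H872.PC.BP5
import Pool.Agent.H872.PC.GT
import Pool.Agent.H872.PC.C34
import Pool.Agent.H872.PC.T11
import Pool.Agent.H872.PC.T12
import Pool.Agent.H872.PC.T23a
import Pool.Agent.H872.PC.T23b
import Pool.Agent.H872.PC.T23c

/-!
Cubic companion substitutions: the theorem.
-/

set_option autoImplicit false

namespace Pool.Agent.H872.PC
open Pool.Agent.H812R2.PI Pool.Agent.Q132.PT
open scoped BigOperators

theorem chkA23 : chkA (10 ^ 9) 3 1 t23 2 3 = true := by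
  unfold chkA
  rw [List.all_eq_true]
  intro i hi
  rw [List.mem_range] at hi
  interval_cases i
  · exact chk23a
  · exact chk23b
  · exact chk23c

theorem main34 (l : List (Fin 3 → List (Fin 3))) (hne : l ≠ [])
    (hl : ∀ τ ∈ l, C3 3 4 τ) : PisotMat (inc (compList l)) ∧ SemiConjToral (compList l) := by
  obtain ⟨C, hC⟩ := cost34
  refine engine 3 4 (by omega) (by omega) 4 (by norm_num) (by norm_num) C (fun _ => True)
    (fun l hl x y => ?_) l hne fun τ hτ => ⟨hl τ hτ, trivial⟩
  obtain ⟨h1, h2, h3⟩ := hC l fun τ hτ => (hl τ hτ).1.shape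
  exact cst_le _ _ ((Nat.cast_nonneg _).trans h1) h1 h2 h3 x y

theorem main11 (l : List (Fin 3 → List (Fin 3))) (hne : l ≠ [])
    (hl : ∀ τ ∈ l, C3 1 1 τ) : PisotMat (inc (compList l)) ∧ SemiConjToral (compList l) :=
  main_tree 1 1 (by omega) (by omega) (10 ^ 9) 9 5 (by omega) (by omega) (by norm_num) t11 chk011
    chkA11 (by decide +kernel) (by decide +kernel) (by decide +kernel) l hne hl

theorem main12 (l : List (Fin 3 → List (Fin 3))) (hne : l ≠ [])
    (hl : ∀ τ ∈ l, C3 1 2 τ) : PisotMat (inc (compList l)) ∧ SemiConjToral (compList l) :=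
  main_tree 1 2 (by omega) (by omega) (10 ^ 9) 53 25 (by omega) (by omega) (by norm_num) t12 chk012
    chkA12 (by decide +kernel) (by decide +kernel) (by decide +kernel) l hne hl

theorem main23 (l : List (Fin 3 → List (Fin 3))) (hne : l ≠ [])
    (hl : ∀ τ ∈ l, C3 2 3 τ) : PisotMat (inc (compList l)) ∧ SemiConjToral (compList l) :=
  main_tree 2 3 (by omega) (by omega) (10 ^ 9) 3 1 (by omega) (by omega) (by norm_num) t23 chk023
    chkA23 (by decide +kernel) (by decide +kernel) (by decide +kernel) l hne hl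

theorem main_all (a b : ℕ) (ha : 1 ≤ a + b) (hb : b ≤ a + 1)
    (l : List (Fin 3 → List (Fin 3))) (hne : l ≠ []) (hl : ∀ τ ∈ l, C3 a b τ) :
    PisotMat (inc (compList l)) ∧ SemiConjToral (compList l) := by
  rcases lt_or_ge b a with h | h
  · exact mainGT a b h l hne hl
  · rcases (show b = a ∨ b = a + 1 by omega) with rfl | rfl
    · rcases (show b = 1 ∨ 2 ≤ b by omega) with rfl | h2
      · exact main11 l hne hl
      · exact main0 b h2 l hne hl
    · rcases (show a = 0 ∨ a = 1 ∨ a = 2 ∨ a = 3 ∨ 4 ≤ a by omega) with rfl | rfl | rfl | rfl | h4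
      · exact main01 l hne hl
      · exact main12 l hne hl
      · exact main23 l hne hl
      · exact main34 l hne hl
      · exact main1 a h4 l hne hl

end Pool.Agent.H872.PC
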