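import Mathlib

/-!
Mixed compositions with `b ≤ a`: the arithmetic of the invariant.
-/

set_option autoImplicit false

namespace Pool.Agent.H872.PC

/-- the invariant -/
structure Re2 (A R K F G H L0 L1 L2 : ℝ) : Prop where
  Fp : 0 < F
  Gp : 0 < G
  Hp : 0 < H
  HF : H ≤ F
  FG : F ≤ (A + 1) * (G + H)
  GF : G ≤ (A + 1) * F
  HG : H ≤ (A + 1) * G
  GH : G ≤ R * H
  p0 : 0 < L0
  p1 : 0 < L1
  p2 : 0 < L2
  l20 : L2 ≤ L0
  l10 : L1 ≤ (A + 1) * L0
  u1 : 0 ≤ K * L0 - F - G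
  u2 : 0 ≤ K * L2 - G - H
  u3 : 0 ≤ K * (L0 + L1) - 2 * F - G - H
  u4 : H ≤ R * (K * L0 - 2 * G)
  u5 : H ≤ R * (K * (L0 + L1 + L2) - F - 3 * G - 2 * H)

theorem Re2.step2 {A R K F G H L0 L1 L2 : ℝ} (h : Re2 A R K F G H L0 L1 L2) (a b : ℝ)
    (hb : b = 0 ∨ 1 ≤ b) (hab : b ≤ a) (ha1 : 1 ≤ a) (haA : a ≤ A)
    (hR : R = (A + 1) * (A + 2)) (e D : ℝ)
    (he1 : e ≤ K * L0 - F - G) (he3 : e ≤ K * (L0 + L1) - 2 * F - G - H)
    (he5 : e ≤ K * (L0 + L1 + L2) - F - 3 * G - 2 * H) (hD : 0 ≤ D)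
    (hDe : D * ((a * L0 + L1) + (b * L0 + L2) + L0) ≤ e) :
    Re2 A R (K - D) (b * F + a * G + H) F G (a * L0 + L1) (b * L0 + L2) L0 := by
  obtain ⟨Fp, Gp, Hp, HF, FG, GF, HG, GH, p0, p1, p2, l20, l10, u1, u2, u3, u4, u5⟩ := h
  have hb0 : 0 ≤ b := by rcases hb with h | h <;> linarith
  have ha0 : 0 ≤ a := by linarith
  have hA1 : 1 ≤ A := by linarith
  have hA0 : 0 ≤ A := by linarith
  have hR1 : 1 ≤ R := by
    rw [hR]
    nlinarith
  have hR0 : 0 < R := by linarith
  have hbF : 0 ≤ b * F := mul_nonneg hb0 Fp.le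
  have hbG : 0 ≤ b * G := mul_nonneg hb0 Gp.le
  have haG : G ≤ a * G := by
    have := mul_le_mul_of_nonneg_right ha1 Gp.le
    linarith
  have haF : 0 ≤ (a - 1) * F := mul_nonneg (by linarith) Fp.le
  have hkF : 0 ≤ (a - b) * F := mul_nonneg (by linarith) Fp.le
  have hbL : 0 ≤ b * L0 := mul_nonneg hb0 p0.le
  have haL : L0 ≤ a * L0 := by
    have := mul_le_mul_of_nonneg_right ha1 p0.le
    linarith
  have hu4 : 0 ≤ K * L0 - 2 * G := by
    by_contra hcon
    rw [not_le] at hcon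
    have := mul_neg_of_pos_of_neg hR0 hcon
    linarith
  have hRG : F ≤ (A + 1) * (A + 2) * G := by
    have h1 : (A + 1) * (G + H) ≤ (A + 1) * (G + (A + 1) * G) :=
      mul_le_mul_of_nonneg_left (by linarith) (by linarith)
    linarith
  have D0 : 0 ≤ D * (a * L0 + L1) := mul_nonneg hD (by linarith)
  have D1 : 0 ≤ D * (b * L0 + L2) := mul_nonneg hD (by linarith)
  have D2 : 0 ≤ D * L0 := mul_nonneg hD p0.le
  have DD : D * (a * L0 + L1) + D * (b * L0 + L2) + D * L0 ≤ e := by linarith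
  have aU1 : 0 ≤ (a - 1) * (K * L0 - F - G) := mul_nonneg (by linarith) u1
  refine ⟨by linarith, Fp, Gp, by linarith, ?_, ?_, GF, ?_, by linarith, by linarith,
    p0, by linarith, ?_, ?_, ?_, ?_, ?_, ?_⟩
  · have h1 : b * F ≤ A * F := mul_le_mul_of_nonneg_right (by linarith) Fp.le
    have h2 : a * G ≤ A * G := mul_le_mul_of_nonneg_right haA Gp.le
    linarith
  · have h1 : (A + 1) * (G + H) ≤ (A + 1) * (b * F + a * G + H) :=
      mul_le_mul_of_nonneg_left (by linarith) (by linarith)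
    linarith
  · rw [hR]
    exact hRG
  · -- L1' ≤ (A+1) L0'
    have h1 : b * L0 ≤ A * L0 := mul_le_mul_of_nonneg_right (by linarith) p0.le
    have h2 : (A + 1) * L0 ≤ (A + 1) * (a * L0 + L1) :=
      mul_le_mul_of_nonneg_left (by linarith) (by linarith)
    linarith
  · -- u1'
    have e1 : (K - D) * (a * L0 + L1) - (b * F + a * G + H) - F =
        (a - 1) * (K * L0 - F - G) + (K * (L0 + L1) - 2 * F - G - H) + (a - b) * F -
          D * (a * L0 + L1) := by ring
    rw [e1]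
    linarith
  · -- u2'
    have e1 : (K - D) * L0 - F - G = (K * L0 - F - G) - D * L0 := by ring
    rw [e1]
    linarith
  · -- u3'
    rcases hb with hb | hb
    · subst hb
      have e1 : (K - D) * (a * L0 + L1 + (0 * L0 + L2)) - 2 * (0 * F + a * G + H) - F - G =
          (a - 1) * (K * L0 - 2 * G) + (K * (L0 + L1 + L2) - F - 3 * G - 2 * H) -
            D * (a * L0 + L1) - D * (0 * L0 + L2) := by ring
      rw [e1]
      have h1 : 0 ≤ (a - 1) * (K * L0 - 2 * G) := mul_nonneg (by linarith) hu4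
      linarith
    · have e1 : (K - D) * (a * L0 + L1 + (b * L0 + L2)) - 2 * (b * F + a * G + H) - F - G =
          (a - b) * (K * L0 - 2 * G) + (2 * b - 1) * (K * L0 - F - G) +
            (K * (L0 + L1) - 2 * F - G - H) + (K * L2 - G - H) -
            D * (a * L0 + L1) - D * (b * L0 + L2) := by ring
      rw [e1]
      have h1 : 0 ≤ (a - b) * (K * L0 - 2 * G) := mul_nonneg (by linarith) hu4
      have h2 : 0 ≤ (2 * b - 1) * (K * L0 - F - G) := mul_nonneg (by linarith) u1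
      linarith
  · -- u4'
    have e1 : (K - D) * (a * L0 + L1) - 2 * F =
        (a - 1) * (K * L0 - F - G) + (K * (L0 + L1) - 2 * F - G - H) + (a - 1) * F + a * G + H -
          D * (a * L0 + L1) := by ring
    rw [e1]
    have h1 : G ≤ (a - 1) * (K * L0 - F - G) + (K * (L0 + L1) - 2 * F - G - H) + (a - 1) * F +
        a * G + H - D * (a * L0 + L1) := by linarith
    have h2 : R * G ≤ R * ((a - 1) * (K * L0 - F - G) + (K * (L0 + L1) - 2 * F - G - H) +
        (a - 1) * F + a * G + H - D * (a * L0 + L1)) := mul_le_mul_of_nonneg_left h1 hR0.le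
    have h3 : 1 * G ≤ R * G := mul_le_mul_of_nonneg_right hR1 Gp.le
    linarith
  · -- u5'
    have e1 : (K - D) * (a * L0 + L1 + (b * L0 + L2) + L0) - (b * F + a * G + H) - 3 * F - 2 * G =
        (a - 1) * (K * L0 - F - G) + b * (K * L0 - F - G) + (K * L0 - F - G) +
          (K * (L0 + L1) - 2 * F - G - H) + (K * L2 - G - H) + (a - 1) * F + b * G + H -
          D * ((a * L0 + L1) + (b * L0 + L2) + L0) := by ring
    rw [e1]
    have h0 : 0 ≤ b * (K * L0 - F - G) := mul_nonneg hb0 u1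
    have h1 : H ≤ (a - 1) * (K * L0 - F - G) + b * (K * L0 - F - G) + (K * L0 - F - G) +
          (K * (L0 + L1) - 2 * F - G - H) + (K * L2 - G - H) + (a - 1) * F + b * G + H -
          D * ((a * L0 + L1) + (b * L0 + L2) + L0) := by linarith
    have h2 := mul_le_mul_of_nonneg_left h1 hR0.le
    linarith

theorem Re2.u5' {A R K F G H L0 L1 L2 : ℝ} (h : Re2 A R K F G H L0 L1 L2) (hR : 0 < R) :
    0 ≤ K * (L0 + L1 + L2) - F - 3 * G - 2 * H := by
  by_contra hcon
  rw [not_le] at hcon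
  have h1 := mul_neg_of_pos_of_neg hR hcon
  have h2 := h.u5
  have h3 := h.Hp
  linarith

theorem Re2.step {A R K F G H L0 L1 L2 : ℝ} (h : Re2 A R K F G H L0 L1 L2) (a b : ℝ)
    (hb : b = 0 ∨ 1 ≤ b) (hab : b ≤ a) (ha1 : 1 ≤ a) (haA : a ≤ A)
    (hR : R = (A + 1) * (A + 2)) :
    Re2 A R K (b * F + a * G + H) F G (a * L0 + L1) (b * L0 + L2) L0 := by
  have hR0 : 0 < R := by
    rw [hR]
    have : 0 ≤ A := by linarith
    positivity
  have := h.step2 a b hb hab ha1 haA hR 0 0 h.u1 h.u3 (h.u5' hR0) (le_refl _) (by simp)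
  rw [sub_zero] at this
  exact this

theorem Re2.pair {A R K F G H L0 L1 L2 : ℝ} (h : Re2 A R K F G H L0 L1 L2) (a b a' b' Z W : ℝ)
    (hb : b = 0 ∨ 1 ≤ b) (hab : b + 1 ≤ a) (haA : a ≤ A)
    (hb' : b' = 0 ∨ 1 ≤ b') (hab' : b' ≤ a') (ha1' : 1 ≤ a') (haA' : a' ≤ A)
    (hR : R = (A + 1) * (A + 2)) (hK : 0 ≤ K)
    (hZ : Z = (A + 4) + R * ((A + 1) * (R + 1) + 3 * R + 2) + 1)
    (hW : W = (A + 3) * (2 * A + 1) ^ 2) :
    Re2 A R ((1 - 1 / (Z * W)) * K) (b' * (b * F + a * G + H) + a' * F + G) (b * F + a * G + H) F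
      (a' * (a * L0 + L1) + (b * L0 + L2)) (b' * (a * L0 + L1) + L0) (a * L0 + L1) := by
  have hb0 : 0 ≤ b := by rcases hb with h | h <;> linarith
  have hb0' : 0 ≤ b' := by rcases hb' with h | h <;> linarith
  have hA1 : 1 ≤ A := by linarith
  have hA0 : 0 ≤ A := by linarith
  have hR1 : 1 ≤ R := by
    rw [hR]
    nlinarith
  have hR0 : 0 < R := by linarith
  have hZ0 : 0 < Z := by rw [hZ]; positivity
  have hW0 : 0 < W := by rw [hW]; positivity
  have h1 := h.step a b hb (by linarith) (by linarith) haA hR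
  have hu5 := h.u5' hR0
  obtain ⟨Fp, Gp, Hp, HF, FG, GF, HG, GH, p0, p1, p2, l20, l10, u1, u2, u3, u4, u5⟩ := h
  have hu4 : 0 ≤ K * L0 - 2 * G := by
    by_contra hcon
    rw [not_le] at hcon
    have := mul_neg_of_pos_of_neg hR0 hcon
    linarith
  have hKL1 : 0 ≤ K * L1 := mul_nonneg hK p1.le
  have hKL2 : 0 ≤ K * L2 := mul_nonneg hK p2.le
  obtain ⟨T, hT⟩ : ∃ T : ℝ, T = (A + 1) * (R + 1) + 3 * R + 2 := ⟨_, rfl⟩
  have hT0 : 0 < T := by rw [hT]; positivity
  rw [← hT] at hZ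
  -- comparison
  have hFH : F + 3 * G + 2 * H ≤ T * H := by
    have k1 : (A + 1) * (G + H) ≤ (A + 1) * (R * H + H) :=
      mul_le_mul_of_nonneg_left (by linarith) (by linarith)
    rw [hT]
    linarith
  have hRT : 1 ≤ R * T := by
    have k1 : 1 ≤ T := by rw [hT]; nlinarith
    nlinarith
  have hRTH : T * H ≤ R * T * H := by
    have k1 : 1 * (T * H) ≤ R * (T * H) := mul_le_mul_of_nonneg_right hR1 (by positivity)
    linarith
  -- (i)
  have q1 : K * L0 ≤ Z * (K * (a * L0 + L1) - (b * F + a * G + H) - F) := by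
    have e1 : K * (a * L0 + L1) - (b * F + a * G + H) - F =
        (a - 1) * (K * L0 - F - G) + (K * (L0 + L1) - 2 * F - G - H) + (a - b - 1) * F + F := by
      ring
    have k1 : 0 ≤ (a - 1) * (K * L0 - F - G) := mul_nonneg (by linarith) u1
    have k2 : 0 ≤ (a - b - 1) * F := mul_nonneg (by linarith) Fp.le
    have k3 : (K * (L0 + L1) - 2 * F - G - H) + F ≤
        K * (a * L0 + L1) - (b * F + a * G + H) - F := by rw [e1]; linarith
    have k4 : Z * ((K * (L0 + L1) - 2 * F - G - H) + F) ≤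
        Z * (K * (a * L0 + L1) - (b * F + a * G + H) - F) :=
      mul_le_mul_of_nonneg_left k3 hZ0.le
    have k5 : (A + 4) * ((K * (L0 + L1) - 2 * F - G - H) + F) ≤
        Z * ((K * (L0 + L1) - 2 * F - G - H) + F) := by
      refine mul_le_mul_of_nonneg_right ?_ (by linarith)
      rw [hZ]
      linarith
    have k6 : 0 ≤ (A + 3) * (K * (L0 + L1) - 2 * F - G - H) :=
      mul_nonneg (by linarith) u3
    linarith
  -- (ii), (iii)
  have q3 : K * L0 ≤ Z * (K * (a * L0 + L1 + (b * L0 + L2)) - 2 * (b * F + a * G + H) - F - G) := by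
    rcases hb with hb | hb
    · subst hb
      have e1 : K * (a * L0 + L1 + (0 * L0 + L2)) - 2 * (0 * F + a * G + H) - F - G =
          (a - 1) * (K * L0 - 2 * G) + (K * (L0 + L1 + L2) - F - 3 * G - 2 * H) := by ring
      have k1 : 0 ≤ (a - 1) * (K * L0 - 2 * G) := mul_nonneg (by linarith) hu4
      have k3 : (K * (L0 + L1 + L2) - F - 3 * G - 2 * H) ≤
          K * (a * L0 + L1 + (0 * L0 + L2)) - 2 * (0 * F + a * G + H) - F - G := by
        rw [e1]; linarith
      have k4 := mul_le_mul_of_nonneg_left k3 hZ0.le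
      have k5 : (R * T + 1) * (K * (L0 + L1 + L2) - F - 3 * G - 2 * H) ≤
          Z * (K * (L0 + L1 + L2) - F - 3 * G - 2 * H) := by
        refine mul_le_mul_of_nonneg_right ?_ hu5
        rw [hZ]
        linarith
      have k6 : T * H ≤ T * (R * (K * (L0 + L1 + L2) - F - 3 * G - 2 * H)) :=
        mul_le_mul_of_nonneg_left u5 hT0.le
      linarith
    · have e1 : K * (a * L0 + L1 + (b * L0 + L2)) - 2 * (b * F + a * G + H) - F - G =
          (a - b - 1) * (K * L0 - 2 * G) + (K * L0 - 2 * G) + (2 * b - 2) * (K * L0 - F - G) +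
            (K * L0 - F - G) + (K * (L0 + L1) - 2 * F - G - H) + (K * L2 - G - H) := by ring
      have k1 : 0 ≤ (a - b - 1) * (K * L0 - 2 * G) := mul_nonneg (by linarith) hu4
      have k2 : 0 ≤ (2 * b - 2) * (K * L0 - F - G) := mul_nonneg (by linarith) u1
      have k3 : (K * L0 - 2 * G) + (K * L0 - F - G) ≤
          K * (a * L0 + L1 + (b * L0 + L2)) - 2 * (b * F + a * G + H) - F - G := by
        rw [e1]; linarith
      have k4 := mul_le_mul_of_nonneg_left k3 hZ0.le
      have k5 : (R * T + 1) * ((K * L0 - 2 * G) + (K * L0 - F - G)) ≤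
          Z * ((K * L0 - 2 * G) + (K * L0 - F - G)) := by
        refine mul_le_mul_of_nonneg_right ?_ (by linarith)
        rw [hZ]
        linarith
      have k6 : T * H ≤ T * (R * (K * L0 - 2 * G)) :=
        mul_le_mul_of_nonneg_left u4 hT0.le
      have k7 : 0 ≤ R * T * (K * L0 - F - G) := mul_nonneg (by positivity) u1
      linarith
  -- (iv)
  have q5 : K * L0 ≤ Z * (K * (a * L0 + L1 + (b * L0 + L2) + L0) - (b * F + a * G + H) -
      3 * F - 2 * G) := by
    have e1 : K * (a * L0 + L1 + (b * L0 + L2) + L0) - (b * F + a * G + H) - 3 * F - 2 * G =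
        (a - 1) * (K * L0 - F - G) + b * (K * L0 - F - G) + (K * L0 - F - G) +
          (K * (L0 + L1) - 2 * F - G - H) + (K * L2 - G - H) + (a - 1) * F + b * G + H := by ring
    have k0 : 0 ≤ b * (K * L0 - F - G) := mul_nonneg hb0 u1
    have k1 : 0 ≤ (a - 1) * (K * L0 - F - G) := mul_nonneg (by linarith) u1
    have k2 : 0 ≤ (a - 1) * F := mul_nonneg (by linarith) Fp.le
    have k2' : 0 ≤ b * G := mul_nonneg hb0 Gp.le
    have k3 : (K * L0 - F - G) + H ≤
        K * (a * L0 + L1 + (b * L0 + L2) + L0) - (b * F + a * G + H) - 3 * F - 2 * G := by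
      rw [e1]; linarith
    have k4 := mul_le_mul_of_nonneg_left k3 hZ0.le
    have k5 : (R * T + 1) * ((K * L0 - F - G) + H) ≤ Z * ((K * L0 - F - G) + H) := by
      refine mul_le_mul_of_nonneg_right ?_ (by linarith)
      rw [hZ]
      linarith
    have k7 : 0 ≤ R * T * (K * L0 - F - G) := mul_nonneg (by positivity) u1
    linarith
  obtain ⟨e, he⟩ : ∃ e : ℝ, e = K * L0 / Z := ⟨_, rfl⟩
  have r1 : e ≤ K * (a * L0 + L1) - (b * F + a * G + H) - F := by
    rw [he, div_le_iff₀ hZ0]; linarith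
  have r3 : e ≤ K * (a * L0 + L1 + (b * L0 + L2)) - 2 * (b * F + a * G + H) - F - G := by
    rw [he, div_le_iff₀ hZ0]; linarith
  have r5 : e ≤ K * (a * L0 + L1 + (b * L0 + L2) + L0) - (b * F + a * G + H) -
      3 * F - 2 * G := by
    rw [he, div_le_iff₀ hZ0]; linarith
  have hsum : (a' * (a * L0 + L1) + (b * L0 + L2)) + (b' * (a * L0 + L1) + L0) +
      (a * L0 + L1) ≤ W * L0 := by
    have k1 : a * L0 ≤ A * L0 := mul_le_mul_of_nonneg_right haA p0.le
    have k2 : a * L0 + L1 ≤ (2 * A + 1) * L0 := by linarith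
    have k3 : b * L0 ≤ A * L0 := mul_le_mul_of_nonneg_right (by linarith) p0.le
    have k4 : 0 ≤ a * L0 + L1 := by
      have : 0 ≤ a * L0 := mul_nonneg (by linarith) p0.le
      linarith
    have k5 : a' * (a * L0 + L1) ≤ A * ((2 * A + 1) * L0) :=
      mul_le_mul haA' k2 k4 hA0
    have k6 : b' * (a * L0 + L1) ≤ A * ((2 * A + 1) * L0) :=
      mul_le_mul (by linarith) k2 k4 hA0
    rw [hW]
    have k7 : A * ((2 * A + 1) * L0) + (A * L0 + L0) + (A * ((2 * A + 1) * L0) + L0) +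
        (2 * A + 1) * L0 ≤ (A + 3) * (2 * A + 1) ^ 2 * L0 := by
      have e1 : (A + 3) * (2 * A + 1) ^ 2 * L0 - (A * ((2 * A + 1) * L0) + (A * L0 + L0) +
        (A * ((2 * A + 1) * L0) + L0) + (2 * A + 1) * L0) =
        (4 * A ^ 3 + 12 * A ^ 2 + 8 * A) * L0 := by ring
      have k8 : 0 ≤ (4 * A ^ 3 + 12 * A ^ 2 + 8 * A) * L0 :=
        mul_nonneg (by positivity) p0.le
      linarith
    linarith
  have hDe : K / (Z * W) * ((a' * (a * L0 + L1) + (b * L0 + L2)) + (b' * (a * L0 + L1) + L0) +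
      (a * L0 + L1)) ≤ e := by
    have k1 := mul_le_mul_of_nonneg_left hsum (show 0 ≤ K / (Z * W) by positivity)
    have k2 : K / (Z * W) * (W * L0) = e := by
      rw [he]
      field_simp
    linarith
  have h2 := h1.step2 a' b' hb' hab' ha1' haA' hR e (K / (Z * W)) r1 r3 r5 (by positivity) hDe
  have e2 : K - K / (Z * W) = (1 - 1 / (Z * W)) * K := by ring
  rw [e2] at h2
  exact h2

theorem Re2.base {A R : ℝ} (hA : 1 ≤ A) (hR : R = (A + 1) * (A + 2)) :
    Re2 A R 20 2 2 2 1 1 1 := by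
  have hR1 : 1 ≤ R := by
    rw [hR]
    nlinarith
  refine ⟨by norm_num, by norm_num, by norm_num, le_refl _, by linarith, by linarith,
    by linarith, by linarith, one_pos, one_pos, one_pos, le_refl _, by linarith, by norm_num,
    by norm_num, by norm_num, by linarith, by linarith⟩

end Pool.Agent.H872.PC
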