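import Pool.Agent.H872.PC.Engine
import Pool.Agent.H872.PC.MixRe

/-!
Mixed compositions of cubic companion substitutions with `b ≤ a`.
-/

set_option autoImplicit false

namespace Pool.Agent.H872.PC
open Pool.Agent.H812R2.PI Pool.Agent.Q132.PT
open scoped BigOperators

/-- entries of the incidence matrix as real numbers -/
def pe (S : Fin 3 → List (Fin 3)) (i j : Fin 3) : ℝ := (inc S i j : ℝ)

theorem pe_nn (S : Fin 3 → List (Fin 3)) (i j : Fin 3) : 0 ≤ pe S i j := by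
  unfold pe inc
  positivity

/-- length of the image of a letter -/
def Lr (S : Fin 3 → List (Fin 3)) (j : Fin 3) : ℝ := pe S 0 j + pe S 1 j + pe S 2 j

theorem pe_comp {a b : ℕ} (S τ : Fin 3 → List (Fin 3)) (h : inc τ = CM a b) (r : Fin 3) :
    pe (comp S τ) r 0 = a * pe S r 0 + pe S r 1 ∧
    pe (comp S τ) r 1 = b * pe S r 0 + pe S r 2 ∧
    pe (comp S τ) r 2 = pe S r 0 := by
  unfold pe
  rw [inc_comp, h]
  refine ⟨?_, ?_, ?_⟩
  · rw [Matrix.mul_apply, Fin.sum_univ_three]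
    simp [CM]
    ring
  · rw [Matrix.mul_apply, Fin.sum_univ_three]
    simp [CM]
    ring
  · rw [Matrix.mul_apply, Fin.sum_univ_three]
    simp [CM]

theorem pe_id (i j : Fin 3) : pe (compList []) i j = if i = j then 1 else 0 := by
  unfold pe
  rw [inc_compList 0 [] (by simp)]
  simp [Matrix.one_apply]

theorem cst_step {a b : ℕ} (S τ : Fin 3 → List (Fin 3)) (h : inc τ = CM a b) :
    (cst (comp S τ) 0 1 : ℝ) ≤ b * cst S 0 1 + a * cst S 0 2 + cst S 1 2 ∧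
    (cst (comp S τ) 0 2 : ℝ) ≤ cst S 0 1 ∧ (cst (comp S τ) 1 2 : ℝ) ≤ cst S 0 2 := by
  have h0 := cst_comp_real S τ
  rw [h] at h0
  have s10 : cst S 1 0 = cst S 0 1 := by rw [cst_cf, cst_cf']
  have s20 : cst S 2 0 = cst S 0 2 := by rw [cst_cg, cst_cg']
  have s21 : cst S 2 1 = cst S 1 2 := by rw [cst_ch, cst_ch']
  refine ⟨?_, ?_, ?_⟩
  · have h1 := h0 0 1
    simp only [Fin.sum_univ_three, CM, s10, s20, s21, cst_self] at h1
    simp at h1
    linarith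
  · have h1 := h0 0 2
    simp only [Fin.sum_univ_three, CM, s10, s20, s21, cst_self] at h1
    simp at h1
    exact_mod_cast h1
  · have h1 := h0 1 2
    simp only [Fin.sum_univ_three, CM, s10, s20, s21, cst_self] at h1
    simp at h1
    exact_mod_cast h1

/-- the cost and minor bounds -/
structure Cb (S : Fin 3 → List (Fin 3)) (F G H : ℝ) : Prop where
  c01 : (cst S 0 1 : ℝ) ≤ F
  c02 : (cst S 0 2 : ℝ) ≤ G
  c12 : (cst S 1 2 : ℝ) ≤ H
  m01 : ∀ r s, |pe S r 0 * pe S s 1 - pe S r 1 * pe S s 0| ≤ F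
  m02 : ∀ r s, |pe S r 0 * pe S s 2 - pe S r 2 * pe S s 0| ≤ G
  m12 : ∀ r s, |pe S r 1 * pe S s 2 - pe S r 2 * pe S s 1| ≤ H

theorem Cb.step {S τ : Fin 3 → List (Fin 3)} {F G H : ℝ} (I : Cb S F G H)
    {a b : ℕ} (hτ : inc τ = CM a b) : Cb (comp S τ) (b * F + a * G + H) F G := by
  have hp := pe_comp S τ hτ
  obtain ⟨k1, k2, k3⟩ := cst_step S τ hτ
  have ha0 : (0 : ℝ) ≤ a := Nat.cast_nonneg a
  have hb0 : (0 : ℝ) ≤ b := Nat.cast_nonneg b
  refine ⟨?_, k2.trans I.c01, k3.trans I.c02, ?_, ?_, ?_⟩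
  · have h1 := mul_le_mul_of_nonneg_left I.c01 hb0
    have h2 := mul_le_mul_of_nonneg_left I.c02 ha0
    have h3 := I.c12
    linarith
  · intro r s
    obtain ⟨r0, r1, r2⟩ := hp r
    obtain ⟨s0, s1, s2⟩ := hp s
    rw [r0, r1, s0, s1]
    have e : (a * pe S r 0 + pe S r 1) * (b * pe S s 0 + pe S s 2) -
        (b * pe S r 0 + pe S r 2) * (a * pe S s 0 + pe S s 1) =
        a * (pe S r 0 * pe S s 2 - pe S r 2 * pe S s 0) -
        b * (pe S r 0 * pe S s 1 - pe S r 1 * pe S s 0) +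
        (pe S r 1 * pe S s 2 - pe S r 2 * pe S s 1) := by ring
    rw [e]
    have h1 := I.m02 r s
    have h2 := I.m01 r s
    have h3 := I.m12 r s
    rw [abs_le] at h1 h2 h3 ⊢
    have q1 := mul_le_mul_of_nonneg_left h1.1 ha0
    have q2 := mul_le_mul_of_nonneg_left h1.2 ha0
    have q3 := mul_le_mul_of_nonneg_left h2.1 hb0
    have q4 := mul_le_mul_of_nonneg_left h2.2 hb0
    constructor <;> linarith [h3.1, h3.2]
  · intro r s
    obtain ⟨r0, r1, r2⟩ := hp r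
    obtain ⟨s0, s1, s2⟩ := hp s
    rw [r0, r2, s0, s2]
    have e : (a * pe S r 0 + pe S r 1) * pe S s 0 - pe S r 0 * (a * pe S s 0 + pe S s 1) =
        -(pe S r 0 * pe S s 1 - pe S r 1 * pe S s 0) := by ring
    rw [e, abs_neg]
    exact I.m01 r s
  · intro r s
    obtain ⟨r0, r1, r2⟩ := hp r
    obtain ⟨s0, s1, s2⟩ := hp s
    rw [r1, r2, s1, s2]
    have e : (b * pe S r 0 + pe S r 2) * pe S s 0 - pe S r 0 * (b * pe S s 0 + pe S s 2) =
        -(pe S r 0 * pe S s 2 - pe S r 2 * pe S s 0) := by ring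
    rw [e, abs_neg]
    exact I.m02 r s

theorem Cb.base : Cb (compList []) 2 2 2 := by
  have hc : ∀ x y : Fin 3, (cst (compList []) x y : ℝ) ≤ 2 := by
    intro x y
    have h : cst (compList []) x y ≤ 2 := by
      unfold cst
      refine (dS_le_length _ _ _).trans ?_
      rw [ext_id]
      simp
    exact_mod_cast h
  have hb : ∀ i j, 0 ≤ pe (compList []) i j ∧ pe (compList []) i j ≤ 1 := by
    intro i j
    rw [pe_id]
    split_ifs <;> norm_num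
  have hm : ∀ i j i' j' k l k' l' : Fin 3, |pe (compList []) i j * pe (compList []) i' j' -
      pe (compList []) k l * pe (compList []) k' l'| ≤ 2 := by
    intro i j i' j' k l k' l'
    have h1 := hb i j
    have h2 := hb i' j'
    have h3 := hb k l
    have h4 := hb k' l'
    have h5 := mul_nonneg h1.1 h2.1
    have h6 := mul_nonneg h3.1 h4.1
    have h7 := mul_le_one₀ h1.2 h2.1 h2.2
    have h8 := mul_le_one₀ h3.2 h4.1 h4.2
    rw [abs_le]
    constructor <;> linarith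
  exact ⟨hc 0 1, hc 0 2, hc 1 2, fun r s => hm _ _ _ _ _ _ _ _, fun r s => hm _ _ _ _ _ _ _ _,
    fun r s => hm _ _ _ _ _ _ _ _⟩

/-- the invariant of a composition -/
def Inv2 (S : Fin 3 → List (Fin 3)) (A R K : ℝ) : Prop :=
  ∃ F G H : ℝ, Re2 A R K F G H (Lr S 0) (Lr S 1) (Lr S 2) ∧ Cb S F G H

theorem Lr_comp {a b : ℕ} (S τ : Fin 3 → List (Fin 3)) (h : inc τ = CM a b) :
    Lr (comp S τ) 0 = a * Lr S 0 + Lr S 1 ∧ Lr (comp S τ) 1 = b * Lr S 0 + Lr S 2 ∧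
    Lr (comp S τ) 2 = Lr S 0 := by
  have hp := pe_comp S τ h
  unfold Lr
  rw [(hp 0).1, (hp 1).1, (hp 2).1, (hp 0).2.1, (hp 1).2.1, (hp 2).2.1, (hp 0).2.2, (hp 1).2.2,
    (hp 2).2.2]
  refine ⟨by ring, by ring, rfl⟩

theorem nat_or (b : ℕ) : (b : ℝ) = 0 ∨ (1 : ℝ) ≤ b := by
  rcases Nat.eq_zero_or_pos b with h | h
  · left; rw [h]; simp
  · right; exact_mod_cast h

theorem Inv2.step {S τ : Fin 3 → List (Fin 3)} {A R K : ℝ} (I : Inv2 S A R K)
    (hR : R = (A + 1) * (A + 2)) {a b : ℕ} (hτ : inc τ = CM a b) (hab : b ≤ a) (ha1 : 1 ≤ a)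
    (haA : (a : ℝ) ≤ A) : Inv2 (comp S τ) A R K := by
  obtain ⟨F, G, H, hr, hc⟩ := I
  obtain ⟨l0, l1, l2⟩ := Lr_comp S τ hτ
  refine ⟨b * F + a * G + H, F, G, ?_, hc.step hτ⟩
  rw [l0, l1, l2]
  exact hr.step a b (nat_or b) (by exact_mod_cast hab) (by exact_mod_cast ha1) haA hR

/-- the contraction rate -/
theorem Inv2.pair {A R Z W : ℝ} (hR : R = (A + 1) * (A + 2))
    (hZ : Z = (A + 4) + R * ((A + 1) * (R + 1) + 3 * R + 2) + 1)
    (hW : W = (A + 3) * (2 * A + 1) ^ 2)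
    {S σ τ : Fin 3 → List (Fin 3)} {K : ℝ} (hK : 0 ≤ K) (I : Inv2 S A R K)
    {a b : ℕ} (hσ : inc σ = CM a b) (hab : b < a) (haA : (a : ℝ) ≤ A)
    {a' b' : ℕ} (hτ : inc τ = CM a' b') (hab' : b' ≤ a') (ha1' : 1 ≤ a')
    (haA' : (a' : ℝ) ≤ A) :
    Inv2 (comp (comp S σ) τ) A R ((1 - 1 / (Z * W)) * K) := by
  obtain ⟨F, G, H, hr, hc⟩ := I
  obtain ⟨l0, l1, l2⟩ := Lr_comp S σ hσ
  obtain ⟨n0, n1, n2⟩ := Lr_comp (comp S σ) τ hτ
  refine ⟨b' * (b * F + a * G + H) + a' * F + G, b * F + a * G + H, F, ?_,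
    (hc.step hσ).step hτ⟩
  rw [n0, n1, n2, l0, l1, l2]
  exact hr.pair a b a' b' Z W (nat_or b) (by exact_mod_cast hab) haA (nat_or b')
    (by exact_mod_cast hab') (by exact_mod_cast ha1') haA' hR hK hZ hW

/-- the class -/
def Ok (A : ℝ) (τ : Fin 3 → List (Fin 3)) : Prop :=
  ∃ a b : ℕ, b ≤ a ∧ 1 ≤ a ∧ (a : ℝ) ≤ A ∧ inc τ = CM a b

theorem Inv2.run {A R K : ℝ} (hR : R = (A + 1) * (A + 2)) (l : List (Fin 3 → List (Fin 3))) :
    ∀ L : List (Fin 3 → List (Fin 3)), Inv2 (compList L) A R K → (∀ τ ∈ l, Ok A τ) →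
      Inv2 (compList (L ++ l)) A R K := by
  induction l with
  | nil =>
    intro L hL _
    rw [List.append_nil]
    exact hL
  | cons τ l ih =>
    intro L hL hl
    obtain ⟨a, b, hab, ha1, haA, hτ⟩ := hl τ (by simp)
    have e : L ++ τ :: l = (L ++ [τ]) ++ l := by simp
    rw [e]
    refine ih (L ++ [τ]) ?_ fun τ' h => hl τ' (List.mem_cons_of_mem _ h)
    rw [compList_snoc]
    exact hL.step hR hτ hab ha1 haA

theorem Inv2.double {A R Z W : ℝ} (hR : R = (A + 1) * (A + 2))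
    (hZ : Z = (A + 4) + R * ((A + 1) * (R + 1) + 3 * R + 2) + 1)
    (hW : W = (A + 3) * (2 * A + 1) ^ 2) {K : ℝ} (hK : 0 ≤ K)
    (l : List (Fin 3 → List (Fin 3))) (hl : ∀ τ ∈ l, Ok A τ) (σ : Fin 3 → List (Fin 3))
    (hσl : σ ∈ l) (hσ : ∃ a b : ℕ, b < a ∧ (a : ℝ) ≤ A ∧ inc σ = CM a b)
    (L : List (Fin 3 → List (Fin 3))) (hL : Inv2 (compList L) A R K) :
    Inv2 (compList (L ++ (l ++ l))) A R ((1 - 1 / (Z * W)) * K) := by
  obtain ⟨a, b, hab, haA, hσ⟩ := hσ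
  obtain ⟨l1, l2, hl12⟩ := List.append_of_mem hσl
  obtain ⟨τ, l3, h3⟩ : ∃ τ l3, l2 ++ l = τ :: l3 := by
    rcases h : l2 ++ l with _ | ⟨τ, l3⟩
    · rw [List.append_eq_nil_iff] at h
      rw [h.2] at hσl
      simp at hσl
    · exact ⟨τ, l3, rfl⟩
  have hmem : ∀ τ' ∈ τ :: l3, Ok A τ' := by
    intro τ' h
    rw [← h3] at h
    rcases List.mem_append.1 h with h | h
    · refine hl τ' ?_
      rw [hl12]
      simp [h]
    · exact hl τ' h
  have e : L ++ (l ++ l) = (((L ++ l1) ++ [σ]) ++ [τ]) ++ l3 := by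
    have e1 : l ++ l = l1 ++ σ :: (l2 ++ l) := by
      conv_lhs => lhs; rw [hl12]
      simp
    rw [e1, h3]
    simp
  obtain ⟨a', b', hab', ha1', haA', hτ⟩ := hmem τ (by simp)
  rw [e]
  refine Inv2.run hR l3 _ ?_ fun τ' h => hmem τ' (List.mem_cons_of_mem _ h)
  rw [compList_snoc, compList_snoc]
  refine Inv2.pair hR hZ hW hK ?_ hσ hab haA hτ hab' ha1' haA'
  refine Inv2.run hR l1 L hL fun τ' h => hl τ' ?_
  rw [hl12]
  simp [h]

/-- the bounds of an invariant -/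
theorem Inv2.out {S : Fin 3 → List (Fin 3)} {A R K : ℝ} (I : Inv2 S A R K) :
    0 < Lr S 0 ∧ (∀ x y, (cst S x y : ℝ) ≤ K * Lr S 0) ∧
      (∀ r s, |pe S r 0 * pe S s 1 - pe S r 1 * pe S s 0| ≤ K * Lr S 0) ∧
      (∀ r s, |pe S r 0 * pe S s 2 - pe S r 2 * pe S s 0| ≤ K * Lr S 0) ∧
      (∀ r s, |pe S r 1 * pe S s 2 - pe S r 2 * pe S s 1| ≤ K * Lr S 0) := by
  obtain ⟨F, G, H, hr, hc⟩ := I
  have hk := hr.u1
  have hF := hr.Fp
  have hG := hr.Gp
  have hHF := hr.HF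
  have c01 := hc.c01
  have c02 := hc.c02
  have c12 := hc.c12
  have n01 : (0 : ℝ) ≤ cst S 0 1 := Nat.cast_nonneg _
  refine ⟨hr.p0, ?_, fun r s => (hc.m01 r s).trans (by linarith),
    fun r s => (hc.m02 r s).trans (by linarith), fun r s => (hc.m12 r s).trans (by linarith)⟩
  refine cst_le _ _ (by linarith) ?_ ?_ ?_
  · rw [← cst_cf']; linarith
  · rw [← cst_cg']; linarith
  · rw [← cst_ch]; linarith

theorem Inv2.base {A R : ℝ} (hA : 1 ≤ A) (hR : R = (A + 1) * (A + 2)) :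
    Inv2 (compList []) A R 20 := by
  refine ⟨2, 2, 2, ?_, Cb.base⟩
  have e : ∀ j, Lr (compList []) j = 1 := by
    intro j
    unfold Lr
    rw [pe_id, pe_id, pe_id]
    fin_cases j <;> simp
  rw [e 0, e 1, e 2]
  exact Re2.base hA hR

/-- geometric bounds for the iterates of a composition -/
theorem mixC2 (l : List (Fin 3 → List (Fin 3)))
    (hl : ∀ τ ∈ l, ∃ a b : ℕ, b ≤ a ∧ 1 ≤ a ∧ inc τ = CM a b)
    (hs : ∃ σ ∈ l, ∃ a b : ℕ, b < a ∧ inc σ = CM a b) :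
    ∃ (C η : ℝ), 0 < C ∧ 0 < η ∧ η < 1 ∧ ∀ (N : ℕ) (S : Fin 3 → List (Fin 3)),
      S = compList ((List.replicate N l).flatten) →
        0 < Lr S 0 ∧ (∀ x y, (cst S x y : ℝ) ≤ C * η ^ N * Lr S 0) ∧
        (∀ r s, |pe S r 0 * pe S s 1 - pe S r 1 * pe S s 0| ≤ C * η ^ N * Lr S 0) ∧
        (∀ r s, |pe S r 0 * pe S s 2 - pe S r 2 * pe S s 0| ≤ C * η ^ N * Lr S 0) ∧
        (∀ r s, |pe S r 1 * pe S s 2 - pe S r 2 * pe S s 1| ≤ C * η ^ N * Lr S 0) := by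
  obtain ⟨σ, hσl, a, b, hab, hσ⟩ := hs
  obtain ⟨A, hA1, haA, hA⟩ : ∃ A : ℝ, 1 ≤ A ∧ (a : ℝ) ≤ A ∧ ∀ τ ∈ l, Ok A τ := by
    clear hσl
    induction l with
    | nil => exact ⟨max 1 a, le_max_left _ _, le_max_right _ _, by simp⟩
    | cons τ l ih =>
      obtain ⟨A, hA1, haA, hA⟩ := ih fun τ' h => hl τ' (List.mem_cons_of_mem _ h)
      obtain ⟨a', b', hab', ha1', hτ⟩ := hl τ (by simp)
      refine ⟨max A a', le_max_of_le_left hA1, le_max_of_le_left haA, fun τ' h => ?_⟩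
      rcases List.mem_cons.1 h with rfl | h
      · exact ⟨a', b', hab', ha1', le_max_right _ _, hτ⟩
      · obtain ⟨a'', b'', h1, h2, h3, h4⟩ := hA τ' h
        exact ⟨a'', b'', h1, h2, h3.trans (le_max_left _ _), h4⟩
  obtain ⟨R, hR⟩ : ∃ R : ℝ, R = (A + 1) * (A + 2) := ⟨_, rfl⟩
  have hR0 : 0 < R := by rw [hR]; positivity
  obtain ⟨Z, hZ⟩ : ∃ Z : ℝ, Z = (A + 4) + R * ((A + 1) * (R + 1) + 3 * R + 2) + 1 := ⟨_, rfl⟩
  obtain ⟨W, hW⟩ : ∃ W : ℝ, W = (A + 3) * (2 * A + 1) ^ 2 := ⟨_, rfl⟩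
  have hZ1 : 1 < Z := by
    have h1 : 0 ≤ R * ((A + 1) * (R + 1) + 3 * R + 2) := by positivity
    rw [hZ]; linarith
  have hW1 : 1 ≤ W := by
    have h1 : 1 ≤ (2 * A + 1) ^ 2 := by nlinarith
    rw [hW]; nlinarith
  obtain ⟨ρ, hρ⟩ : ∃ ρ : ℝ, ρ = 1 - 1 / (Z * W) := ⟨_, rfl⟩
  have hZW : 1 < Z * W := by nlinarith
  have hρ0 : 0 < ρ := by
    have h1 : 1 / (Z * W) < 1 := by rw [div_lt_one (by linarith)]; exact hZW
    rw [hρ]; linarith
  have hρ1 : ρ < 1 := by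
    have h1 : 0 < 1 / (Z * W) := by positivity
    rw [hρ]; linarith
  have key : ∀ n : ℕ, Inv2 (compList ((List.replicate (2 * n) l).flatten)) A R (ρ ^ n * 20) := by
    intro n
    induction n with
    | zero =>
      rw [pow_zero, one_mul]
      exact Inv2.base hA1 hR
    | succ n ih =>
      have e1 : (List.replicate (2 * (n + 1)) l).flatten =
          (List.replicate (2 * n) l).flatten ++ (l ++ l) := by
        rw [show 2 * (n + 1) = 2 * n + 2 by ring, List.replicate_add, List.flatten_append]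
        simp [List.replicate_succ]
      have e2 : ρ ^ (n + 1) * 20 = (1 - 1 / (Z * W)) * (ρ ^ n * 20) := by
        rw [← hρ, pow_succ]
        ring
      rw [e1, e2]
      exact Inv2.double hR hZ hW (by positivity) l hA σ hσl ⟨a, b, hab, haA, hσ⟩ _ ih
  have key2 : ∀ N : ℕ, Inv2 (compList ((List.replicate N l).flatten)) A R (ρ ^ (N / 2) * 20) := by
    intro N
    have h1 := key (N / 2)
    rcases Nat.even_or_odd N with h | h
    · rw [Nat.two_mul_div_two_of_even h] at h1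
      exact h1
    · have h2 : 2 * (N / 2) + 1 = N := Nat.two_mul_div_two_add_one_of_odd h
      have e1 : (List.replicate N l).flatten = (List.replicate (2 * (N / 2)) l).flatten ++ l := by
        conv_lhs => rw [← h2]
        rw [List.replicate_add, List.flatten_append]
        simp [List.replicate_succ]
      rw [e1]
      exact Inv2.run hR l _ h1 hA
  have hη0 : 0 < Real.sqrt ρ := Real.sqrt_pos.2 hρ0
  have hη1 : Real.sqrt ρ < 1 := by
    rw [Real.sqrt_lt' one_pos]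
    simpa using hρ1
  have hsq : Real.sqrt ρ ^ 2 = ρ := Real.sq_sqrt hρ0.le
  refine ⟨20 / Real.sqrt ρ, Real.sqrt ρ, by positivity, hη0, hη1, fun N S hS => ?_⟩
  obtain ⟨g0, g1, g2, g3, g4⟩ := (key2 N).out
  rw [← hS] at g0 g1 g2 g3 g4
  have hb : ρ ^ (N / 2) * 20 * Lr S 0 ≤ 20 / Real.sqrt ρ * Real.sqrt ρ ^ N * Lr S 0 := by
    refine mul_le_mul_of_nonneg_right ?_ g0.le
    have h1 : ρ ^ (N / 2) = Real.sqrt ρ ^ (2 * (N / 2)) := by rw [pow_mul, hsq]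
    have h2 : Real.sqrt ρ ^ (2 * (N / 2) + 1) ≤ Real.sqrt ρ ^ N :=
      pow_le_pow_of_le_one hη0.le hη1.le (by omega)
    rw [pow_succ] at h2
    have e3 : 20 / Real.sqrt ρ * Real.sqrt ρ ^ N = (20 * Real.sqrt ρ ^ N) / Real.sqrt ρ := by ring
    rw [h1, e3, le_div_iff₀ hη0]
    linarith
  exact ⟨g0, fun x y => (g1 x y).trans hb, fun r s => (g2 r s).trans hb,
    fun r s => (g3 r s).trans hb, fun r s => (g4 r s).trans hb⟩

end Pool.Agent.H872.PC
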