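import Pool.Agent.H872.PC.Mix
import Pool.Agent.H872.PC.Gain

/-!
Four steps, the first three with `b = a`: the invariant with a smaller constant.
-/

set_option autoImplicit false

namespace Pool.Agent.H872.PC
open Pool.Agent.H812R2.PI Pool.Agent.Q132.PT
open scoped BigOperators

section re
variable {A R K F G H L0 L1 L2 : ℝ}

theorem Re2.hu4 (h : Re2 A R K F G H L0 L1 L2) (hR0 : 0 < R) : 0 ≤ K * L0 - 2 * G := by
  by_contra hcon
  rw [not_le] at hcon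
  have h1 := mul_neg_of_pos_of_neg hR0 hcon
  have h2 := h.u4
  have h3 := h.Hp
  linarith

theorem Re2.mono1 (h : Re2 A R K F G H L0 L1 L2) (a : ℝ) (ha : 1 ≤ a) :
    K * (L0 + L1) - 2 * F - G - H ≤ K * (a * L0 + L1) - (a * F + a * G + H) - F := by
  have h1 : 0 ≤ (a - 1) * (K * L0 - F - G) := mul_nonneg (by linarith) h.u1
  have e : K * (a * L0 + L1) - (a * F + a * G + H) - F =
      (a - 1) * (K * L0 - F - G) + (K * (L0 + L1) - 2 * F - G - H) := by ring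
  rw [e]
  linarith

theorem Re2.mono3 (h : Re2 A R K F G H L0 L1 L2) (a : ℝ) (ha : 1 ≤ a) :
    K * (L0 + L1) - 2 * F - G - H ≤
      K * (a * L0 + L1 + (a * L0 + L2)) - 2 * (a * F + a * G + H) - F - G := by
  have h1 : 0 ≤ (2 * a - 1) * (K * L0 - F - G) := mul_nonneg (by linarith) h.u1
  have h2 := h.u2
  have e : K * (a * L0 + L1 + (a * L0 + L2)) - 2 * (a * F + a * G + H) - F - G =
      (2 * a - 1) * (K * L0 - F - G) + (K * (L0 + L1) - 2 * F - G - H) +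
        (K * L2 - G - H) := by ring
  rw [e]
  linarith

theorem Re2.mono5 (h : Re2 A R K F G H L0 L1 L2) (a : ℝ) (ha : 1 ≤ a) :
    K * (L0 + L1) - 2 * F - G - H ≤
      K * (a * L0 + L1 + (a * L0 + L2) + L0) - (a * F + a * G + H) - 3 * F - 2 * G := by
  have h1 : 0 ≤ (2 * a) * (K * L0 - F - G) := mul_nonneg (by linarith) h.u1
  have h2 := h.u2
  have h3 : 0 ≤ (a - 1) * F := mul_nonneg (by linarith) h.Fp.le
  have h4 : 0 ≤ a * G := mul_nonneg (by linarith) h.Gp.le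
  have h5 := h.Hp
  have e : K * (a * L0 + L1 + (a * L0 + L2) + L0) - (a * F + a * G + H) - 3 * F - 2 * G =
      (2 * a) * (K * L0 - F - G) + (K * (L0 + L1) - 2 * F - G - H) +
        (K * L2 - G - H) + (a - 1) * F + a * G + H := by ring
  rw [e]
  linarith

theorem Re2.grow (h : Re2 A R K F G H L0 L1 L2) (a : ℝ) (haA : a ≤ A) :
    a * L0 + L1 ≤ (2 * A + 1) * L0 := by
  have h1 := mul_le_mul_of_nonneg_right haA h.p0.le
  have h2 := h.l10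
  linarith

theorem Re2.quad (h : Re2 A R K F G H L0 L1 L2) (a₁ a₂ a₃ a b W : ℝ)
    (p1 : 1 ≤ a₁) (p1' : a₁ ≤ A) (p2 : 1 ≤ a₂) (p2' : a₂ ≤ A) (p3 : 1 ≤ a₃) (p3' : a₃ ≤ A)
    (hb : b = 0 ∨ 1 ≤ b) (hab : b ≤ a) (ha1 : 1 ≤ a) (haA : a ≤ A)
    (hR : R = (A + 1) * (A + 2)) (hK : 0 ≤ K) (hW : W = (A + 3) * (2 * A + 1) ^ 4)
    (F1 F2 F3 M0 M1 M2 : ℝ)
    (e1 : F1 = a₁ * F + a₁ * G + H) (e2 : F2 = a₂ * F1 + a₂ * F + G)
    (e3 : F3 = a₃ * F2 + a₃ * F1 + F)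
    (m2 : M2 = a₂ * (a₁ * L0 + L1) + (a₁ * L0 + L2))
    (m0 : M0 = a₃ * M2 + (a₂ * (a₁ * L0 + L1) + L0))
    (m1 : M1 = a₃ * M2 + (a₁ * L0 + L1)) :
    Re2 A R ((1 - 1 / ((A + 4) * W)) * K) (b * (F3 - 2 * F) + a * F2 + F1) (F3 - 2 * F) F2
      (a * M0 + M1) (b * M0 + M2) M0 := by
  have hA1 : 1 ≤ A := by linarith
  have hA0 : 0 ≤ A := by linarith
  have hR0 : 0 < R := by rw [hR]; positivity
  have hW0 : 0 < W := by rw [hW]; positivity
  have s1 := h.step a₁ a₁ (Or.inr p1) (le_refl _) p1 p1' hR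
  rw [← e1] at s1
  have s2 := s1.step a₂ a₂ (Or.inr p2) (le_refl _) p2 p2' hR
  rw [← e2, ← m2] at s2
  have s3 := s2.step a₃ a₃ (Or.inr p3) (le_refl _) p3 p3' hR
  rw [← e3, ← m0, ← m1] at s3
  have hF := h.Fp
  have hG := h.Gp
  have hH := h.Hp
  have hF1 : F ≤ F1 := by
    have k1 := mul_le_mul_of_nonneg_right p1 hF.le
    have k2 := mul_le_mul_of_nonneg_right p1 hG.le
    rw [e1]; linarith
  have hF2 : F ≤ F2 := by
    have k1 := mul_le_mul_of_nonneg_right p2 hF.le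
    have k2 : 0 ≤ a₂ * F1 := mul_nonneg (by linarith) (by linarith)
    rw [e2]; linarith
  have hF3 : F2 + F1 - F ≤ F3 - 2 * F := by
    have k1 := mul_le_mul_of_nonneg_right p3 (show 0 ≤ F2 by linarith)
    have k2 := mul_le_mul_of_nonneg_right p3 (show 0 ≤ F1 by linarith)
    rw [e3]; linarith
  -- lower bounds
  have x0 : K * L0 ≤ (A + 4) * ((K * (L0 + L1) - 2 * F - G - H) + 2 * F) := by
    have k1 := h.GF
    have k2 := h.HF
    have k3 : 0 ≤ (A + 3) * (K * (L0 + L1) - 2 * F - G - H) := mul_nonneg (by linarith) h.u3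
    have k4 : 0 ≤ K * L1 := mul_nonneg hK h.p1.le
    have k5 : 0 ≤ A * F := mul_nonneg hA0 hF.le
    linarith
  have y1 := h.mono3 a₁ p1
  have y2 := s1.mono3 a₂ p2
  rw [← e1] at y1
  rw [← e2, ← m2] at y2
  have z1 := s2.mono1 a₃ p3
  have z3 := s2.mono3 a₃ p3
  have z5 := s2.mono5 a₃ p3
  rw [← e3, ← m0] at z1 z3 z5
  rw [← m1] at z3 z5
  obtain ⟨e, he⟩ : ∃ e : ℝ, e = K * L0 / (A + 4) := ⟨_, rfl⟩
  have hA4 : 0 < A + 4 := by linarith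
  have he' : e ≤ (K * (L0 + L1) - 2 * F - G - H) + 2 * F := by
    rw [he, div_le_iff₀ hA4]
    linarith
  have r1 : e ≤ K * M0 - (F3 - 2 * F) - F2 := by linarith
  have r3 : e ≤ K * (M0 + M1) - 2 * (F3 - 2 * F) - F2 - F1 := by linarith
  have r5 : e ≤ K * (M0 + M1 + M2) - (F3 - 2 * F) - 3 * F2 - 2 * F1 := by linarith
  have s3' : Re2 A R K (F3 - 2 * F) F2 F1 M0 M1 M2 := by
    have k1 := s3.FG
    have k2 := s3.u1
    have k3 := s3.u3
    have k5 := s3.u5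
    have k6 : F2 ≤ (A + 1) * (F3 - 2 * F) := by
      have : 1 * (F3 - 2 * F) ≤ (A + 1) * (F3 - 2 * F) :=
        mul_le_mul_of_nonneg_right (by linarith) (by linarith)
      linarith
    have k7 : 0 ≤ R * (2 * F) := by positivity
    refine ⟨by linarith, s3.Gp, s3.Hp, by linarith, by linarith, k6, s3.HG, s3.GH, s3.p0, s3.p1,
      s3.p2, s3.l20, s3.l10, by linarith, s3.u2, by linarith, s3.u4, by linarith⟩
  have s4 := s3'.step a b hb hab ha1 haA hR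
  have hsum : (a * M0 + M1) + (b * M0 + M2) + M0 ≤ W * L0 := by
    have g0 := h.grow a₁ p1'
    have g1 := s1.grow a₂ p2'
    have g2 := s2.grow a₃ p3'
    have g3 := s3.grow a haA
    rw [← m2] at g1
    rw [← m0] at g2
    have w : 0 ≤ 2 * A + 1 := by linarith
    have q1 := mul_le_mul_of_nonneg_left g0 w
    have q2 := mul_le_mul_of_nonneg_left (g1.trans q1) w
    have q3 := mul_le_mul_of_nonneg_left (g2.trans q2) w
    have q4 := g3.trans q3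
    have q5 := s4.l20
    have q6 := s4.l10
    have q7 := mul_le_mul_of_nonneg_left q4 (show 0 ≤ A + 3 by linarith)
    rw [hW]
    linarith
  have hDe : K / ((A + 4) * W) * ((a * M0 + M1) + (b * M0 + M2) + M0) ≤ e := by
    have k1 := mul_le_mul_of_nonneg_left hsum (show 0 ≤ K / ((A + 4) * W) by positivity)
    have k2 : K / ((A + 4) * W) * (W * L0) = e := by
      rw [he]
      field_simp
    linarith
  have s5 := s3'.step2 a b hb hab ha1 haA hR e (K / ((A + 4) * W)) r1 r3 r5 (by positivity) hDe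
  have e5 : K - K / ((A + 4) * W) = (1 - 1 / ((A + 4) * W)) * K := by ring
  rw [e5] at s5
  exact s5

end re

/-- the minors -/
theorem gainm {S τ₂ τ₃ : Fin 3 → List (Fin 3)} {F G F1 F2 F3 : ℝ}
    (I : Cb S F1 F G) {a₂ a₃ : ℕ} (p2 : 1 ≤ a₂) (p3 : 1 ≤ a₃) (t2 : inc τ₂ = CM a₂ a₂)
    (t3 : inc τ₃ = CM a₃ a₃) (hF0 : 0 ≤ F) (hF : F ≤ F1)
    (e2 : F2 = a₂ * F1 + a₂ * F + G) (e3 : F3 = a₃ * F2 + a₃ * F1 + F) (r s : Fin 3) :
    |pe (comp (comp S τ₂) τ₃) r 0 * pe (comp (comp S τ₂) τ₃) s 1 -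
      pe (comp (comp S τ₂) τ₃) r 1 * pe (comp (comp S τ₂) τ₃) s 0| ≤ F3 - 2 * F := by
  obtain ⟨r0, r1, r2⟩ := pe_comp (comp S τ₂) τ₃ t3 r
  obtain ⟨s0, s1, s2⟩ := pe_comp (comp S τ₂) τ₃ t3 s
  obtain ⟨u0, u1, u2⟩ := pe_comp S τ₂ t2 r
  obtain ⟨v0, v1, v2⟩ := pe_comp S τ₂ t2 s
  rw [r0, r1, s0, s1, u0, u1, u2, v0, v1, v2]
  have m1 := I.m01 r s
  have m2 := I.m02 r s
  have m3 := I.m12 r s
  obtain ⟨x, hx⟩ : ∃ x, x = pe S r 0 * pe S s 1 - pe S r 1 * pe S s 0 := ⟨_, rfl⟩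
  obtain ⟨y, hy⟩ : ∃ y, y = pe S r 0 * pe S s 2 - pe S r 2 * pe S s 0 := ⟨_, rfl⟩
  obtain ⟨w, hw⟩ : ∃ w, w = pe S r 1 * pe S s 2 - pe S r 2 * pe S s 1 := ⟨_, rfl⟩
  rw [← hx] at m1
  rw [← hy] at m2
  rw [← hw] at m3
  have e : (↑a₃ * (↑a₂ * pe S r 0 + pe S r 1) + (↑a₂ * pe S r 0 + pe S r 2)) *
        (↑a₃ * (↑a₂ * pe S s 0 + pe S s 1) + pe S s 0) -
      (↑a₃ * (↑a₂ * pe S r 0 + pe S r 1) + pe S r 0) *
        (↑a₃ * (↑a₂ * pe S s 0 + pe S s 1) + (↑a₂ * pe S s 0 + pe S s 2)) =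
      (a₃ : ℝ) * (((a₂ : ℝ) - 1) * x - a₂ * y - w) - y := by
    rw [hx, hy, hw]
    ring
  rw [e]
  have q2 : (0 : ℝ) ≤ (a₂ : ℝ) - 1 := by
    have : (1 : ℝ) ≤ a₂ := by exact_mod_cast p2
    linarith
  have q2' : (0 : ℝ) ≤ a₂ := by linarith
  have q3 : (1 : ℝ) ≤ (a₃ : ℝ) := by exact_mod_cast p3
  have q3' : (0 : ℝ) ≤ (a₃ : ℝ) := by linarith
  rw [abs_le] at m1 m2 m3 ⊢
  have k1 := mul_le_mul_of_nonneg_left m1.1 q2
  have k2 := mul_le_mul_of_nonneg_left m1.2 q2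
  have k3 := mul_le_mul_of_nonneg_left m2.1 q2'
  have k4 := mul_le_mul_of_nonneg_left m2.2 q2'
  have k5 : ((a₂ : ℝ) - 1) * x - a₂ * y - w ≤ ((a₂ : ℝ) - 1) * F1 + a₂ * F + G := by
    linarith [m3.1]
  have k6 : -(((a₂ : ℝ) - 1) * F1 + a₂ * F + G) ≤ ((a₂ : ℝ) - 1) * x - a₂ * y - w := by
    linarith [m3.2]
  have k7 := mul_le_mul_of_nonneg_left k5 q3'
  have k8 := mul_le_mul_of_nonneg_left k6 q3'
  have k9 : F ≤ a₃ * F1 := by
    have := mul_le_mul_of_nonneg_right q3 (show 0 ≤ F1 by linarith)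
    linarith
  have e4 : F3 - 2 * F = (a₃ : ℝ) * (((a₂ : ℝ) - 1) * F1 + a₂ * F + G) + F +
      2 * (a₃ * F1 - F) := by
    rw [e3, e2]; ring
  rw [e4]
  constructor
  · linarith [m2.2]
  · linarith [m2.1]

end Pool.Agent.H872.PC
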