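import Pool.Agent.H872.PC.MixMain
import Pool.Agent.H872.PC.MixGn
import Pool.Agent.H872.PC.BPMain
import Pool.Agent.H872.PC.T11

/-!
All compositions of cubic companion substitutions with `b ≤ a`.
-/

set_option autoImplicit false

namespace Pool.Agent.H872.PC
open Pool.Agent.H812R2.PI Pool.Agent.Q132.PT
open scoped BigOperators

theorem c3_of_inc {a b : ℕ} {σ : Fin 3 → List (Fin 3)} (h : inc σ = CM a b) : C3 a b σ := by
  have hc : ∀ i j, ((σ j).count i : ℤ) = CM a b i j := fun i j => congrFun (congrFun h i) j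
  refine ⟨?_, ?_, ?_⟩
  · rw [List.perm_iff_count]
    intro x
    have := hc x 0
    fin_cases x <;> simp [CM, List.count_replicate] at this ⊢ <;> omega
  · rw [List.perm_iff_count]
    intro x
    have := hc x 1
    fin_cases x <;> simp [CM, List.count_replicate] at this ⊢ <;> omega
  · have hp : (σ 2).Perm [0] := by
      rw [List.perm_iff_count]
      intro x
      have := hc x 2
      fin_cases x <;> simp [CM] at this ⊢ <;> omega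
    exact List.perm_singleton.1 hp

/-- `a = b = 1` -/
theorem mix11 (l : List (Fin 3 → List (Fin 3))) (hne : l ≠ [])
    (hl : ∀ τ ∈ l, C3 1 1 τ) : PisotMat (inc (compList l)) ∧ SemiConjToral (compList l) :=
  main_tree 1 1 (by omega) (by omega) (10 ^ 9) 9 5 (by omega) (by omega) (by norm_num) t11 chk011
    chkA11 (by decide +kernel) (by decide +kernel) (by decide +kernel) l hne hl

theorem Inv2.quad {A R W : ℝ} (hR : R = (A + 1) * (A + 2)) (hW : W = (A + 3) * (2 * A + 1) ^ 4)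
    {S τ₁ τ₂ τ₃ τ₄ : Fin 3 → List (Fin 3)} {K : ℝ} (hK : 0 ≤ K) (I : Inv2 S A R K)
    {a₁ a₂ a₃ a b : ℕ} (t1 : inc τ₁ = CM a₁ a₁) (t2 : inc τ₂ = CM a₂ a₂) (t3 : inc τ₃ = CM a₃ a₃)
    (t4 : inc τ₄ = CM a b) (p1 : 1 ≤ a₁) (p1' : (a₁ : ℝ) ≤ A) (p2 : 1 ≤ a₂) (p2' : (a₂ : ℝ) ≤ A)
    (p3 : 2 ≤ a₃) (p3' : (a₃ : ℝ) ≤ A) (hab : b ≤ a) (ha1 : 1 ≤ a) (haA : (a : ℝ) ≤ A) :
    Inv2 (comp (comp (comp (comp S τ₁) τ₂) τ₃) τ₄) A R ((1 - 1 / ((A + 4) * W)) * K) := by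
  obtain ⟨F, G, H, hr, hc⟩ := I
  obtain ⟨l0, l1, l2⟩ := Lr_comp S τ₁ t1
  obtain ⟨m0, m1, m2⟩ := Lr_comp (comp S τ₁) τ₂ t2
  obtain ⟨n0, n1, n2⟩ := Lr_comp (comp (comp S τ₁) τ₂) τ₃ t3
  obtain ⟨o0, o1, o2⟩ := Lr_comp (comp (comp (comp S τ₁) τ₂) τ₃) τ₄ t4
  obtain ⟨F1, e1⟩ : ∃ F1 : ℝ, F1 = a₁ * F + a₁ * G + H := ⟨_, rfl⟩
  obtain ⟨F2, e2⟩ : ∃ F2 : ℝ, F2 = a₂ * F1 + a₂ * F + G := ⟨_, rfl⟩
  obtain ⟨F3, e3⟩ : ∃ F3 : ℝ, F3 = a₃ * F2 + a₃ * F1 + F := ⟨_, rfl⟩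
  have hF := hr.Fp
  have hG := hr.Gp
  have hH := hr.Hp
  have p1r : (1 : ℝ) ≤ a₁ := by exact_mod_cast p1
  have p2r : (1 : ℝ) ≤ a₂ := by exact_mod_cast p2
  have p3n : 1 ≤ a₃ := by omega
  have p3r : (1 : ℝ) ≤ a₃ := by exact_mod_cast p3n
  have hF1 : F ≤ F1 := by
    have k1 := mul_le_mul_of_nonneg_right p1r hF.le
    have k2 := mul_le_mul_of_nonneg_right p1r hG.le
    rw [e1]; linarith
  have c1 := hc.step t1
  rw [← e1] at c1
  have c2 := c1.step t2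
  rw [← e2] at c2
  have c3 := c2.step t3
  rw [← e3] at c3
  have c3' : Cb (comp (comp (comp S τ₁) τ₂) τ₃) (F3 - 2 * F) F2 F1 :=
    ⟨gain hc.c01 hc.c02 hc.c12 hF.le hG.le hH.le p1 p2 p3 (c3_of_inc t1) (c3_of_inc t2)
      (c3_of_inc t3) F1 F2 F3 e1 e2 e3, c3.c02, c3.c12,
      gainm c1 p2 p3n t2 t3 hF.le hF1 e2 e3, c3.m02, c3.m12⟩
  have c4 := c3'.step t4
  refine ⟨b * (F3 - 2 * F) + a * F2 + F1, F3 - 2 * F, F2, ?_, c4⟩
  have q := hr.quad a₁ a₂ a₃ a b W p1r p1' p2r p2' p3r p3' (nat_or b) (by exact_mod_cast hab)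
    (by exact_mod_cast ha1) haA hR hK hW F1 F2 F3 _ _ _ e1 e2 e3 rfl rfl rfl
  rw [o0, o1, o2, n0, n1, n2, m0, m1, m2, l0, l1, l2]
  exact q

theorem snoc_of_pos {α : Type*} {p : List α} (h : 1 ≤ p.length) : ∃ q x, p = q ++ [x] := by
  rcases List.eq_nil_or_concat p with h' | ⟨q, x, h'⟩
  · rw [h'] at h
    simp at h
  · exact ⟨q, x, by rw [h']; simp⟩

theorem Inv2.four {A R W : ℝ} (hR : R = (A + 1) * (A + 2)) (hW : W = (A + 3) * (2 * A + 1) ^ 4)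
    {K : ℝ} (hK : 0 ≤ K) (l : List (Fin 3 → List (Fin 3)))
    (hl : ∀ τ ∈ l, ∃ a : ℕ, 1 ≤ a ∧ (a : ℝ) ≤ A ∧ inc τ = CM a a) (σ : Fin 3 → List (Fin 3))
    (hσl : σ ∈ l) (hσ : ∃ a : ℕ, 2 ≤ a ∧ (a : ℝ) ≤ A ∧ inc σ = CM a a)
    (L : List (Fin 3 → List (Fin 3))) (hL : Inv2 (compList L) A R K) :
    Inv2 (compList (L ++ (l ++ (l ++ (l ++ l))))) A R ((1 - 1 / ((A + 4) * W)) * K) := by
  have hok : ∀ τ ∈ l, Ok A τ := fun τ h => by
    obtain ⟨a, h1, h2, h3⟩ := hl τ h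
    exact ⟨a, a, le_refl _, h1, h2, h3⟩
  obtain ⟨a₃, p3, p3', t3⟩ := hσ
  have hlen : 1 ≤ l.length := List.length_pos_of_mem hσl
  obtain ⟨l1, l2, hl12⟩ := List.append_of_mem hσl
  obtain ⟨p, hp⟩ : ∃ p, p = l ++ (l ++ l1) := ⟨_, rfl⟩
  obtain ⟨q, τ₂, hq⟩ := snoc_of_pos (p := p) (by rw [hp]; simp; omega)
  have hqlen : 1 ≤ q.length := by
    have h1 := congrArg List.length hq
    rw [hp] at h1
    simp at h1
    omega
  obtain ⟨q', τ₁, hq'⟩ := snoc_of_pos hqlen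
  obtain ⟨τ₄, l3, h3⟩ : ∃ τ l3, l2 ++ l = τ :: l3 := by
    rcases h : l2 ++ l with _ | ⟨τ, l3⟩
    · rw [List.append_eq_nil_iff] at h
      rw [h.2] at hσl
      simp at hσl
    · exact ⟨τ, l3, rfl⟩
  have hmem1 : ∀ τ' ∈ p, τ' ∈ l := by
    intro τ' h
    rw [hp] at h
    rcases List.mem_append.1 h with h | h
    · exact h
    · rcases List.mem_append.1 h with h | h
      · exact h
      · rw [hl12]; simp [h]
  have hmem2 : ∀ τ' ∈ τ₄ :: l3, τ' ∈ l := by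
    intro τ' h
    rw [← h3] at h
    rcases List.mem_append.1 h with h | h
    · rw [hl12]; simp [h]
    · exact h
  have hpe : p = q' ++ [τ₁] ++ [τ₂] := by rw [hq, hq']
  have e : L ++ (l ++ (l ++ (l ++ l))) = (((((L ++ q') ++ [τ₁]) ++ [τ₂]) ++ [σ]) ++ [τ₄]) ++ l3 := by
    have e1 : l ++ (l ++ (l ++ l)) = p ++ σ :: (l2 ++ l) := by
      rw [hp]
      have e2 : l ++ l = l1 ++ σ :: (l2 ++ l) := by
        conv_lhs => lhs; rw [hl12]
        simp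
      conv_lhs => rhs; rhs; rw [e2]
      simp
    rw [e1, h3, hpe]
    simp
  obtain ⟨a₁, p1, p1', t1⟩ := hl τ₁ (hmem1 _ (by rw [hpe]; simp))
  obtain ⟨a₂, p2, p2', t2⟩ := hl τ₂ (hmem1 _ (by rw [hpe]; simp))
  obtain ⟨a, ha1, haA, t4⟩ := hl τ₄ (hmem2 _ (by simp))
  rw [e]
  refine Inv2.run hR l3 _ ?_ fun τ' h => hok τ' (hmem2 _ (List.mem_cons_of_mem _ h))
  rw [compList_snoc, compList_snoc, compList_snoc, compList_snoc]
  refine Inv2.quad hR hW hK ?_ t1 t2 t3 t4 p1 p1' p2 p2' p3 p3' (le_refl _) ha1 haA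
  exact Inv2.run hR q' L hL fun τ' h => hok τ' (hmem1 _ (by rw [hpe]; simp [h]))

theorem geo3 (l : List (Fin 3 → List (Fin 3)))
    (hl : ∀ τ ∈ l, ∃ a : ℕ, 1 ≤ a ∧ inc τ = CM a a)
    (hs : ∃ σ ∈ l, ∃ a : ℕ, 2 ≤ a ∧ inc σ = CM a a) : Geo l := by
  obtain ⟨σ, hσl, a, ha2, hσ⟩ := hs
  obtain ⟨A, hA1, haA, hA⟩ : ∃ A : ℝ, 1 ≤ A ∧ (a : ℝ) ≤ A ∧
      ∀ τ ∈ l, ∃ a : ℕ, 1 ≤ a ∧ (a : ℝ) ≤ A ∧ inc τ = CM a a := by
    clear hσl
    induction l with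
    | nil => exact ⟨max 1 a, le_max_left _ _, le_max_right _ _, by simp⟩
    | cons τ l ih =>
      obtain ⟨A, hA1, haA, hA⟩ := ih fun τ' h => hl τ' (List.mem_cons_of_mem _ h)
      obtain ⟨a', ha1', hτ⟩ := hl τ (by simp)
      refine ⟨max A a', le_max_of_le_left hA1, le_max_of_le_left haA, fun τ' h => ?_⟩
      rcases List.mem_cons.1 h with rfl | h
      · exact ⟨a', ha1', le_max_right _ _, hτ⟩
      · obtain ⟨a'', h2, h3, h4⟩ := hA τ' h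
        exact ⟨a'', h2, h3.trans (le_max_left _ _), h4⟩
  have hok : ∀ τ ∈ l, Ok A τ := fun τ h => by
    obtain ⟨a, h1, h2, h3⟩ := hA τ h
    exact ⟨a, a, le_refl _, h1, h2, h3⟩
  obtain ⟨R, hR⟩ : ∃ R : ℝ, R = (A + 1) * (A + 2) := ⟨_, rfl⟩
  obtain ⟨W, hW⟩ : ∃ W : ℝ, W = (A + 3) * (2 * A + 1) ^ 4 := ⟨_, rfl⟩
  have hW1 : 1 ≤ W := by
    have h1 : (1 : ℝ) ≤ (2 * A + 1) ^ 4 := one_le_pow₀ (by linarith)
    rw [hW]; nlinarith
  have hZW : 1 < (A + 4) * W := by nlinarith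
  obtain ⟨ρ, hρ⟩ : ∃ ρ : ℝ, ρ = 1 - 1 / ((A + 4) * W) := ⟨_, rfl⟩
  have hρ0 : 0 < ρ := by
    have h1 : 1 / ((A + 4) * W) < 1 := by rw [div_lt_one (by linarith)]; exact hZW
    rw [hρ]; linarith
  have hρ1 : ρ < 1 := by
    have h1 : 0 < 1 / ((A + 4) * W) := by positivity
    rw [hρ]; linarith
  have key : ∀ n : ℕ, Inv2 (compList ((List.replicate (4 * n) l).flatten)) A R (ρ ^ n * 20) := by
    intro n
    induction n with
    | zero =>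
      rw [pow_zero, one_mul]
      exact Inv2.base hA1 hR
    | succ n ih =>
      have e1 : (List.replicate (4 * (n + 1)) l).flatten =
          (List.replicate (4 * n) l).flatten ++ (l ++ (l ++ (l ++ l))) := by
        rw [show 4 * (n + 1) = 4 * n + 4 by ring, List.replicate_add, List.flatten_append]
        simp [List.replicate_succ]
      have e2 : ρ ^ (n + 1) * 20 = (1 - 1 / ((A + 4) * W)) * (ρ ^ n * 20) := by
        rw [← hρ, pow_succ]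
        ring
      rw [e1, e2]
      exact Inv2.four hR hW (by positivity) l hA σ hσl ⟨a, ha2, haA, hσ⟩ _ ih
  have key2 : ∀ N : ℕ, Inv2 (compList ((List.replicate N l).flatten)) A R (ρ ^ (N / 4) * 20) := by
    intro N
    have h1 := key (N / 4)
    have e1 : (List.replicate N l).flatten = (List.replicate (4 * (N / 4)) l).flatten ++
        (List.replicate (N % 4) l).flatten := by
      rw [← List.flatten_append, ← List.replicate_add, Nat.div_add_mod]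
    rw [e1]
    exact Inv2.run hR _ _ h1 fun τ h => hok τ (mem_flatten_replicate h)
  obtain ⟨η, hη⟩ : ∃ η : ℝ, η = Real.sqrt (Real.sqrt ρ) := ⟨_, rfl⟩
  have hs0 : 0 < Real.sqrt ρ := Real.sqrt_pos.2 hρ0
  have hη0 : 0 < η := by rw [hη]; exact Real.sqrt_pos.2 hs0
  have hη1 : η < 1 := by
    rw [hη, Real.sqrt_lt' one_pos, one_pow, Real.sqrt_lt' one_pos, one_pow]
    exact hρ1
  have hsq : η ^ 4 = ρ := by
    have h1 : η ^ 2 = Real.sqrt ρ := by rw [hη]; exact Real.sq_sqrt hs0.le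
    have h2 : Real.sqrt ρ ^ 2 = ρ := Real.sq_sqrt hρ0.le
    calc η ^ 4 = (η ^ 2) ^ 2 := by ring
      _ = ρ := by rw [h1, h2]
  refine ⟨20 / η ^ 3, η, by positivity, hη0, hη1, fun N S hS => ?_⟩
  obtain ⟨g0, g1, g2, g3, g4⟩ := (key2 N).out
  rw [← hS] at g0 g1 g2 g3 g4
  have hb : ρ ^ (N / 4) * 20 * Lr S 0 ≤ 20 / η ^ 3 * η ^ N * Lr S 0 := by
    refine mul_le_mul_of_nonneg_right ?_ g0.le
    have h1 : ρ ^ (N / 4) = η ^ (4 * (N / 4)) := by rw [pow_mul, hsq]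
    have h2 : η ^ (4 * (N / 4) + 3) ≤ η ^ N :=
      pow_le_pow_of_le_one hη0.le hη1.le (by omega)
    rw [pow_add] at h2
    have e3 : 20 / η ^ 3 * η ^ N = (20 * η ^ N) / η ^ 3 := by ring
    rw [h1, e3, le_div_iff₀ (by positivity)]
    linarith
  exact ⟨g0, fun x y => (g1 x y).trans hb, fun r s => (g2 r s).trans hb,
    fun r s => (g3 r s).trans hb, fun r s => (g4 r s).trans hb⟩

/-- all compositions with `b ≤ a` -/
theorem all_mixed (l : List (Fin 3 → List (Fin 3))) (hne : l ≠ [])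
    (hl : ∀ τ ∈ l, ∃ a b : ℕ, b ≤ a ∧ 1 ≤ a ∧ inc τ = CM a b) :
    PisotMat (inc (compList l)) ∧ SemiConjToral (compList l) := by
  by_cases hs : ∃ σ ∈ l, ∃ a b : ℕ, b < a ∧ inc σ = CM a b
  · exact mix_semi l hne hl (mixC2 l hl hs)
  · have hb : ∀ τ ∈ l, ∃ a : ℕ, 1 ≤ a ∧ inc τ = CM a a := by
      intro τ h
      obtain ⟨a, b, hab, ha, hτ⟩ := hl τ h
      rcases Nat.lt_or_eq_of_le hab with h1 | h1
      · exact absurd ⟨τ, h, a, b, h1, hτ⟩ hs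
      · subst h1
        exact ⟨b, ha, hτ⟩
    by_cases h2 : ∃ σ ∈ l, ∃ a : ℕ, 2 ≤ a ∧ inc σ = CM a a
    · exact mix_semi l hne hl (geo3 l hb h2)
    · refine mix11 l hne fun τ h => ?_
      obtain ⟨a, ha, hτ⟩ := hb τ h
      rcases Nat.lt_or_eq_of_le ha with h1 | h1
      · exact absurd ⟨τ, h, a, h1, hτ⟩ h2
      · subst h1
        exact c3_of_inc hτ

end Pool.Agent.H872.PC
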