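import Pool.Graph.R_seed8.H812R2.PI.Defs

/-! Three by three integer matrices whose large powers have small minors are Pisot. -/

set_option autoImplicit false

open Pool.Agent.H812R2.PI (PisotMat)
open Polynomial

namespace Pool.Agent.H872.PC

/-- sum of the principal 2 x 2 minors -/
def d2 (Q : Matrix (Fin 3) (Fin 3) ℤ) : ℤ :=
  (Q 0 0 * Q 1 1 - Q 0 1 * Q 1 0) + (Q 0 0 * Q 2 2 - Q 0 2 * Q 2 0) +
    (Q 1 1 * Q 2 2 - Q 1 2 * Q 2 1)

namespace PowL

theorem eval_cp (R : Type) [CommRing R] (M : Matrix (Fin 3) (Fin 3) R) (x : R) :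
    M.charpoly.eval x = x ^ 3 - (M 0 0 + M 1 1 + M 2 2) * x ^ 2 +
      ((M 0 0 * M 1 1 - M 0 1 * M 1 0) + (M 0 0 * M 2 2 - M 0 2 * M 2 0) +
        (M 1 1 * M 2 2 - M 1 2 * M 2 1)) * x - M.det := by
  rw [Matrix.eval_charpoly, Matrix.det_fin_three, Matrix.det_fin_three]
  simp [Matrix.scalar_apply]
  ring

theorem root_iff (R : Type) [CommRing R] (Q : Matrix (Fin 3) (Fin 3) ℤ) (hQ : Q.det = 1) (x : R) :
    (Q.map (Int.cast : ℤ → R)).charpoly.IsRoot x ↔
      x ^ 3 - ((Q.trace : ℤ) : R) * x ^ 2 + ((d2 Q : ℤ) : R) * x - 1 = 0 := by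
  have hdet : (Q.map (Int.cast : ℤ → R)).det = 1 := by
    have h := Int.cast_det (R := R) Q
    rw [hQ] at h
    rw [← h]
    simp
  rw [IsRoot.def, eval_cp, hdet]
  have e : Q.trace = Q 0 0 + Q 1 1 + Q 2 2 := by
    rw [Matrix.trace, Fin.sum_univ_three]
    rfl
  rw [e]
  unfold d2
  simp only [Matrix.map_apply]
  push_cast
  rfl

/-- the real root and the other roots -/
theorem cubic (t d : ℝ) (h : |d| < t) :
    ∃ lam : ℝ, 1 < lam ∧ lam ^ 3 - t * lam ^ 2 + d * lam - 1 = 0 ∧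
      ∀ μ : ℂ, μ ^ 3 - (t : ℂ) * μ ^ 2 + (d : ℂ) * μ - 1 = 0 → μ ≠ (lam : ℂ) → ‖μ‖ < 1 := by
  obtain ⟨hd1, hd2⟩ := abs_lt.1 h
  have ht : 0 < t := (abs_nonneg d).trans_lt h
  have hcont : Continuous (fun x : ℝ => x ^ 3 - t * x ^ 2 + d * x - 1) := by fun_prop
  have h1 : (1 : ℝ) ^ 3 - t * 1 ^ 2 + d * 1 - 1 < 0 := by linarith
  have h2 : 0 < (t + 2) ^ 3 - t * (t + 2) ^ 2 + d * (t + 2) - 1 := by
    nlinarith [mul_pos (by linarith : 0 < d + t) (by linarith : 0 < t + 2)]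
  obtain ⟨lam, ⟨hlam, -⟩, h3⟩ := intermediate_value_Ioo (by linarith : (1 : ℝ) ≤ t + 2)
    hcont.continuousOn ⟨h1, h2⟩
  have h3' : lam ^ 3 - t * lam ^ 2 + d * lam - 1 = 0 := h3
  refine ⟨lam, hlam, h3', ?_⟩
  intro μ hμ hne
  have hlam0 : lam ≠ 0 := by linarith
  obtain ⟨c, hc⟩ : ∃ c : ℝ, c = 1 / lam := ⟨_, rfl⟩
  have hc0 : 0 < c := by rw [hc]; positivity
  have hc1 : c < 1 := by
    rw [hc, div_lt_one (by linarith)]
    exact hlam
  have hcl : c * lam = 1 := by
    rw [hc]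
    field_simp
  obtain ⟨s, hs⟩ : ∃ s : ℝ, s = lam - t := ⟨_, rfl⟩
  have hd : d = c - lam * s := by
    have h5 : lam * (lam ^ 2 - t * lam + d - c) = 0 := by linarith [mul_comm c lam]
    rcases mul_eq_zero.1 h5 with h6 | h6
    · exact absurd h6 hlam0
    · rw [hs]; linarith
  have htt : t = lam - s := by linarith
  have hq : μ ^ 2 + (s : ℂ) * μ + (c : ℂ) = 0 := by
    have hdC : (d : ℂ) = (c : ℂ) - lam * s := by exact_mod_cast hd
    have htC : (t : ℂ) = (lam : ℂ) - s := by exact_mod_cast htt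
    have hclC : (c : ℂ) * lam = 1 := by exact_mod_cast hcl
    have h7 : (μ - lam) * (μ ^ 2 + (s : ℂ) * μ + (c : ℂ)) = 0 := by
      rw [← hμ, hdC, htC]
      linear_combination (-1 : ℂ) * hclC
    rcases mul_eq_zero.1 h7 with h8 | h8
    · exact absurd (sub_eq_zero.1 h8) hne
    · exact h8
  have hre : μ.re ^ 2 - μ.im ^ 2 + s * μ.re + c = 0 := by
    have := congrArg Complex.re hq
    simp [pow_two] at this
    nlinarith [this]
  have him : 2 * μ.re * μ.im + s * μ.im = 0 := by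
    have := congrArg Complex.im hq
    simp [pow_two] at this
    nlinarith [this]
  have hnorm : ‖μ‖ ^ 2 = μ.re ^ 2 + μ.im ^ 2 := by
    rw [← Complex.normSq_eq_norm_sq, Complex.normSq_apply]
    ring
  -- the values of the quadratic at one and minus one
  have hp1 : 0 < 1 + s + c := by
    have h9 : (lam - 1) * (1 + s + c) = t - d := by
      rw [hd, htt]
      linear_combination hcl
    have h10 : 0 < (lam - 1) * (1 + s + c) := by rw [h9]; linarith
    exact (mul_pos_iff_of_pos_left (by linarith)).1 h10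
  have hm1 : 0 < 1 - s + c := by
    have h9 : (lam + 1) * (1 - s + c) = 2 + t + d := by
      rw [hd, htt]
      linear_combination hcl
    have h10 : 0 < (lam + 1) * (1 - s + c) := by rw [h9]; linarith
    exact (mul_pos_iff_of_pos_left (by linarith)).1 h10
  have hlt : ‖μ‖ ^ 2 < 1 := by
    rw [hnorm]
    by_cases hy : μ.im = 0
    · rw [hy] at hre ⊢
      obtain ⟨x, hx⟩ : ∃ x : ℝ, x = μ.re := ⟨_, rfl⟩
      rw [← hx] at hre ⊢
      obtain ⟨y, hyd⟩ : ∃ y : ℝ, y = -s - x := ⟨_, rfl⟩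
      have h11 : x * y = c := by rw [hyd]; linarith
      have h12 : (1 + x) * (1 + y) = 1 - s + c := by rw [← h11, hyd]; ring
      have h13 : (1 - x) * (1 - y) = 1 + s + c := by rw [← h11, hyd]; ring
      have hgt : -1 < x := by
        by_contra hcon
        rw [not_lt] at hcon
        have h14 : 1 + y < 0 := by
          by_contra hcon2
          rw [not_lt] at hcon2
          have : (1 + x) * (1 + y) ≤ 0 :=
            mul_nonpos_of_nonpos_of_nonneg (by linarith) hcon2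
          linarith
        nlinarith [mul_nonneg (by linarith : 0 ≤ -1 - x) (by linarith : 0 ≤ -1 - y)]
      have hls : x < 1 := by
        by_contra hcon
        rw [not_lt] at hcon
        have h14 : 1 - y < 0 := by
          by_contra hcon2
          rw [not_lt] at hcon2
          have : (1 - x) * (1 - y) ≤ 0 :=
            mul_nonpos_of_nonpos_of_nonneg (by linarith) hcon2
          linarith
        nlinarith [mul_nonneg (by linarith : 0 ≤ x - 1) (by linarith : 0 ≤ y - 1)]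
      nlinarith
    · have hx : 2 * μ.re + s = 0 := by
        have h15 : (2 * μ.re + s) * μ.im = 0 := by linarith
        rcases mul_eq_zero.1 h15 with h16 | h16
        · exact h16
        · exact absurd h16 hy
      have h17 : μ.re ^ 2 + μ.im ^ 2 = c := by
        have h18 : s = - 2 * μ.re := by linarith
        rw [h18] at hre
        linarith [hre]
      rw [h17]
      exact hc1
  nlinarith [norm_nonneg μ]

theorem pow_root (M : Matrix (Fin 3) (Fin 3) ℂ) (μ : ℂ) (h : M.charpoly.IsRoot μ) (n : ℕ) :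
    (M ^ n).charpoly.IsRoot (μ ^ n) := by
  rw [IsRoot.def, Matrix.eval_charpoly] at h ⊢
  rw [← Matrix.exists_mulVec_eq_zero_iff] at h ⊢
  obtain ⟨v, hv0, hv⟩ := h
  have hev : M.mulVec v = μ • v := by
    rw [Matrix.sub_mulVec, sub_eq_zero] at hv
    rw [← hv]
    funext i
    simp [Matrix.scalar_apply]
  have hpow : ∀ k : ℕ, (M ^ k).mulVec v = (μ ^ k) • v := by
    intro k
    induction k with
    | zero => simp
    | succ k ih =>
      rw [pow_succ, ← Matrix.mulVec_mulVec, hev, Matrix.mulVec_smul, ih, smul_smul, pow_succ,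
        mul_comm]
  refine ⟨v, hv0, ?_⟩
  rw [Matrix.sub_mulVec, hpow n]
  funext i
  simp [Matrix.scalar_apply]

theorem norm_prod_le (s : Multiset ℂ) (h : ∀ x ∈ s, ‖x‖ < 1) : ‖s.prod‖ ≤ 1 := by
  induction s using Multiset.induction_on with
  | empty => simp
  | cons a s ih =>
    rw [Multiset.prod_cons, norm_mul]
    have h1 := ih fun x hx => h x (Multiset.mem_cons_of_mem hx)
    have h2 := h a (Multiset.mem_cons_self a s)
    nlinarith [norm_nonneg a, norm_nonneg s.prod]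

theorem exists_big (M : Matrix (Fin 3) (Fin 3) ℂ) (hM : M.det = 1) :
    ∃ μ, M.charpoly.IsRoot μ ∧ 1 ≤ ‖μ‖ := by
  by_contra hcon
  push Not at hcon
  have hmon := Matrix.charpoly_monic M
  have h1 := Matrix.det_eq_prod_roots_charpoly M
  have h2 : ∀ x ∈ M.charpoly.roots, ‖x‖ < 1 := fun x hx =>
    hcon x ((mem_roots hmon.ne_zero).1 hx)
  have h3 : M.charpoly.roots ≠ 0 := by
    intro h0
    have h4 := IsAlgClosed.card_roots_eq_natDegree (p := M.charpoly)
    rw [h0, Matrix.charpoly_natDegree_eq_dim] at h4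
    simp at h4
  obtain ⟨a, ha⟩ := Multiset.exists_mem_of_ne_zero h3
  obtain ⟨s, hs⟩ := Multiset.exists_cons_of_mem ha
  rw [hs] at h1 h2
  have h5 := norm_prod_le s fun x hx => h2 x (Multiset.mem_cons_of_mem hx)
  have h6 := h2 a (Multiset.mem_cons_self a s)
  have h7 := congrArg norm h1
  rw [hM, Multiset.prod_cons, norm_mul, norm_one] at h7
  nlinarith [norm_nonneg a, norm_nonneg s.prod]

theorem irr (Q : Matrix (Fin 3) (Fin 3) ℤ) (hQ : Q.det = 1)
    (h : ∀ n : ℤ, IsUnit n → n ^ 3 - Q.trace * n ^ 2 + d2 Q * n - 1 ≠ 0) :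
    Irreducible (Q.map (Int.cast : ℤ → ℚ)).charpoly := by
  have hmon : (Q.map (Int.cast : ℤ → ℚ)).charpoly.Monic := Matrix.charpoly_monic _
  have hdeg : (Q.map (Int.cast : ℤ → ℚ)).charpoly.natDegree = 3 := by
    rw [Matrix.charpoly_natDegree_eq_dim]
    simp
  rw [hmon.irreducible_iff_roots_eq_zero_of_degree_le_three (by rw [hdeg]; norm_num)
    (by rw [hdeg])]
  rw [Multiset.eq_zero_iff_forall_notMem]
  intro r hr
  rw [mem_roots hmon.ne_zero] at hr
  rw [root_iff ℚ Q hQ] at hr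
  have hint : IsIntegral ℤ r := by
    refine ⟨X ^ 3 - C Q.trace * X ^ 2 + C (d2 Q) * X - 1, ?_, ?_⟩
    · monicity!
    · simp only [eval₂_sub, eval₂_add, eval₂_pow, eval₂_X, eval₂_mul, eval₂_C, eval₂_one]
      simpa using hr
  obtain ⟨n, hn⟩ := IsIntegrallyClosed.isIntegral_iff.1 hint
  have hn' : r = (n : ℚ) := by rw [← hn]; simp
  rw [hn'] at hr
  have hr' : n ^ 3 - Q.trace * n ^ 2 + d2 Q * n - 1 = 0 := by exact_mod_cast hr
  refine h n ?_ hr'
  have h1 : n * (n ^ 2 - Q.trace * n + d2 Q) = 1 := by linarith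
  exact IsUnit.of_mul_eq_one _ h1

end PowL

open PowL in
theorem pisot_of_powers (P : Matrix (Fin 3) (Fin 3) ℤ) (hdet : P.det = 1) (N₀ : ℕ)
    (h : ∀ N, N₀ ≤ N → |d2 (P ^ N)| < (P ^ N).trace) : PisotMat P := by
  have hdetN : ∀ N, (P ^ N).det = 1 := fun N => by rw [Matrix.det_pow, hdet, one_pow]
  have hmap : ∀ N, (P ^ N).map (Int.cast : ℤ → ℂ) = (P.map (Int.cast : ℤ → ℂ)) ^ N := by
    intro N
    have h1 := Matrix.map_pow (M := P) (f := Int.castRingHom ℂ) N
    simpa using h1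
  have hc : ∀ N, N₀ ≤ N → ∃ lam : ℝ, 1 < lam ∧ ∀ μ : ℂ,
      ((P ^ N).map (Int.cast : ℤ → ℂ)).charpoly.IsRoot μ → μ ≠ (lam : ℂ) → ‖μ‖ < 1 := by
    intro N hN
    have h1 : |((d2 (P ^ N) : ℤ) : ℝ)| < (((P ^ N).trace : ℤ) : ℝ) := by
      exact_mod_cast h N hN
    obtain ⟨lam, h2, -, h3⟩ := cubic _ _ h1
    refine ⟨lam, h2, fun μ hμ hne => h3 μ ?_ hne⟩
    rw [root_iff ℂ (P ^ N) (hdetN N)] at hμ
    push_cast
    exact hμ
  obtain ⟨a, ha1, ha⟩ := hc (N₀ + 1) (by omega)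
  obtain ⟨b, hb1, hb⟩ := hc (N₀ + 2) (by omega)
  have key : ∀ μ : ℂ, (P.map (Int.cast : ℤ → ℂ)).charpoly.IsRoot μ → 1 ≤ ‖μ‖ →
      μ ^ (N₀ + 1) = (a : ℂ) ∧ μ = ((b / a : ℝ) : ℂ) := by
    intro μ hμ h1
    have h2 : μ ^ (N₀ + 1) = (a : ℂ) := by
      by_contra hne
      have h3 := ha (μ ^ (N₀ + 1)) (by rw [hmap]; exact pow_root _ _ hμ _) hne
      rw [norm_pow] at h3
      have h4 : 1 ≤ ‖μ‖ ^ (N₀ + 1) := one_le_pow₀ h1
      linarith
    have h3 : μ ^ (N₀ + 2) = (b : ℂ) := by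
      by_contra hne
      have h3 := hb (μ ^ (N₀ + 2)) (by rw [hmap]; exact pow_root _ _ hμ _) hne
      rw [norm_pow] at h3
      have h4 : 1 ≤ ‖μ‖ ^ (N₀ + 2) := one_le_pow₀ h1
      linarith
    refine ⟨h2, ?_⟩
    have ha0 : (a : ℂ) ≠ 0 := by
      have : a ≠ 0 := by linarith
      exact_mod_cast this
    have h4 : (a : ℂ) * μ = b := by rw [← h2, ← pow_succ]; exact h3
    push_cast
    rw [eq_div_iff ha0, mul_comm]
    exact h4
  have hdetC : (P.map (Int.cast : ℤ → ℂ)).det = 1 := by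
    have h1 := Int.cast_det (R := ℂ) P
    rw [hdet] at h1
    rw [← h1]
    simp
  obtain ⟨μ₀, hμ₀, hbig⟩ := exists_big _ hdetC
  obtain ⟨h1, h2⟩ := key μ₀ hμ₀ hbig
  have hba : 1 < b / a := by
    have hpos : 0 < b / a := div_pos (by linarith) (by linarith)
    by_contra hcon
    rw [not_lt] at hcon
    rw [h2] at h1
    have h3 : (b / a) ^ (N₀ + 1) = a := by exact_mod_cast h1
    have h4 : (b / a) ^ (N₀ + 1) ≤ 1 := pow_le_one₀ hpos.le hcon
    linarith
  refine ⟨?_, Or.inl hdet, b / a, hba, ?_, ?_⟩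
  · apply irr P hdet
    intro n hn h0
    have h3 : (P.map (Int.cast : ℤ → ℂ)).charpoly.IsRoot (n : ℂ) := by
      rw [root_iff ℂ P hdet]
      exact_mod_cast h0
    have h4 : ‖(n : ℂ)‖ = 1 := by
      rcases Int.isUnit_iff.1 hn with rfl | rfl <;> simp
    obtain ⟨-, h5⟩ := key (n : ℂ) h3 h4.ge
    rw [h5, Complex.norm_real, Real.norm_eq_abs, abs_of_pos (by linarith)] at h4
    linarith
  · rw [← h2]
    exact hμ₀
  · intro μ hμ hne
    refine ⟨?_, ?_⟩
    · rw [norm_pos_iff]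
      rintro rfl
      rw [root_iff ℂ P hdet] at hμ
      simp at hμ
    · by_contra hcon
      rw [not_lt] at hcon
      exact hne (key μ hμ hcon).2

end Pool.Agent.H872.PC
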