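import Pool.Agent.H872.PC.Mix
import Pool.Agent.H872.PC.Pow

/-!
Mixed compositions of cubic companion substitutions with `b ≤ a`: the conjecture.
-/

set_option autoImplicit false

namespace Pool.Agent.H872.PC
open Pool.Agent.H812R2.PI Pool.Agent.Q132.PT
open scoped BigOperators

theorem pe_left {a b : ℕ} (τ S : Fin 3 → List (Fin 3)) (h : inc τ = CM a b) (j : Fin 3) :
    pe (comp τ S) 0 j = a * pe S 0 j + b * pe S 1 j + pe S 2 j ∧
    pe (comp τ S) 1 j = pe S 0 j ∧
    pe (comp τ S) 2 j = pe S 1 j := by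
  unfold pe
  rw [inc_comp, h]
  refine ⟨?_, ?_, ?_⟩
  · rw [Matrix.mul_apply, Fin.sum_univ_three]
    simp [CM]
  · rw [Matrix.mul_apply, Fin.sum_univ_three]
    simp [CM]
  · rw [Matrix.mul_apply, Fin.sum_univ_three]
    simp [CM]

theorem pe_top (l : List (Fin 3 → List (Fin 3)))
    (hl : ∀ τ ∈ l, ∃ a b : ℕ, b ≤ a ∧ 1 ≤ a ∧ inc τ = CM a b) (h2 : 2 ≤ l.length) :
    Lr (compList l) 0 ≤ 3 * pe (compList l) 0 0 := by
  rcases l with _ | ⟨τ₁, l⟩
  · simp at h2
  rcases l with _ | ⟨τ₂, l⟩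
  · simp at h2
  obtain ⟨a, b, -, hab, h1⟩ := hl τ₁ (by simp)
  obtain ⟨a', b', -, hab', h1'⟩ := hl τ₂ (by simp)
  have e1 : compList (τ₁ :: τ₂ :: l) = comp τ₁ (comp τ₂ (compList l)) := rfl
  rw [e1]
  obtain ⟨p0, p1, p2⟩ := pe_left τ₁ (comp τ₂ (compList l)) h1 0
  obtain ⟨q0, q1, q2⟩ := pe_left τ₂ (compList l) h1' 0
  have n0 := pe_nn (comp τ₂ (compList l)) 0 0
  have n1 := pe_nn (comp τ₂ (compList l)) 1 0
  have n2 := pe_nn (comp τ₂ (compList l)) 2 0
  have m0 := pe_nn (compList l) 0 0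
  have m1 := pe_nn (compList l) 1 0
  have m2 := pe_nn (compList l) 2 0
  have ha : (1 : ℝ) ≤ a := by exact_mod_cast hab
  have ha' : (1 : ℝ) ≤ a' := by exact_mod_cast hab'
  have k1 := mul_le_mul_of_nonneg_right ha n0
  have k2 := mul_le_mul_of_nonneg_right ha' m0
  have k3 := mul_nonneg (Nat.cast_nonneg (α := ℝ) b) n1
  have k4 := mul_nonneg (Nat.cast_nonneg (α := ℝ) b') m1
  have s1 : pe (comp τ₁ (comp τ₂ (compList l))) 1 0 ≤
      pe (comp τ₁ (comp τ₂ (compList l))) 0 0 := by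
    rw [p0, p1]
    linarith
  have s2 : pe (comp τ₁ (comp τ₂ (compList l))) 2 0 ≤
      pe (comp τ₁ (comp τ₂ (compList l))) 0 0 := by
    rw [p2, q1]
    have : pe (compList l) 0 0 ≤ pe (comp τ₂ (compList l)) 0 0 := by
      rw [q0]
      linarith
    linarith
  unfold Lr
  linarith

theorem det_list (l : List (Fin 3 → List (Fin 3)))
    (hl : ∀ τ ∈ l, ∃ a b : ℕ, inc τ = CM a b) : (inc (compList l)).det = 1 := by
  induction l with
  | nil =>
    rw [inc_compList 0 [] (by simp)]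
    simp
  | cons τ l ih =>
    obtain ⟨a, b, h⟩ := hl τ (by simp)
    have e : compList (τ :: l) = comp τ (compList l) := rfl
    rw [e, inc_comp, Matrix.det_mul, h, PisL.det_one, one_mul]
    exact ih fun τ' h' => hl τ' (List.mem_cons_of_mem _ h')

/-- geometric bounds for the iterates of a composition -/
def Geo (l : List (Fin 3 → List (Fin 3))) : Prop :=
  ∃ (C η : ℝ), 0 < C ∧ 0 < η ∧ η < 1 ∧ ∀ (N : ℕ) (S : Fin 3 → List (Fin 3)),
    S = compList ((List.replicate N l).flatten) →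
      0 < Lr S 0 ∧ (∀ x y, (cst S x y : ℝ) ≤ C * η ^ N * Lr S 0) ∧
      (∀ r s, |pe S r 0 * pe S s 1 - pe S r 1 * pe S s 0| ≤ C * η ^ N * Lr S 0) ∧
      (∀ r s, |pe S r 0 * pe S s 2 - pe S r 2 * pe S s 0| ≤ C * η ^ N * Lr S 0) ∧
      (∀ r s, |pe S r 1 * pe S s 2 - pe S r 2 * pe S s 1| ≤ C * η ^ N * Lr S 0)

theorem mix_pisot (l : List (Fin 3 → List (Fin 3))) (hne : l ≠ [])
    (hl : ∀ τ ∈ l, ∃ a b : ℕ, b ≤ a ∧ 1 ≤ a ∧ inc τ = CM a b)
    (hs : Geo l) : PisotMat (inc (compList l)) := by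
  obtain ⟨C, η, hC, hη, hη1, hall⟩ := hs
  have hdet : (inc (compList l)).det = 1 := det_list l fun τ h => by
    obtain ⟨a, b, -, -, h⟩ := hl τ h
    exact ⟨a, b, h⟩
  have hlen : 1 ≤ l.length := List.length_pos_iff.2 hne
  obtain ⟨n, hn⟩ := exists_pow_lt_of_lt_one (show (0 : ℝ) < 1 / (9 * C) by positivity) hη1
  refine pisot_of_powers _ hdet (max n 2) fun N hN => ?_
  have hN1 : n ≤ N := (le_max_left _ _).trans hN
  have hN2 : 2 ≤ N := (le_max_right _ _).trans hN
  obtain ⟨L, hL⟩ : ∃ L, L = (List.replicate N l).flatten := ⟨_, rfl⟩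
  have hmem : ∀ τ ∈ L, τ ∈ l := fun τ h => mem_flatten_replicate (by rw [← hL]; exact h)
  have hLl : L.length = N * l.length := by rw [hL]; exact flatten_length l N
  have hLN : N ≤ L.length := by
    rw [hLl]
    exact Nat.le_mul_of_pos_right _ hlen
  obtain ⟨g0, -, g1, g2, g3⟩ := hall N (compList L) (by rw [hL])
  have g4 := pe_top L (fun τ h => hl τ (hmem τ h)) (hN2.trans hLN)
  have hinc : inc (compList L) = inc (compList l) ^ N := by
    rw [hL, Pool.Agent.Y316.Pisot.compList_flatten, inc_iter]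
  rw [← hinc]
  have hp0 : 0 < pe (compList L) 0 0 := by linarith
  have hpow : 9 * C * η ^ N < 1 := by
    have h1 : η ^ N ≤ η ^ n := pow_le_pow_of_le_one hη.le hη1.le hN1
    have h2 : η ^ N < 1 / (9 * C) := lt_of_le_of_lt h1 hn
    rw [lt_div_iff₀ (by positivity)] at h2
    linarith
  have h3 : C * η ^ N * Lr (compList L) 0 ≤
      C * η ^ N * (3 * pe (compList L) 0 0) :=
    mul_le_mul_of_nonneg_left g4 (by positivity)
  have h4 : 9 * C * η ^ N * pe (compList L) 0 0 < 1 * pe (compList L) 0 0 :=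
    mul_lt_mul_of_pos_right hpow hp0
  have e : ((d2 (inc (compList L)) : ℤ) : ℝ) =
      (pe (compList L) 0 0 * pe (compList L) 1 1 - pe (compList L) 0 1 * pe (compList L) 1 0) +
      (pe (compList L) 0 0 * pe (compList L) 2 2 - pe (compList L) 0 2 * pe (compList L) 2 0) +
      (pe (compList L) 1 1 * pe (compList L) 2 2 - pe (compList L) 1 2 * pe (compList L) 2 1) := by
    unfold d2 pe
    push_cast
    ring
  have h5 : (|d2 (inc (compList L))| : ℝ) < pe (compList L) 0 0 := by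
    rw [e]
    have a1 := abs_le.1 (g1 0 1)
    have a2 := abs_le.1 (g2 0 2)
    have a3 := abs_le.1 (g3 1 2)
    rw [abs_lt]
    constructor <;> linarith [a1.1, a1.2, a2.1, a2.2, a3.1, a3.2]
  have e2 : (((inc (compList L)).trace : ℤ) : ℝ) =
      pe (compList L) 0 0 + pe (compList L) 1 1 + pe (compList L) 2 2 := by
    rw [Matrix.trace, Fin.sum_univ_three]
    unfold pe
    push_cast
    rfl
  have h6 : ((|d2 (inc (compList L))| : ℤ) : ℝ) < (((inc (compList L)).trace : ℤ) : ℝ) := by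
    rw [e2]
    push_cast
    have n1 := pe_nn (compList L) 1 1
    have n2 := pe_nn (compList L) 2 2
    linarith
  exact_mod_cast h6

theorem mix_semi (l : List (Fin 3 → List (Fin 3))) (hne : l ≠ [])
    (hl : ∀ τ ∈ l, ∃ a b : ℕ, b ≤ a ∧ 1 ≤ a ∧ inc τ = CM a b)
    (hs : Geo l) :
    PisotMat (inc (compList l)) ∧ SemiConjToral (compList l) := by
  have hM := mix_pisot l hne hl hs
  refine ⟨hM, ?_⟩
  obtain ⟨C, η, hC, hη, hη1, hall⟩ := hs
  obtain ⟨P⟩ := Pool.Agent.Q132.PC.exists_PD' (inc (compList l))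
    (fun i j => by unfold inc; positivity) hM
  have hdet : IsUnit (inc (compList l)).det := by
    rcases hM.2.1 with h | h <;> rw [h]
    · exact isUnit_one
    · exact isUnit_one.neg
  obtain ⟨R, hR⟩ : ∃ R : ℝ, R = ∑ i, 1 / P.ell i := ⟨_, rfl⟩
  have hRi : ∀ i, 1 ≤ R * P.ell i := by
    intro i
    rw [← div_le_iff₀ (P.ell_pos i), hR]
    exact Finset.single_le_sum (f := fun i => 1 / P.ell i)
      (fun i _ => div_nonneg zero_le_one (P.ell_pos i).le) (Finset.mem_univ i)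
  have hgl : ∀ n, Lr (iter (compList l) n) 0 ≤ R * (P.lam ^ n * P.ell 0) := by
    intro n
    have e : Lr (iter (compList l) n) 0 = ∑ i, ((inc (compList l) ^ n) i 0 : ℝ) := by
      rw [Fin.sum_univ_three, ← inc_iter]
      rfl
    rw [e, ← ell_pow P n 0, Finset.mul_sum]
    refine Finset.sum_le_sum fun i _ => ?_
    have h1 : (0:ℝ) ≤ (((inc (compList l)) ^ n) i 0 : ℝ) := by
      rw [← inc_iter]
      exact pe_nn _ i 0
    have h2 := mul_le_mul_of_nonneg_right (hRi i) h1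
    linarith
  have hlam : 1 < P.lam := P.lam_gt
  have hΘ0 : 0 ≤ η * P.lam := mul_nonneg hη.le (by linarith)
  have hΘ1 : η * P.lam < P.lam := by nlinarith
  have hcost : ∀ n x y, (cst (iter (compList l) n) x y : ℝ) ≤
      (C * (R * P.ell 0)) * (η * P.lam) ^ n := by
    intro n x y
    obtain ⟨-, h1, -⟩ := hall n (iter (compList l) n)
      (Pool.Agent.Y316.Pisot.compList_flatten l n).symm
    have h3 : 0 ≤ C * η ^ n := by positivity
    refine (h1 x y).trans ((mul_le_mul_of_nonneg_left (hgl n) h3).trans (le_of_eq ?_))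
    rw [mul_pow]
    ring
  refine semi_of_small P hdet fun ε hε => ?_
  obtain ⟨n₀, hn₀⟩ := small_of_geom (C := C * (R * P.ell 0)) P.lam_gt hΘ0 hΘ1
    (fun n => (C * (R * P.ell 0)) * (η * P.lam) ^ n) (fun n => le_rfl) ε hε
  exact ⟨n₀, fun n hn x y => (hcost n x y).trans (hn₀ n hn)⟩

end Pool.Agent.H872.PC
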