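import Pool.Agent.H872.PC.F0
import Pool.Agent.H872.PC.H0
import Pool.Agent.H872.PC.F1
import Pool.Agent.H872.PC.H1

/-!
The recursion of the costs.
-/

set_option autoImplicit false

namespace Pool.Agent.H872.PC
open Pool.Agent.H812R2.PI Pool.Agent.Q132.PT
open scoped BigOperators

/-- linear bounds of the costs -/
structure Bd (S : Fin 3 → List (Fin 3)) (K f φ g h h0 : ℝ) : Prop where
  F : ∀ k : ℕ, (cf S (k + 1) : ℝ) ≤ K * (f * (k + 1) + φ)
  G : ∀ k : ℕ, (cg S k : ℝ) ≤ K * (g * k)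
  H : ∀ k : ℕ, (ch S k : ℝ) ≤ K * (h * k + h0)

theorem Bd.F' {S : Fin 3 → List (Fin 3)} {K f φ g h h0 : ℝ} (B : Bd S K f φ g h h0)
    (hK : 0 ≤ K) (hφ : 0 ≤ φ) (k : ℕ) : (cf S k : ℝ) ≤ K * (f * k + φ) := by
  cases k with
  | zero =>
    rw [cf_zero]
    simp only [Nat.cast_zero, mul_zero, zero_add]
    exact mul_nonneg hK hφ
  | succ k =>
    have := B.F k
    push_cast
    exact this

/-- the conditions for `b = a` -/
structure Cd0 (a θ f φ g h h0 : ℝ) : Prop where
  hθ : 0 < θ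
  hf : 0 < f
  hφ : 0 ≤ φ
  hg : 0 < g
  hh : 0 < h
  hh0 : 0 < h0
  hu : 0 ≤ f + g - h
  c1 : f + φ ≤ θ * g
  c2 : g ≤ θ * h0
  c3 : h * a + h0 ≤ θ * f
  c4 : h * a + h0 + a * (f + g - h) + φ ≤ θ * (f + φ)
  c5 : g + h * (a - 1) + h0 ≤ θ * h
  c6 : g + h * (a - 1) + h0 + (a - 1) * (f + g - h) + g + φ ≤ θ * (h + h0)

/-- the conditions for `b = a + 1` -/
structure Cd1 (a θ f φ g h h0 : ℝ) : Prop where
  hθ : 0 < θ
  hf : 0 < f
  hφ : 0 ≤ φ
  hg : 0 < g
  hh : 0 < h
  hh0 : 0 < h0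
  hu : 0 ≤ f + g - h
  c1 : f + φ ≤ θ * g
  c2 : g ≤ θ * h0
  c3 : f + φ + h * a + h0 ≤ θ * f
  c4 : f + φ + h * a + h0 + a * (f + g - h) ≤ θ * (f + φ)
  c5 : h * a + h0 ≤ θ * h
  c6 : h * a + h0 + g + φ + a * (f + g - h) ≤ θ * (h + h0)

theorem scale {K x y : ℝ} (hK : 0 ≤ K) (h : x ≤ y) {x' y' : ℝ} (hx : x' = K * x)
    (hy : y' = K * y) : x' ≤ y' := by
  rw [hx, hy]; exact mul_le_mul_of_nonneg_left h hK

theorem castle {m n : ℕ} (h : m ≤ n) : (m : ℝ) ≤ (n : ℝ) := by exact_mod_cast h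

theorem step_G {S : Fin 3 → List (Fin 3)} {K θ f φ g h h0 : ℝ} (B : Bd S K f φ g h h0)
    (hK : 0 ≤ K) (c1 : f + φ ≤ θ * g) (i i' j j' k : ℕ) :
    (cg (comp S (tau i i' j j')) k : ℝ) ≤ (θ * K) * (g * k) := by
  have h1 := castle (g_bound S i i' j j' k)
  push_cast at h1
  have h2 := B.F 0
  have h3 : (cf S 1 : ℝ) ≤ K * (f + φ) := by simpa using h2
  have h4 : (k : ℝ) * (cf S 1 : ℝ) ≤ k * (K * (θ * g)) :=
    mul_le_mul_of_nonneg_left (h3.trans (mul_le_mul_of_nonneg_left c1 hK)) (Nat.cast_nonneg k)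
  calc (cg (comp S (tau i i' j j')) k : ℝ) ≤ k * (cf S 1 : ℝ) := h1
    _ ≤ k * (K * (θ * g)) := h4
    _ = _ := by ring

theorem step_H0 {S : Fin 3 → List (Fin 3)} {K θ f φ g h h0 : ℝ} (B : Bd S K f φ g h h0)
    (hK : 0 ≤ K) (c2 : g ≤ θ * h0) (i i' j j' : ℕ) :
    (ch (comp S (tau i i' j j')) 0 : ℝ) ≤ (θ * K) * (h * (0 : ℕ) + h0) := by
  have h1 := castle (h_zero_bound S i i' j j')
  have h2 := B.G 1
  push_cast at h2
  calc (ch (comp S (tau i i' j j')) 0 : ℝ) ≤ (cg S 1 : ℝ) := h1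
    _ ≤ K * (g * 1) := h2
    _ ≤ K * (θ * h0) := by rw [mul_one]; exact mul_le_mul_of_nonneg_left c2 hK
    _ = _ := by push_cast; ring

theorem f0 (S : Fin 3 → List (Fin 3)) (a i i' j j' : ℕ) (hi : i + i' = a) (hj : j + j' = a) :
    ∃ e e' : ℕ, e + e' = a ∧ ∀ k, cf (comp S (tau i i' j j')) (k + 1) ≤
      k * ch S a + ch S e' + cf S e + cg S e := by
  rcases le_total j i with h | h
  · obtain ⟨e, rfl⟩ := Nat.exists_eq_add_of_le h
    have hj' : j' = e + i' := by omega
    subst hj'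
    subst hi
    exact ⟨e, j + i', by omega, fun k => f0A S j e i' k⟩
  · obtain ⟨e, rfl⟩ := Nat.exists_eq_add_of_le h
    have hi' : i' = e + j' := by omega
    subst hi'
    subst hj
    exact ⟨e, i + j', by omega, fun k => f0B S i e j' k⟩

theorem f1 (S : Fin 3 → List (Fin 3)) (a i i' j j' : ℕ) (hi : i + i' = a) (hj : j + j' = a + 1) :
    ∃ e e' : ℕ, e + e' = a ∧ (∀ k, cf (comp S (tau i i' j j')) (k + 1) ≤
      k * (cf S 1 + ch S a) + cg S e + cf S (e + 1) + ch S e') ∧
      (∀ k, ch (comp S (tau i i' j j')) (k + 1) ≤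
      k * ch S a + cg S (e + 1) + cf S e + ch S e') := by
  rcases le_or_gt j i with h | h
  · obtain ⟨e, rfl⟩ := Nat.exists_eq_add_of_le h
    have hj' : j' = e + i' + 1 := by omega
    subst hj'
    subst hi
    exact ⟨e, j + i', by omega, fun k => f1A S j e i' k, fun k => h1A S j e i' k⟩
  · obtain ⟨e, rfl⟩ := Nat.exists_eq_add_of_lt h
    have hi' : i' = e + j' := by omega
    subst hi'
    have ha : a = i + e + j' := by omega
    subst ha
    exact ⟨e, i + j', by omega, fun k => f1B S i e j' k, fun k => h1B S i e j' k⟩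

theorem h0 (S : Fin 3 → List (Fin 3)) (A i i' j j' : ℕ) (hi : i + i' = A + 1)
    (hj : j + j' = A + 1) :
    (∀ k, ch (comp S (tau i i' j j')) (k + 1) ≤ k * (cg S 1 + ch S A) + 2 * cg S 1 + ch S A) ∨
    ∃ D e' : ℕ, D + e' = A ∧ ∀ k, ch (comp S (tau i i' j j')) (k + 1) ≤
      k * (cg S 1 + ch S A) + cg S (D + 2) + cf S D + ch S e' := by
  rcases lt_trichotomy j i with h | h | h
  · obtain ⟨e, rfl⟩ := Nat.exists_eq_add_of_lt h
    have hj' : j' = e + 1 + i' := by omega
    subst hj'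
    have ha : A = j + e + i' := by omega
    subst ha
    exact Or.inr ⟨e, j + i', by omega, fun k => h0B S j e i' k⟩
  · subst h
    have hj' : j' = i' := by omega
    subst hj'
    exact Or.inl fun k => h0A S _ _ A k hi
  · obtain ⟨e, rfl⟩ := Nat.exists_eq_add_of_lt h
    have hi' : i' = e + 1 + j' := by omega
    subst hi'
    have ha : A = i + e + j' := by omega
    subst ha
    exact Or.inr ⟨e, i + j', by omega, fun k => h0C S i e j' k⟩

theorem step0 {S : Fin 3 → List (Fin 3)} {K θ f φ g h h0' : ℝ} (B : Bd S K f φ g h h0')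
    (hK : 0 ≤ K) (A : ℕ) (C : Cd0 ((A + 1 : ℕ) : ℝ) θ f φ g h h0') (i i' j j' : ℕ)
    (hi : i + i' = A + 1) (hj : j + j' = A + 1) :
    Bd (comp S (tau i i' j j')) (θ * K) f φ g h h0' := by
  have hc3 := C.c3
  have hc4 := C.c4
  have hc5 := C.c5
  have hc6 := C.c6
  push_cast at hc3 hc4 hc5 hc6
  refine ⟨fun k => ?_, fun k => step_G B hK C.c1 i i' j j' k, fun k => ?_⟩
  · obtain ⟨e, e', he, hb⟩ := f0 S (A + 1) i i' j j' hi hj
    have h1 := castle (hb k)
    push_cast at h1
    have h2 := B.H (A + 1)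
    have h3 := B.H e'
    have h4 := B.F' hK C.hφ e
    have h5 := B.G e
    push_cast at h2
    have he' : (e : ℝ) + e' = A + 1 := by exact_mod_cast he
    have he0 : (0 : ℝ) ≤ e' := Nat.cast_nonneg _
    have hk : (0 : ℝ) ≤ k := Nat.cast_nonneg _
    have h6 : (k : ℝ) * (ch S (A + 1) : ℝ) ≤ k * (K * (h * (A + 1) + h0')) :=
      mul_le_mul_of_nonneg_left h2 hk
    have h7 : (k : ℝ) * (h * (A + 1) + h0') + (h * e' + h0') + (f * e + φ) + g * e ≤
        θ * (f * (k + 1) + φ) := by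
      have h8 := mul_le_mul_of_nonneg_left hc3 hk
      have h9 := mul_nonneg he0 C.hu
      have h10 : (h * e' + h0') + (f * e + φ) + g * e =
          h * (A + 1) + h0' + (A + 1) * (f + g - h) + φ - e' * (f + g - h) := by
        rw [← he']; ring
      nlinarith
    have h11 := mul_le_mul_of_nonneg_left h7 hK
    nlinarith
  · cases k with
    | zero => exact step_H0 B hK C.c2 i i' j j'
    | succ k =>
      have h2 := B.H A
      have h3 := B.G 1
      push_cast at h3
      have hk : (0 : ℝ) ≤ k := Nat.cast_nonneg _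
      have h4 : (k : ℝ) * ((cg S 1 : ℝ) + (ch S A : ℝ)) ≤ k * (K * (g + h * A + h0')) := by
        refine mul_le_mul_of_nonneg_left ?_ hk
        nlinarith
      have hc5' : g + h * A + h0' ≤ θ * h := by nlinarith
      have hc6' : g + h * A + h0' + A * (f + g - h) + g + φ ≤ θ * (h + h0') := by nlinarith
      have h8 := mul_le_mul_of_nonneg_left hc5' hk
      have hA : (0 : ℝ) ≤ A := Nat.cast_nonneg _
      rcases h0 S A i i' j j' hi hj with hb | ⟨D, e', he, hb⟩
      · have h1 := castle (hb k)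
        push_cast at h1
        have h9 := mul_nonneg hA C.hu
        have h7 : (k : ℝ) * (g + h * A + h0') + 2 * g + (h * A + h0') ≤
            θ * (h * (k + 1) + h0') := by
          nlinarith [C.hφ]
        have h11 := mul_le_mul_of_nonneg_left h7 hK
        push_cast
        nlinarith
      · have h1 := castle (hb k)
        push_cast at h1
        have he' : (D : ℝ) + e' = A := by exact_mod_cast he
        have he0 : (0 : ℝ) ≤ e' := Nat.cast_nonneg _
        have h5 := B.G (D + 2)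
        have h6 := B.F' hK C.hφ D
        have h12 := B.H e'
        push_cast at h5
        have h9 := mul_nonneg he0 C.hu
        have h7 : (k : ℝ) * (g + h * A + h0') + g * (D + 2) + (f * D + φ) + (h * e' + h0') ≤
            θ * (h * (k + 1) + h0') := by
          have h10 : g * (D + 2) + (f * D + φ) + (h * e' + h0') =
              g + h * A + h0' + A * (f + g - h) + g + φ - e' * (f + g - h) := by
            rw [← he']; ring
          nlinarith
        have h11 := mul_le_mul_of_nonneg_left h7 hK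
        push_cast
        nlinarith

theorem step1 {S : Fin 3 → List (Fin 3)} {K θ f φ g h h0' : ℝ} (B : Bd S K f φ g h h0')
    (hK : 0 ≤ K) (a : ℕ) (C : Cd1 (a : ℝ) θ f φ g h h0') (i i' j j' : ℕ)
    (hi : i + i' = a) (hj : j + j' = a + 1) :
    Bd (comp S (tau i i' j j')) (θ * K) f φ g h h0' := by
  obtain ⟨e, e', he, hbf, hbh⟩ := f1 S a i i' j j' hi hj
  have hc3 := C.c3
  have hc4 := C.c4
  have hc5 := C.c5
  have hc6 := C.c6
  have he' : (e : ℝ) + e' = a := by exact_mod_cast he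
  have he0 : (0 : ℝ) ≤ e' := Nat.cast_nonneg _
  have h9 := mul_nonneg he0 C.hu
  have hHa := B.H a
  have hHe := B.H e'
  have hF1 := B.F 0
  have hF1' : (cf S 1 : ℝ) ≤ K * (f + φ) := by simpa using hF1
  refine ⟨fun k => ?_, fun k => step_G B hK C.c1 i i' j j' k, fun k => ?_⟩
  · have h1 := castle (hbf k)
    push_cast at h1
    have hk : (0 : ℝ) ≤ k := Nat.cast_nonneg _
    have h5 := B.G e
    have h6 := B.F e
    have h4 : (k : ℝ) * ((cf S 1 : ℝ) + (ch S a : ℝ)) ≤ k * (K * (f + φ + h * a + h0')) := by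
      refine mul_le_mul_of_nonneg_left ?_ hk
      nlinarith
    have h8 := mul_le_mul_of_nonneg_left hc3 hk
    have h7 : (k : ℝ) * (f + φ + h * a + h0') + g * e + (f * (e + 1) + φ) + (h * e' + h0') ≤
        θ * (f * (k + 1) + φ) := by
      have h10 : g * e + (f * (e + 1) + φ) + (h * e' + h0') =
          f + φ + h * a + h0' + a * (f + g - h) - e' * (f + g - h) := by
        rw [← he']; ring
      nlinarith
    have h11 := mul_le_mul_of_nonneg_left h7 hK
    nlinarith
  · cases k with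
    | zero => exact step_H0 B hK C.c2 i i' j j'
    | succ k =>
      have h1 := castle (hbh k)
      push_cast at h1
      have hk : (0 : ℝ) ≤ k := Nat.cast_nonneg _
      have h5 := B.G (e + 1)
      have h6 := B.F' hK C.hφ e
      push_cast at h5
      have h4 : (k : ℝ) * (ch S a : ℝ) ≤ k * (K * (h * a + h0')) :=
        mul_le_mul_of_nonneg_left hHa hk
      have h8 := mul_le_mul_of_nonneg_left hc5 hk
      have h7 : (k : ℝ) * (h * a + h0') + g * (e + 1) + (f * e + φ) + (h * e' + h0') ≤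
          θ * (h * (k + 1) + h0') := by
        have h10 : g * (e + 1) + (f * e + φ) + (h * e' + h0') =
            h * a + h0' + g + φ + a * (f + g - h) - e' * (f + g - h) := by
          rw [← he']; ring
        nlinarith
      have h11 := mul_le_mul_of_nonneg_left h7 hK
      push_cast
      nlinarith

end Pool.Agent.H872.PC
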