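import Pool.Agent.H872.PC.BP5Defs

/-! Certificate tree for products of five factors, `a = 0`, `b = 1`. -/

set_option autoImplicit false
set_option maxRecDepth 100000

namespace Pool.Agent.H872.PC

def t01 : Tr :=
(.node (.node (.node (.node (.node (.node (.node (.node .leaf 17 20 79 .leaf) 18 24 61 .leaf) 22
25 47 (.node .leaf 69 84 114 .leaf)) 70 88 104 (.node (.node (.node .leaf 70 97 105 .leaf) 73 82
105 .leaf) 73 100 104 (.node .leaf 82 97 80 .leaf))) 82 100 105 (.node (.node (.node (.node .leaf
88 97 105 .leaf) 262 385 131 .leaf) 265 322 134 (.node .leaf 274 388 138 .leaf)) 278 344 149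
(.node (.node (.node .leaf 278 353 138 .leaf) 280 385 136 .leaf) 289 328 122 (.node .leaf 292 322
136 .leaf)))) 293 404 149 (.node (.node (.node (.node (.node .leaf 322 400 131 .leaf) 329 404 138
.leaf) 338 389 124 (.node .leaf 352 385 134 .leaf)) 1046 1541 175 (.node (.node (.node .leaf 1094
1409 164 .leaf) 1094 1541 183 .leaf) 1094 1553 182 (.node .leaf 1097 1556 180 .leaf))) 1106 1412
180 (.node (.node (.node (.node .leaf 1106 1553 183 .leaf) 1106 1556 182 .leaf) 1112 1409 179
(.node .leaf 1112 1541 175 .leaf)) 1121 1352 167 (.node (.node .leaf 1122 1569 164 .leaf) 1157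
1298 166 (.node .leaf 1157 1316 167 .leaf))))) 1161 1314 148 (.node (.node (.node (.node (.node
(.node .leaf 1161 1602 161 .leaf) 1169 1298 164 .leaf) 1172 1289 179 (.node .leaf 1172 1346 175
.leaf)) 1289 1604 164 (.node (.node (.node .leaf 1298 1553 158 .leaf) 1298 1556 183 .leaf) 1298
1604 182 (.node .leaf 1304 1553 164 .leaf))) 1314 1569 140 (.node (.node (.node (.node .leaf 1314
1572 164 .leaf) 1346 1604 183 .leaf) 1346 1616 175 (.node .leaf 1352 1553 166 .leaf)) 1416 1542
161 (.node (.node .leaf 1416 1569 148 .leaf) 4184 6161 208 (.node .leaf 4233 5154 193 .leaf))))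
4244 5186 208 (.node (.node (.node (.node (.node .leaf 4376 6161 194 .leaf) 4448 6161 208 .leaf)
4485 5394 207 (.node .leaf 4488 6273 189 .leaf)) 4641 5256 181 (.node (.node (.node .leaf 4644
5154 189 .leaf) 4676 5186 194 .leaf) 4681 6466 192 (.node .leaf 4688 5186 208 .leaf))) 5202 6213
201 (.node (.node (.node (.node .leaf 5218 6241 184 .leaf) 5266 6277 183 .leaf) 5266 6289 184
(.node .leaf 5394 6225 201 .leaf)) 5410 6241 183 (.node (.node .leaf 5412 6213 207 .leaf) 5656
6166 192 (.node .leaf 5664 6273 193 .leaf)))))) 17496 22545 249 (.node (.node (.node (.node (.node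
(.node (.node .leaf 17496 24645 243 .leaf) 17506 24865 241 .leaf) 17698 24865 241 (.node .leaf
17800 22657 237 .leaf)) 17926 25105 239 (.node (.node (.node .leaf 17944 25105 215 .leaf) 18529
20770 226 .leaf) 18565 21010 226 (.node .leaf 18577 21010 217 .leaf))) 18580 20617 237 (.node
(.node (.node (.node .leaf 18697 20770 217 .leaf) 18705 20754 235 .leaf) 18724 20770 215 (.node
.leaf 18754 20617 236 .leaf)) 18756 20745 249 (.node (.node .leaf 18756 21570 243 .leaf) 20760
24849 235 (.node .leaf 20770 25636 239 .leaf)))) 20872 24865 217 (.node (.node (.node (.node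
(.node .leaf 21010 25108 241 .leaf) 21010 25156 241 .leaf) 21064 25105 226 (.node .leaf 21640
24865 226 .leaf)) 22552 25105 217 (.node (.node (.node .leaf 22657 24664 236 .leaf) 67732 82498
248 .leaf) 71192 90629 278 (.node .leaf 71192 98582 273 .leaf))) 71200 98689 248 (.node (.node
(.node (.node .leaf 74900 86153 278 .leaf) 74900 103490 273 .leaf) 83042 99425 262 (.node .leaf
83090 102545 254 .leaf)) 83462 99857 254 (.node (.node .leaf 84050 100421 261 .leaf) 84242 100625
262 (.node .leaf 84258 100617 243 .leaf))))) 86153 103490 255 (.node (.node (.node (.node (.node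
(.node .leaf 86306 99617 261 .leaf) 90210 100449 243 .leaf) 90629 98582 255 (.node .leaf 280088
397841 292 .leaf)) 283208 397841 298 (.node (.node (.node .leaf 284801 394328 309 .leaf) 287000
401681 285 .leaf) 287112 401697 266 (.node .leaf 296468 332306 298 .leaf))) 297057 336162 285
(.node (.node (.node (.node .leaf 297252 336162 266 .leaf) 299300 332066 285 .leaf) 299588 332306
292 (.node .leaf 300098 329876 309 .leaf)) 300098 331913 311 (.node (.node .leaf 337032 401697 285
.leaf) 362513 394328 311 (.node .leaf 1132626 1591365 362 .leaf)))) 1138776 1450053 335 (.node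
(.node (.node (.node (.node .leaf 1200276 1380489 335 .leaf) 1328646 1590801 331 .leaf) 1329426
1640721 331 (.node .leaf 1380882 1593876 362 .leaf)) 4334740 5279881 354 (.node (.node (.node
.leaf 4481304 6365457 354 .leaf) 4556320 5800321 354 .leaf) 4756546 5279881 361 (.node .leaf
4788804 5313042 354 .leaf))) 5800321 6309256 361 (.node (.node (.node (.node .leaf 18225281
23200856 413 .leaf) 19206281 21111956 413 .leaf) 68556929 101057624 438 (.node .leaf 76825154
84447824 438 .leaf)) 307270722 353407113 460 (.node (.node .leaf 371220549 403791960 460 .leaf)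
4916809865 5404660802 538 (.node .leaf 5939528792 6460676225 538 .leaf)))))))

theorem chk001 : t01.all (chk0 (10 ^ 9) 10 1) = true := by decide +kernel

theorem chk001b : t01.all (chk0 (10 ^ 9) 403 100) = true := by decide +kernel

theorem chkA01 : chkA (10 ^ 9) 10 1 t01 0 1 = true := by decide +kernel

end Pool.Agent.H872.PC
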